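import Mathlib

/-!
# The sum of the primes up to `C √X`
-/

set_option autoImplicit false

namespace Pool.Agent.W5h5.LD

open Filter Topology

/-- the sum of the primes up to `C √X` is `o(X)` -/
theorem sum_primes_small (C : ℕ) : Tendsto (fun X : ℕ =>
    ((∑ p ∈ (Finset.Icc 1 (C * Nat.sqrt X)).filter Nat.Prime, p : ℕ) : ℝ) / X) atTop (𝓝 0) := by
  -- `π (n) ≤ ε n` eventually
  have hpi : ∀ ε : ℝ, 0 < ε → ∀ᶠ n : ℕ in atTop, (Nat.primeCounting n : ℝ) ≤ ε * n := by
    intro ε hε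
    have h1 := Chebyshev.eventually_primeCounting_le (ε := 1) one_pos
    have h2 : ∀ᶠ x : ℝ in atTop, (Real.log 4 + 1) / ε ≤ Real.log x :=
      Real.tendsto_log_atTop.eventually_ge_atTop _
    have h3 := (h1.and (h2.and (eventually_gt_atTop (1 : ℝ))))
    have h4 := tendsto_natCast_atTop_atTop (R := ℝ) |>.eventually h3
    filter_upwards [h4] with n hn
    obtain ⟨e1, e2, e3⟩ := hn
    rw [Nat.floor_natCast] at e1
    refine e1.trans ?_
    have hlog : 0 < Real.log n := Real.log_pos e3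
    rw [div_le_iff₀ hlog]
    rw [div_le_iff₀ hε] at e2
    have hn0 : (0 : ℝ) ≤ n := by positivity
    nlinarith
  rcases Nat.eq_zero_or_pos C with hC | hC
  · subst hC
    simp
  rw [Metric.tendsto_atTop]
  intro ε hε
  have hC0 : (0 : ℝ) < (C : ℝ) ^ 2 := by positivity
  have h1 := hpi (ε / (2 * (C : ℝ) ^ 2)) (by positivity)
  rw [eventually_atTop] at h1
  obtain ⟨N, hN⟩ := h1
  refine ⟨(N + 1) ^ 2, fun X hX => ?_⟩
  have hX1 : 1 ≤ X := le_trans (Nat.one_le_pow _ _ (Nat.succ_pos N)) hX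
  have hXpos : (0 : ℝ) < X := by exact_mod_cast hX1
  set P := C * Nat.sqrt X with hP
  have hsq : N + 1 ≤ Nat.sqrt X := by
    rw [Nat.le_sqrt']
    exact hX
  have hPN : N ≤ P := by
    have : Nat.sqrt X ≤ C * Nat.sqrt X := Nat.le_mul_of_pos_left _ hC
    omega
  have hsum : (∑ p ∈ (Finset.Icc 1 P).filter Nat.Prime, p) ≤ P * Nat.primeCounting P := by
    have h2 : ∑ p ∈ (Finset.Icc 1 P).filter Nat.Prime, p ≤
        ∑ _p ∈ (Finset.Icc 1 P).filter Nat.Prime, P :=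
      Finset.sum_le_sum fun p hp => (Finset.mem_Icc.1 (Finset.mem_filter.1 hp).1).2
    refine h2.trans ?_
    rw [Finset.sum_const, smul_eq_mul, mul_comm]
    apply Nat.mul_le_mul_left
    have h3 : (Finset.Icc 1 P).filter Nat.Prime ⊆ (Finset.range (P + 1)).filter Nat.Prime := by
      intro q hq
      rw [Finset.mem_filter, Finset.mem_Icc] at hq
      rw [Finset.mem_filter, Finset.mem_range]
      exact ⟨by omega, hq.2⟩
    refine (Finset.card_le_card h3).trans ?_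
    rw [Nat.primeCounting, Nat.primeCounting', Nat.count_eq_card_filter_range]
  have h5 := hN P hPN
  have h6 : ((∑ p ∈ (Finset.Icc 1 P).filter Nat.Prime, p : ℕ) : ℝ) ≤
      (P : ℝ) * (ε / (2 * (C : ℝ) ^ 2) * P) := by
    calc ((∑ p ∈ (Finset.Icc 1 P).filter Nat.Prime, p : ℕ) : ℝ)
        ≤ ((P * Nat.primeCounting P : ℕ) : ℝ) := by exact_mod_cast hsum
      _ = (P : ℝ) * Nat.primeCounting P := by push_cast; ring
      _ ≤ _ := mul_le_mul_of_nonneg_left h5 (by positivity)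
  have h7 : ((P : ℕ) : ℝ) ^ 2 ≤ (C : ℝ) ^ 2 * X := by
    have h8 : Nat.sqrt X ^ 2 ≤ X := Nat.sqrt_le' X
    have h9 : ((Nat.sqrt X : ℕ) : ℝ) ^ 2 ≤ X := by exact_mod_cast h8
    rw [hP]
    push_cast
    rw [mul_pow]
    exact mul_le_mul_of_nonneg_left h9 hC0.le
  rw [dist_zero_right, Real.norm_of_nonneg (by positivity), div_lt_iff₀ hXpos]
  calc ((∑ p ∈ (Finset.Icc 1 P).filter Nat.Prime, p : ℕ) : ℝ)
      ≤ (P : ℝ) * (ε / (2 * (C : ℝ) ^ 2) * P) := h6
    _ = ε / (2 * (C : ℝ) ^ 2) * (P : ℝ) ^ 2 := by ring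
    _ ≤ ε / (2 * (C : ℝ) ^ 2) * ((C : ℝ) ^ 2 * X) := by
        apply mul_le_mul_of_nonneg_left h7
        positivity
    _ = ε / 2 * X := by
        field_simp
    _ < ε * X := by
        apply mul_lt_mul_of_pos_right _ hXpos
        linarith

end Pool.Agent.W5h5.LD
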