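import Mathlib

/-!
# Linear algebra: adapted bases and a determinant
-/

set_option autoImplicit false

namespace Pool.Agent.W5h5.LD

open Polynomial

variable {F : Type} [Field F]

/-- a basis adapted to the kernel of a linear map -/
theorem adapted {r : ℕ} {V : Type} [AddCommGroup V] [Module F V] (κ : (Fin r → F) →ₗ[F] V) :
    ∃ (b : Fin r → (Fin r → F)) (I : Fin r → Prop), (∀ a, I a → κ (b a) = 0) ∧
      (∀ c : Fin r → F, ∑ a, c a • b a = 0 → c = 0) ∧
      (∀ c : Fin r → F, (∀ a, I a → c a = 0) → ∑ a, c a • κ (b a) = 0 → c = 0) := by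
  classical
  obtain ⟨W, hW⟩ := (LinearMap.ker κ).exists_isCompl
  have hcard : Module.finrank F (LinearMap.ker κ) + Module.finrank F W = r := by
    rw [Submodule.finrank_add_eq_of_isCompl hW, Module.finrank_fin_fun]
  let bK := Module.finBasis F (LinearMap.ker κ)
  let bW := Module.finBasis F W
  let β := (bK.prod bW).map (Submodule.prodEquivOfIsCompl (LinearMap.ker κ) W hW)
  let e : Fin (Module.finrank F (LinearMap.ker κ)) ⊕ Fin (Module.finrank F W) ≃ Fin r :=
    finSumFinEquiv.trans (finCongr hcard)
  have hinl : ∀ i, β (Sum.inl i) ∈ LinearMap.ker κ := by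
    intro i
    simp only [β, Module.Basis.map_apply, Module.Basis.prod_apply, Submodule.coe_prodEquivOfIsCompl']
    simp
  have hinr : ∀ i, β (Sum.inr i) ∈ W := by
    intro i
    simp only [β, Module.Basis.map_apply, Module.Basis.prod_apply, Submodule.coe_prodEquivOfIsCompl']
    simp
  have hli : ∀ c : Fin r → F, ∑ a, c a • β (e.symm a) = 0 → c = 0 := by
    intro c hc
    have h1 := β.linearIndependent.comp e.symm e.symm.injective
    rw [Fintype.linearIndependent_iff] at h1
    funext a
    exact h1 c hc a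
  refine ⟨fun a => β (e.symm a), fun a => ∃ i, e.symm a = Sum.inl i, ?_, hli, ?_⟩
  · rintro a ⟨i, hi⟩
    have := hinl i
    rw [← hi] at this
    exact this
  · intro c hc h0
    apply hli
    have h1 : ∑ a, c a • β (e.symm a) ∈ LinearMap.ker κ := by
      rw [LinearMap.mem_ker, map_sum]
      rw [← h0]
      exact Finset.sum_congr rfl fun a _ => by rw [map_smul]
    have h2 : ∑ a, c a • β (e.symm a) ∈ W := by
      refine Submodule.sum_mem _ fun a _ => ?_
      rcases h3 : e.symm a with i | i
      · rw [hc a ⟨i, h3⟩, zero_smul]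
        exact W.zero_mem
      · exact W.smul_mem _ (hinr i)
    have h3 := Submodule.mem_inf.2 ⟨h1, h2⟩
    rw [hW.inf_eq_bot, Submodule.mem_bot] at h3
    exact h3

/-- the determinant of a block triangular matrix `X B + E` -/
theorem det_ne_zero_of {r : ℕ} (I : Fin r → Prop) (Bm Em : Matrix (Fin r) (Fin r) F)
    (h1 : ∀ a k, I a → I k → Bm a k = if a = k then 1 else 0)
    (h2 : ∀ a k, ¬ I a → I k → Bm a k = 0 ∧ Em a k = 0)
    (h3 : ∀ a k, ¬ I a → ¬ I k → Bm a k = 0 ∧ Em a k = if a = k then 1 else 0) :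
    ((X : F[X]) • Bm.map C + Em.map C).det ≠ 0 := by
  classical
  intro hdet
  rw [← Matrix.exists_vecMul_eq_zero_iff] at hdet
  obtain ⟨v, hv0, hv⟩ := hdet
  have hcol : ∀ k, ∑ a, v a * (X * C (Bm a k) + C (Em a k)) = 0 := by
    intro k
    have := congrFun hv k
    simpa [Matrix.vecMul, dotProduct] using this
  -- the columns in `I`
  have hI : ∀ a, I a → v a = 0 := by
    by_contra hcon
    push Not at hcon
    obtain ⟨a0, ha0, hva0⟩ := hcon
    let s : Finset (Fin r) := Finset.univ.filter (fun a => I a ∧ v a ≠ 0)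
    have hs : s.Nonempty := ⟨a0, Finset.mem_filter.2 ⟨Finset.mem_univ _, ha0, hva0⟩⟩
    obtain ⟨k, hk, hmax⟩ := s.exists_max_image (fun a => (v a).natDegree) hs
    obtain ⟨-, hkI, hvk⟩ := Finset.mem_filter.1 hk
    have hle : ∀ a, I a → (v a).natDegree ≤ (v k).natDegree := by
      intro a ha
      by_cases hva : v a = 0
      · rw [hva, natDegree_zero]; exact Nat.zero_le _
      · exact hmax a (Finset.mem_filter.2 ⟨Finset.mem_univ _, ha, hva⟩)
    have h4 := congrArg (fun P => P.coeff ((v k).natDegree + 1)) (hcol k)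
    simp only [finsetSum_coeff, coeff_zero] at h4
    rw [Finset.sum_eq_single k] at h4
    · rw [h1 k k hkI hkI, if_pos rfl, map_one, mul_one, mul_add, coeff_add, coeff_mul_X, coeff_mul_C] at h4
      have h5 : (v k).coeff ((v k).natDegree + 1) = 0 :=
        coeff_eq_zero_of_natDegree_lt (Nat.lt_succ_self _)
      rw [h5, zero_mul, add_zero] at h4
      exact hvk (leadingCoeff_eq_zero.1 h4)
    · intro a _ hak
      by_cases haI : I a
      · rw [h1 a k haI hkI, if_neg hak, map_zero, mul_zero, zero_add, coeff_mul_C,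
          coeff_eq_zero_of_natDegree_lt (Nat.lt_succ_of_le (hle a haI)), zero_mul]
      · obtain ⟨h6, h7⟩ := h2 a k haI hkI
        rw [h6, h7]
        simp
    · intro h; exact absurd (Finset.mem_univ _) h
  apply hv0
  funext k
  by_cases hk : I k
  · exact hI k hk
  · have h4 := hcol k
    rw [Finset.sum_eq_single k] at h4
    · obtain ⟨h5, h6⟩ := h3 k k hk hk
      rw [h5, h6, if_pos rfl, map_zero, mul_zero, zero_add, map_one, mul_one] at h4
      exact h4
    · intro a _ hak
      by_cases haI : I a
      · rw [hI a haI, zero_mul]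
      · obtain ⟨h5, h6⟩ := h3 a k haI hk
        rw [h5, h6, if_neg hak]
        simp
    · intro h; exact absurd (Finset.mem_univ _) h

/-- functionals dual to an injective map -/
theorem exists_dual' {ι V : Type} [Fintype ι] [AddCommGroup V] [Module F V] (v : ι → V)
    (h : ∀ c : ι → F, ∑ a, c a • v a = 0 → c = 0) :
    ∃ Λ : V →ₗ[F] (ι → F), ∀ c : ι → F, Λ (∑ a, c a • v a) = c := by
  classical
  let T : (ι → F) →ₗ[F] V :=
    { toFun := fun c => ∑ a, c a • v a
      map_add' := fun c c' => by
        simp only [Pi.add_apply, add_smul, Finset.sum_add_distrib]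
      map_smul' := fun x c => by
        simp only [Pi.smul_apply, smul_eq_mul, mul_smul, RingHom.id_apply, Finset.smul_sum] }
  have hT : LinearMap.ker T = ⊥ := by
    rw [LinearMap.ker_eq_bot']
    exact h
  obtain ⟨Λ, hΛ⟩ := LinearMap.exists_leftInverse_of_injective T hT
  exact ⟨Λ, fun c => congrArg (fun L => L c) hΛ⟩

end Pool.Agent.W5h5.LD
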