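import Mathlib
import Pool.Agent.W5h5.LD.LinAlg

/-!
# Linear algebra in a ring which contains a field
-/

set_option autoImplicit false

namespace Pool.Agent.W5h5.LD

variable {F R : Type} [Field F] [CommRing R] (ι : F →+* R)

theorem adapted_ring {r : ℕ} (kap : Fin r → R) :
    ∃ (b : Fin r → (Fin r → F)) (I : Fin r → Prop), (∀ a, I a → ∑ i, ι (b a i) * kap i = 0) ∧
      (∀ c : Fin r → F, ∑ a, c a • b a = 0 → c = 0) ∧
      (∀ c : Fin r → F, (∀ a, I a → c a = 0) → ∑ a, ι (c a) * ∑ i, ι (b a i) * kap i = 0 → c = 0) := by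
  let _ : Algebra F R := ι.toAlgebra
  let κ : (Fin r → F) →ₗ[F] R :=
    { toFun := fun c => ∑ i, ι (c i) * kap i
      map_add' := fun c c' => by
        simp only [Pi.add_apply, map_add, add_mul, Finset.sum_add_distrib]
      map_smul' := fun y c => by
        simp only [Pi.smul_apply, smul_eq_mul, map_mul, mul_assoc, RingHom.id_apply, Algebra.smul_def,
          Finset.mul_sum]
        rfl }
  obtain ⟨b, I, h1, h2, h3⟩ := adapted κ
  refine ⟨b, I, h1, h2, fun c hc h0 => h3 c hc ?_⟩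
  rw [← h0]
  exact Finset.sum_congr rfl fun a _ => Algebra.smul_def _ _

theorem exists_dual_ring {J : Type} [Fintype J] (v : J → R)
    (h : ∀ c : J → F, ∑ a, ι (c a) * v a = 0 → c = 0) :
    ∃ Λ : R → J → F, (∀ y z, Λ (y + z) = Λ y + Λ z) ∧ (∀ y z, Λ (ι y * z) = y • Λ z) ∧
      ∀ c : J → F, Λ (∑ a, ι (c a) * v a) = c := by
  let _ : Algebra F R := ι.toAlgebra
  obtain ⟨Λ, hΛ⟩ := exists_dual' (F := F) v (by
    intro c hc
    apply h
    rw [← hc]
    exact Finset.sum_congr rfl fun a _ => (Algebra.smul_def _ _).symm)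
  refine ⟨Λ, fun y z => map_add Λ y z, fun y z => ?_, fun c => ?_⟩
  · have : ι y * z = y • z := (Algebra.smul_def _ _).symm
    rw [this, map_smul]
  · have h1 := hΛ c
    rw [← h1]
    congr 1
    rw [h1]
    exact Finset.sum_congr rfl fun a _ => (Algebra.smul_def _ _).symm

end Pool.Agent.W5h5.LD

namespace Pool.Agent.W5h5.LD

open Polynomial

variable {F R : Type} [Field F] [CommRing R] (ι : F →+* R)

theorem lin_sum {J : Type} (Λ : R → J → F) (h1 : ∀ y z, Λ (y + z) = Λ y + Λ z)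
    (h2 : ∀ y z, Λ (ι y * z) = y • Λ z) {n : ℕ} (e : Fin n → F) (z : Fin n → R) (k : J) :
    Λ (∑ j, ι (e j) * z j) k = ∑ j, e j * Λ (z j) k := by
  have h0 : Λ 0 = 0 := by
    have := h1 0 0
    rw [add_zero] at this
    exact left_eq_add.1 this
  have h3 : ∀ s : Finset (Fin n), Λ (∑ j ∈ s, ι (e j) * z j) = ∑ j ∈ s, e j • Λ (z j) := by
    classical
    intro s
    induction s using Finset.induction_on with
    | empty => simpa using h0
    | insert a s ha ih => rw [Finset.sum_insert ha, Finset.sum_insert ha, h1, h2, ih]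
  rw [h3, Finset.sum_apply]
  exact Finset.sum_congr rfl fun j _ => rfl

/-- the functionals for which the determinant is not zero -/
theorem exists_D {r n : ℕ} (y d : R) (δ kap : Fin r → R)
    (hδ : ∀ c : Fin r → F, ∑ i, ι (c i) * δ i = 0 → c = 0) (μ : F) (hμ : μ ≠ 0)
    (b : Fin r → (Fin r → F)) (I : Fin r → Prop)
    (hb2 : ∀ c : Fin r → F, ∑ a, c a • b a = 0 → c = 0)
    (hb3 : ∀ c : Fin r → F, (∀ a, I a → c a = 0) →
      ∑ a, ι (c a) * ∑ i, ι (b a i) * kap i = 0 → c = 0)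
    (Eb Bb : Fin r → R) (e β : Fin r → Fin n → F)
    (hE : ∀ a, Eb a = ∑ j, ι (e a j) * y ^ (j : ℕ)) (hB : ∀ a, Bb a = ∑ j, ι (β a j) * y ^ (j : ℕ))
    (hI : ∀ a, I a → Bb a * d = ∑ i, ι (μ * b a i) * δ i)
    (hJ : ∀ a, ¬ I a → Bb a = 0 ∧ Eb a = ∑ i, ι (b a i) * kap i ∧ d * Eb a = 0) :
    ∃ D : Fin n → Fin r → F, ((X : F[X]) • (Matrix.of fun i k => ∑ j, β i j * D j k).map C +
      (Matrix.of fun i k => ∑ j, e i j * D j k).map C).det ≠ 0 := by
  classical
  obtain ⟨Λ, hΛ1, hΛ2, hΛ3⟩ := exists_dual_ring ι δ hδ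
  obtain ⟨Γ, hΓ⟩ := exists_dual' b hb2
  obtain ⟨Ω, hΩ1, hΩ2, hΩ3⟩ := exists_dual_ring ι
    (fun a : {a // ¬ I a} => ∑ i, ι (b a.1 i) * kap i) (by
    intro c hc
    have h1 := hb3 (fun a => if h : ¬ I a then c ⟨a, h⟩ else 0)
      (fun a ha => by rw [dif_neg (not_not.2 ha)]) (by
        rw [← hc, ← Finset.sum_filter_add_sum_filter_not Finset.univ (fun a => ¬ I a)]
        have e2 : ∑ a ∈ Finset.univ.filter (fun a => ¬ ¬ I a),
            ι (if h : ¬ I a then c ⟨a, h⟩ else 0) * ∑ i, ι (b a i) * kap i = 0 := by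
          refine Finset.sum_eq_zero fun a ha => ?_
          rw [dif_neg (Finset.mem_filter.1 ha).2, map_zero, zero_mul]
        rw [e2, add_zero, ← Finset.sum_subtype_eq_sum_filter, Finset.subtype_univ]
        refine Finset.sum_congr rfl fun a _ => ?_
        rw [dif_pos a.2])
    funext a
    have h2 := congrFun h1 a.1
    rw [dif_pos a.2] at h2
    exact h2)
  let D : Fin n → Fin r → F := fun j k => if h : ¬ I k then Ω (y ^ (j : ℕ)) ⟨k, h⟩ else
    μ⁻¹ * Γ (Λ (d * y ^ (j : ℕ))) k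
  have hDI : ∀ (c : Fin n → F) (k : Fin r), I k →
      ∑ j, c j * D j k = μ⁻¹ * Γ (Λ (d * ∑ j, ι (c j) * y ^ (j : ℕ))) k := by
    intro c k hk
    have h1 : d * ∑ j, ι (c j) * y ^ (j : ℕ) = ∑ j, ι (c j) * (d * y ^ (j : ℕ)) := by
      rw [Finset.mul_sum]
      exact Finset.sum_congr rfl fun j _ => by ring
    have h2 : Λ (∑ j, ι (c j) * (d * y ^ (j : ℕ))) = ∑ j, c j • Λ (d * y ^ (j : ℕ)) := by
      funext i
      rw [lin_sum ι Λ hΛ1 hΛ2 c (fun j => d * y ^ (j : ℕ)) i, Finset.sum_apply]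
      rfl
    rw [h1, h2, map_sum, Finset.sum_apply, Finset.mul_sum]
    refine Finset.sum_congr rfl fun j _ => ?_
    simp only [D]
    rw [dif_neg (not_not.2 hk), map_smul, Pi.smul_apply, smul_eq_mul]
    ring
  have hDJ : ∀ (c : Fin n → F) (k : Fin r) (hk : ¬ I k),
      ∑ j, c j * D j k = Ω (∑ j, ι (c j) * y ^ (j : ℕ)) ⟨k, hk⟩ := by
    intro c k hk
    rw [lin_sum ι Ω hΩ1 hΩ2 c (fun j => y ^ (j : ℕ)) ⟨k, hk⟩]
    refine Finset.sum_congr rfl fun j _ => ?_
    simp only [D]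
    rw [dif_pos hk]
  have hΛ0 : Λ 0 = 0 := by
    have := hΛ1 0 0
    rw [add_zero] at this
    exact left_eq_add.1 this
  have hΩ0 : Ω 0 = 0 := by
    have := hΩ1 0 0
    rw [add_zero] at this
    exact left_eq_add.1 this
  refine ⟨D, det_ne_zero_of I _ _ ?_ ?_ ?_⟩
  · intro a k ha hk
    rw [Matrix.of_apply, hDI _ k hk, ← hB, mul_comm d, hI a ha, hΛ3]
    have h1 : (fun i => μ * b a i) = μ • ∑ a', (if a' = a then (1 : F) else 0) • b a' := by
      rw [Finset.sum_eq_single a]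
      · rw [if_pos rfl, one_smul]; rfl
      · intro a' _ h; rw [if_neg h, zero_smul]
      · intro h; exact absurd (Finset.mem_univ _) h
    rw [h1, map_smul, hΓ, Pi.smul_apply, smul_eq_mul, ← mul_assoc, inv_mul_cancel₀ hμ, one_mul]
    by_cases hak : a = k
    · rw [if_pos hak, if_pos hak.symm]
    · rw [if_neg hak, if_neg (fun h => hak h.symm)]
  · intro a k ha hk
    obtain ⟨h1, h2, h3⟩ := hJ a ha
    rw [Matrix.of_apply, Matrix.of_apply, hDI _ k hk, hDI _ k hk, ← hB, ← hE, h1, h3, mul_zero, hΛ0,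
      map_zero]
    simp
  · intro a k ha hk
    obtain ⟨h1, h2, h3⟩ := hJ a ha
    rw [Matrix.of_apply, Matrix.of_apply, hDJ _ k hk, hDJ _ k hk, ← hB, ← hE, h1, h2, hΩ0]
    refine ⟨rfl, ?_⟩
    have h4 := hΩ3 (fun a' => if a'.1 = a then 1 else 0)
    have h5 : ∑ a' : {a // ¬ I a}, ι (if a'.1 = a then 1 else 0) * ∑ i, ι (b a'.1 i) * kap i =
        ∑ i, ι (b a i) * kap i := by
      rw [Finset.sum_eq_single (⟨a, ha⟩ : {a // ¬ I a})]
      · rw [if_pos rfl, map_one, one_mul]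
      · intro a' _ h
        rw [if_neg (fun h' => h (Subtype.ext h')), map_zero, zero_mul]
      · intro h; exact absurd (Finset.mem_univ _) h
    rw [h5] at h4
    rw [h4]
    show (if k = a then (1 : F) else 0) = _
    by_cases hak : a = k
    · rw [if_pos hak, if_pos hak.symm]
    · rw [if_neg hak, if_neg (fun h => hak h.symm)]

end Pool.Agent.W5h5.LD
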