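import Mathlib
import Pool.Agent.R89.UP.Red

/-!
# Polynomial lemmas
-/

set_option autoImplicit false

namespace Pool.Agent.W5h5.LD

open Polynomial Pool.Agent.H33R4 Pool.Agent.R89.UP

/-- if every prime factor of `f` divides `z` then `f` divides `f' z` and a power of `z` -/
theorem dvd_of_factors {F : Type} [Field F] (f : F[X]) (hf : f ≠ 0) (z : F[X])
    (h : ∀ q : F[X], Prime q → q ∣ f → q ∣ z) :
    f ∣ derivative f * z ∧ f ∣ z ^ f.natDegree := by
  induction f using UniqueFactorizationMonoid.induction_on_prime with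
  | h₁ => exact absurd rfl hf
  | h₂ x hx => exact ⟨hx.dvd, hx.dvd⟩
  | h₃ a q ha hq ih =>
    have hz : q ∣ z := h q hq (dvd_mul_right _ _)
    obtain ⟨i1, i2⟩ := ih ha (fun q' hq' hd => h q' hq' (Dvd.dvd.mul_left hd _))
    obtain ⟨w, hw⟩ := hz
    constructor
    · obtain ⟨v, hv⟩ := i1
      rw [derivative_mul]
      refine ⟨derivative q * w + v, ?_⟩
      linear_combination (derivative q * a) * hw + q * hv
    · have hd : (q * a).natDegree = q.natDegree + a.natDegree :=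
        natDegree_mul hq.ne_zero ha
      have hq1 : 1 ≤ q.natDegree := by
        by_contra h0
        apply hq.not_isUnit
        have h1 : q.natDegree = 0 := by omega
        rw [Polynomial.isUnit_iff_degree_eq_zero, degree_eq_natDegree hq.ne_zero, h1]
        rfl
      rw [hd, pow_add]
      refine mul_dvd_mul ?_ i2
      exact (Dvd.intro _ hw.symm).trans (dvd_pow_self z (by omega))

theorem dvd_of_nilp {F : Type} [Field F] (f : F[X]) (hf : f ≠ 0) (z : F[X]) (k : ℕ)
    (h : f ∣ z ^ k) : f ∣ derivative f * z ∧ f ∣ z ^ f.natDegree :=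
  dvd_of_factors f hf z fun _ hq hd => hq.dvd_of_dvd_pow (hd.trans h)

variable {p : ℕ} [hp : Fact p.Prime]

/-- divisibility by `p` in `ℤ[Y] / g` -/
theorem dvd_mk_iff (g P : ℤ[X]) :
    (p : AdjoinRoot g) ∣ AdjoinRoot.mk g P ↔
      g.map (Int.castRingHom (ZMod p)) ∣ P.map (Int.castRingHom (ZMod p)) := by
  constructor
  · rintro ⟨x, hx⟩
    obtain ⟨Q, rfl⟩ := AdjoinRoot.mk_surjective x
    have h1 : AdjoinRoot.mk g (P - C (p : ℤ) * Q) = 0 := by
      rw [map_sub, hx, map_mul, sub_eq_zero]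
      congr 1
    rw [AdjoinRoot.mk_eq_zero] at h1
    obtain ⟨h, hh⟩ := h1
    have h2 := congrArg (Polynomial.map (Int.castRingHom (ZMod p))) hh
    rw [Polynomial.map_sub, Polynomial.map_mul, Polynomial.map_C, Polynomial.map_mul] at h2
    have h3 : (Int.castRingHom (ZMod p)) (p : ℤ) = 0 := by simp
    rw [h3, map_zero, zero_mul, sub_zero] at h2
    exact ⟨_, h2⟩
  · rintro ⟨x, hx⟩
    obtain ⟨Q, rfl⟩ := Polynomial.map_surjective (Int.castRingHom (ZMod p))
      (ZMod.intCast_surjective) x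
    have h1 : (P - g * Q).map (Int.castRingHom (ZMod p)) = 0 := by
      rw [Polynomial.map_sub, Polynomial.map_mul, hx, sub_self]
    have h2 : C (p : ℤ) ∣ P - g * Q := by
      rw [Polynomial.C_dvd_iff_dvd_coeff]
      intro i
      have h3 := congrArg (fun q => q.coeff i) h1
      simp only [coeff_map, coeff_zero] at h3
      rw [← ZMod.intCast_zmod_eq_zero_iff_dvd]
      exact h3
    obtain ⟨R, hR⟩ := h2
    refine ⟨AdjoinRoot.mk g R, ?_⟩
    have h4 : P = g * Q + C (p : ℤ) * R := by rw [← hR]; ring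
    rw [h4, map_add, map_mul, AdjoinRoot.mk_self, zero_mul, zero_add, map_mul]
    congr 1

/-- `ℤ[Y] / g` has no torsion for monic `g` -/
theorem adj_tf (g : ℤ[X]) (hg : g.Monic) (b : AdjoinRoot g) (h : (p : AdjoinRoot g) * b = 0) :
    b = 0 := by
  obtain ⟨P, rfl⟩ := AdjoinRoot.mk_surjective b
  have hp0 : (p : ℤ) ≠ 0 := by exact_mod_cast hp.out.ne_zero
  have e : P = (P %ₘ g) + g * (P /ₘ g) := (Polynomial.modByMonic_add_div P g).symm
  have e1 : AdjoinRoot.mk g P = AdjoinRoot.mk g (P %ₘ g) := by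
    conv_lhs => rw [e]
    rw [map_add, map_mul, AdjoinRoot.mk_self, zero_mul, add_zero]
  rw [e1] at h ⊢
  have h1 : AdjoinRoot.mk g (C (p : ℤ) * (P %ₘ g)) = 0 := by
    rw [map_mul, ← h]
    congr 1
  rw [AdjoinRoot.mk_eq_zero, ← Polynomial.modByMonic_eq_zero_iff_dvd hg, ← smul_eq_C_mul,
    Polynomial.smul_modByMonic] at h1
  have h2 : (P %ₘ g) %ₘ g = P %ₘ g := by
    nontriviality ℤ[X]
    rw [Polynomial.modByMonic_eq_self_iff hg]
    exact degree_modByMonic_lt _ hg
  rw [h2, smul_eq_zero] at h1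
  rcases h1 with h1 | h1
  · exact absurd h1 hp0
  · rw [h1, map_zero]

theorem adj_tf_pow (g : ℤ[X]) (hg : g.Monic) (N : ℕ) (b : AdjoinRoot g)
    (h : (p : AdjoinRoot g) ^ N * b = 0) : b = 0 := by
  induction N with
  | zero => simpa using h
  | succ N ih =>
    apply ih
    apply adj_tf (p := p) g hg
    rw [← h]; ring

/-- a polynomial in `T, Y` which vanishes at `T = t` -/
theorem dvd_of_spec_eq_zero (t : ℤ) (P : ℤ[X][X]) (h : spec (t : ℤ) P = 0) :
    C (X - C t) ∣ P := by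
  rw [Polynomial.C_dvd_iff_dvd_coeff]
  intro i
  rw [Polynomial.dvd_iff_isRoot, IsRoot.def]
  have h1 := congrArg (fun q => q.coeff i) h
  have h2 := spec_coeff (A := ℤ) t P i
  simp only [coeff_zero] at h1
  simp only [Int.cast_id] at h2
  rw [← h2]
  exact h1

/-- the polynomials in `Y` as polynomials in `T, Y` -/
theorem spec_mapC (t : ℤ) (Q : ℤ[X]) : spec (t : ℤ) (Q.map (C : ℤ →+* ℤ[X])) = Q := by
  unfold spec
  rw [Polynomial.map_map]
  have : (eval₂RingHom (Int.castRingHom ℤ) t).comp (C : ℤ →+* ℤ[X]) = RingHom.id ℤ := by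
    apply RingHom.ext
    intro a
    simp
  rw [this, Polynomial.map_id]

omit hp in
/-- the relation at `T = t` as an identity in `ℤ[T, Y]` -/
theorem rel_lift (f P : ℤ[X][X]) (t : ℤ) (N : ℕ)
    (h : (p : AdjoinRoot (spec (t : ℤ) f)) ^ N ∣ AdjoinRoot.mk (spec (t : ℤ) f) (spec (t : ℤ) P) - 1) :
    ∃ β γ η : ℤ[X][X], P = 1 + C (X - C t) * β + C (C ((p : ℤ) ^ N)) * γ + f * η := by
  obtain ⟨x, hx⟩ := h
  obtain ⟨G, rfl⟩ := AdjoinRoot.mk_surjective x
  have h1 : AdjoinRoot.mk (spec (t : ℤ) f) (spec (t : ℤ) P - 1 - C ((p : ℤ) ^ N) * G) = 0 := by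
    rw [map_sub, map_sub, map_one, hx, map_mul, sub_eq_zero]
    congr 1
    simp
  rw [AdjoinRoot.mk_eq_zero] at h1
  obtain ⟨H, hH⟩ := h1
  have h2 : spec (t : ℤ) (P - 1 - C (C ((p : ℤ) ^ N)) * G.map C - f * H.map C) = 0 := by
    rw [spec_sub, spec_sub, spec_sub, spec_one, spec_mul, spec_mul, spec_mapC, spec_mapC, ← hH]
    have : spec (t : ℤ) (C (C ((p : ℤ) ^ N))) = C ((p : ℤ) ^ N) := by
      unfold spec
      rw [Polynomial.map_C]
      simp
    rw [this]
    ring
  obtain ⟨β, hβ⟩ := dvd_of_spec_eq_zero t _ h2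
  refine ⟨β, G.map C, H.map C, ?_⟩
  rw [← hβ]
  ring

end Pool.Agent.W5h5.LD
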