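import Mathlib

/-!
# Powers of elements which are nilpotent modulo `p`
-/

set_option autoImplicit false

namespace Pool.Agent.W5h5.LD

open Finset

variable {B : Type} [CommRing B] {p : ℕ}

/-- the binomial expansion of `(1 + z) ^ p` -/
theorem one_add_pow (hp : p.Prime) (z : B) :
    ∃ g : B, (1 + z) ^ p = 1 + p * z * (1 + z * g) + z ^ p := by
  have h := add_pow_prime_eq hp (1 : B) z
  have h1 : ∃ g : B, ∑ k ∈ Finset.Ioo 0 p, (1 : B) ^ (k - 1) * z ^ (p - k - 1) *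
      ((p.choose k / p : ℕ) : B) = 1 + z * g := by
    have hp2 := hp.two_le
    have hmem : p - 1 ∈ Finset.Ioo 0 p := by
      rw [Finset.mem_Ioo]; omega
    rw [← Finset.add_sum_erase _ _ hmem]
    have e1 : (1 : B) ^ (p - 1 - 1) * z ^ (p - (p - 1) - 1) * ((p.choose (p - 1) / p : ℕ) : B) = 1 := by
      have h2 : p - (p - 1) - 1 = 0 := by omega
      have h3 : p.choose (p - 1) = p := by
        have := Nat.choose_symm (n := p) (k := 1) (by omega)
        rw [this, Nat.choose_one_right]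
      rw [h2, h3, Nat.div_self hp.pos]
      simp
    rw [e1]
    have h4 : z ∣ ∑ k ∈ (Finset.Ioo 0 p).erase (p - 1), (1 : B) ^ (k - 1) * z ^ (p - k - 1) *
      ((p.choose k / p : ℕ) : B) := by
      refine Finset.dvd_sum fun k hk => ?_
      rw [Finset.mem_erase, Finset.mem_Ioo] at hk
      refine Dvd.dvd.mul_right (Dvd.dvd.mul_left ?_ _) _
      exact dvd_pow_self z (by omega)
    obtain ⟨g, hg⟩ := h4
    exact ⟨g, by rw [hg]⟩
  obtain ⟨g, hg⟩ := h1
  refine ⟨g, ?_⟩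
  rw [h, hg]
  ring

theorem one_add_pow' (hp : p.Prime) {n : ℕ} (hn : n + 2 ≤ p) (z : B) (hz : (p : B) ∣ z ^ n) :
    ∃ h : B, (1 + z) ^ p = 1 + p * z * (1 + z * h) := by
  obtain ⟨g, hg⟩ := one_add_pow hp z
  obtain ⟨q, hq⟩ := hz
  refine ⟨g + q * z ^ (p - 2 - n), ?_⟩
  have e : z ^ p = z ^ n * z ^ (p - 2 - n) * z ^ 2 := by
    rw [← pow_add, ← pow_add]
    congr 1
    omega
  rw [hg, e, hq]
  ring

/-- `1 + z h` is invertible modulo the powers of `p` -/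
theorem exists_inv {n : ℕ} (z h : B) (hz : (p : B) ∣ z ^ n) (k : ℕ) :
    ∃ v : B, (p : B) ^ k ∣ (1 + z * h) * v - 1 := by
  refine ⟨∑ i ∈ Finset.range (n * k), (-(z * h)) ^ i, ?_⟩
  have h1 := mul_neg_geom_sum (-(z * h)) (n * k)
  rw [sub_neg_eq_add] at h1
  rw [h1, sub_sub_cancel_left, dvd_neg]
  have h2 : (-(z * h)) ^ (n * k) = (z ^ n) ^ k * (-h) ^ (n * k) := by
    rw [← pow_mul, ← mul_pow]
    congr 1
    ring
  rw [h2]
  exact Dvd.dvd.mul_right (pow_dvd_pow_of_dvd hz k) _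

theorem pow_p_inj (hp : p.Prime) (tf : ∀ b : B, (p : B) * b = 0 → b = 0) {n : ℕ} (hn : n + 2 ≤ p)
    (z : B) (hz : (p : B) ∣ z ^ n) (k : ℕ) (h : (p : B) ^ (k + 1) ∣ (1 + z) ^ p - 1) :
    (p : B) ^ k ∣ z := by
  obtain ⟨g, hg⟩ := one_add_pow' hp hn z hz
  obtain ⟨y, hy⟩ := h
  rw [hg] at hy
  have h1 : z * (1 + z * g) = (p : B) ^ k * y := by
    have h2 : (p : B) * (z * (1 + z * g) - (p : B) ^ k * y) = 0 := by
      rw [pow_succ] at hy
      linear_combination hy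
    exact sub_eq_zero.1 (tf _ h2)
  obtain ⟨v, w, hv⟩ := exists_inv (p := p) z g hz k
  refine ⟨y * v - z * w, ?_⟩
  linear_combination v * h1 - z * hv

theorem pow_p_inj' (hp : p.Prime) (tf : ∀ b : B, (p : B) * b = 0 → b = 0) {n : ℕ} (hn : n + 2 ≤ p)
    (a : ℕ) : ∀ (x : B), (p : B) ∣ (x - 1) ^ n → ∀ k : ℕ,
    (p : B) ^ (k + a) ∣ x ^ (p ^ a) - 1 → (p : B) ^ k ∣ x - 1 := by
  induction a with
  | zero => intro x _ k h; simpa using h
  | succ a ih =>
    intro x hx k h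
    apply ih x hx k
    have hd : (x - 1) ∣ x ^ (p ^ a) - 1 := sub_one_dvd_pow_sub_one x _
    have h1 : (p : B) ∣ (x ^ (p ^ a) - 1) ^ n := hx.trans (pow_dvd_pow_of_dvd hd n)
    apply pow_p_inj hp tf hn _ h1 (k + a)
    rw [add_sub_cancel, ← pow_mul, ← pow_succ]
    exact h

/-- the `p`-th power of `1 + ν` modulo `p²` -/
theorem pow_p_sq (hp : p.Prime) {n : ℕ} (hn : 2 * n ≤ p) (ν : B) (hν : (p : B) ∣ ν ^ n) :
    ∃ g h : B, (1 + ν) ^ p = 1 + p * (ν * g) + (p : B) ^ 2 * h := by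
  obtain ⟨g, hg⟩ := one_add_pow hp ν
  obtain ⟨q, hq⟩ := hν
  refine ⟨1 + ν * g, q ^ 2 * ν ^ (p - 2 * n), ?_⟩
  have e : ν ^ p = (ν ^ n) ^ 2 * ν ^ (p - 2 * n) := by
    rw [← pow_mul, ← pow_add]
    congr 1
    omega
  rw [hg, e, hq]
  ring

/-- a product of elements congruent to one modulo `p` -/
theorem prod_one_add {ι : Type} (s : Finset ι) (a : ι → B) (lam : ι → ℕ) :
    ∃ c : B, ∏ j ∈ s, (1 + (p : B) * a j) ^ lam j =
      1 + p * ∑ j ∈ s, (lam j : B) * a j + (p : B) ^ 2 * c := by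
  classical
  have h1 : ∀ (x : B) (m : ℕ), ∃ c : B, (1 + (p : B) * x) ^ m = 1 + p * (m * x) + (p : B) ^ 2 * c := by
    intro x m
    induction m with
    | zero => exact ⟨0, by simp⟩
    | succ m ih =>
      obtain ⟨c, hc⟩ := ih
      refine ⟨c + m * x ^ 2 + p * c * x, ?_⟩
      rw [pow_succ, hc]
      push_cast
      ring
  induction s using Finset.induction_on with
  | empty => exact ⟨0, by simp⟩
  | insert j s hj ih =>
    obtain ⟨c, hc⟩ := ih
    obtain ⟨c', hc'⟩ := h1 (a j) (lam j)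
    rw [Finset.prod_insert hj, Finset.sum_insert hj, hc, hc']
    refine ⟨c + c' + (lam j * a j) * (∑ j ∈ s, (lam j : B) * a j) + p * (lam j * a j) * c +
      p * c' * (∑ j ∈ s, (lam j : B) * a j) + p ^ 2 * c * c', ?_⟩
    ring

end Pool.Agent.W5h5.LD
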