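import Mathlib
import Pool.Agent.W5h5.LD.Ring
import Pool.Agent.W5h5.LD.Poly
import Pool.Agent.H33R4.PB2

/-!
# The classes modulo `p²` which contain exceptional integers, in a class modulo `p`
-/

set_option autoImplicit false

namespace Pool.Agent.W5h5.LD

open Polynomial Pool.Agent.H33R4 Pool.Agent.R89.UP

variable {p : ℕ} [hp : Fact p.Prime]

/-- `P(t₀, Y)` in `R[Y] / f(t₀, Y)` -/
noncomputable def sg {A : Type} [CommRing A] (x : A) (f : ℤ[X][X]) :
    ℤ[X][X] →+* AdjoinRoot (spec x f) :=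
  (AdjoinRoot.mk (spec x f)).comp
    (Polynomial.mapRingHom (Polynomial.eval₂RingHom (Int.castRingHom A) x))

theorem sg_apply {A : Type} [CommRing A] (x : A) (f P : ℤ[X][X]) :
    sg x f P = AdjoinRoot.mk (spec x f) (spec x P) := rfl

theorem sg_self {A : Type} [CommRing A] (x : A) (f : ℤ[X][X]) : sg x f f = 0 := by
  rw [sg_apply, AdjoinRoot.mk_self]

theorem sg_CC {A : Type} [CommRing A] (x : A) (f : ℤ[X][X]) (z : ℤ) :
    sg x f (C (C z)) = (z : AdjoinRoot (spec x f)) := by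
  rw [sg_apply]
  unfold spec
  rw [Polynomial.map_C, AdjoinRoot.mk_C]
  simp

theorem sg_CX {A : Type} [CommRing A] (x : A) (f : ℤ[X][X]) :
    sg x f (C X) = AdjoinRoot.of (spec x f) x := by
  rw [sg_apply]
  unfold spec
  rw [Polynomial.map_C, AdjoinRoot.mk_C]
  simp

theorem sg_der {A : Type} [CommRing A] (x : A) (f : ℤ[X][X]) :
    sg x f (derivative f) = AdjoinRoot.mk (spec x f) (derivative (spec x f)) := by
  rw [sg_apply, spec_derivative]

/-- the reduction map `ℤ[Y] / f(t, Y) → 𝔽_p[Y] / f(t₀, Y)` -/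
noncomputable def rd (p : ℕ) [Fact p.Prime] (t : ℤ) (f : ℤ[X][X]) :
    AdjoinRoot (spec (t : ℤ) f) →+* AdjoinRoot (spec ((t : ℤ) : ZMod p) f) :=
  AdjoinRoot.map (Int.castRingHom (ZMod p)) _ _ (by
    rw [spec_map]; exact dvd_of_eq rfl)

theorem rd_sg (t : ℤ) (f P : ℤ[X][X]) : rd p t f (sg (t : ℤ) f P) = sg ((t : ℤ) : ZMod p) f P := by
  rw [sg_apply, sg_apply]
  unfold rd
  rw [adj_map_mk, spec_map]
  rfl

theorem rd_p (t : ℤ) (f : ℤ[X][X]) : rd p t f (p : AdjoinRoot (spec (t : ℤ) f)) = 0 := by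
  rw [map_natCast]
  have : ((p : ℕ) : AdjoinRoot (spec ((t : ℤ) : ZMod p) f)) =
      AdjoinRoot.of _ ((p : ℕ) : ZMod p) := by rw [map_natCast]
  rw [this, ZMod.natCast_self, map_zero]

theorem sg_surj (t : ℤ) (f : ℤ[X][X]) : Function.Surjective (sg (t : ℤ) f) := by
  intro x
  obtain ⟨P, rfl⟩ := AdjoinRoot.mk_surjective x
  refine ⟨P.map C, ?_⟩
  rw [sg_apply, spec_mapC]

/-- an element whose reduction is zero is divisible by `p` -/
theorem dvd_of_rd (t : ℤ) (f : ℤ[X][X]) (x : AdjoinRoot (spec (t : ℤ) f)) (h : rd p t f x = 0) :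
    (p : AdjoinRoot (spec (t : ℤ) f)) ∣ x := by
  obtain ⟨P, rfl⟩ := AdjoinRoot.mk_surjective x
  unfold rd at h
  rw [adj_map_mk, AdjoinRoot.mk_eq_zero] at h
  rw [dvd_mk_iff, spec_map]
  exact h

section J

variable (f : ℤ[X][X]) (x : ZMod p)

omit hp in
theorem J_mul (P Q : ℤ[X][X]) : sg x f (jac f (P * Q)) =
    sg x f P * sg x f (jac f Q) + sg x f Q * sg x f (jac f P) := by
  rw [jac_mul, map_add, map_mul, map_mul]

omit hp in
theorem J_pow (U W : ℤ[X][X]) (huw : f ∣ U * W - 1) (e : ℕ) :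
    sg x f (jac f (U ^ e)) = sg x f (U ^ e) * (e * sg x f (jac f U * W)) := by
  have h1 : sg x f U * sg x f W = 1 := by
    obtain ⟨g, hg⟩ := huw
    have h2 : U * W = f * g + 1 := by rw [← hg]; ring
    rw [← map_mul, h2, map_add, map_mul, sg_self, zero_mul, zero_add, map_one]
  induction e with
  | zero =>
    rw [pow_zero]
    have : jac f 1 = 0 := by
      have := jac_C_C f 1
      simpa using this
    rw [this, map_zero]
    simp
  | succ e ih =>
    rw [pow_succ, J_mul, ih, map_mul, map_mul, map_pow]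
    push_cast
    linear_combination (-(sg x f U ^ e * sg x f (jac f U))) * h1

theorem J_prod {r : ℕ} (U W : Fin r → ℤ[X][X]) (huw : ∀ i, f ∣ U i * W i - 1) (e : Fin r → ℕ)
    (s : Finset (Fin r)) :
    sg x f (jac f (∏ i ∈ s, U i ^ e i)) =
      sg x f (∏ i ∈ s, U i ^ e i) * ∑ i ∈ s, (e i : AdjoinRoot (spec x f)) * sg x f (jac f (U i) * W i) := by
  classical
  induction s using Finset.induction_on with
  | empty =>
    have : jac f 1 = 0 := by
      have := jac_C_C f 1
      simpa using this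
    simp [this]
  | insert i s hi ih =>
    rw [Finset.prod_insert hi, Finset.sum_insert hi, J_mul, ih, J_pow f x (U i) (W i) (huw i),
      map_mul (sg x f) (U i ^ e i), map_mul (sg x f) (jac f (U i))]
    ring

omit hp in
theorem J_C (h : ℤ[X]) : sg x f (jac f (C h)) = sg x f (C (derivative h)) * sg x f (derivative f) := by
  unfold jac
  rw [dT_C, derivative_C, zero_mul, sub_zero, map_mul]

end J

variable (f : ℤ[X][X]) (t₀ : ℤ) {r : ℕ} (U W : Fin r → ℤ[X][X])

/-- the product of the units with the exponents `M m` -/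
noncomputable def PP (M : ℕ) (m : Fin r → ℕ) : ℤ[X][X] := ∏ i, U i ^ (M * m i)

theorem sg_PP (M : ℕ) (m : Fin r → ℕ) (huw : ∀ i, f ∣ U i * W i - 1) (β γ η : ℤ[X][X]) (t : ℤ)
    (ht : (p : ℤ) ∣ t - t₀)
    (h : PP U M m = 1 + C (X - C t) * β + C (C ((p : ℤ) ^ 2)) * γ + f * η) :
    sg ((t₀ : ℤ) : ZMod p) f β * sg ((t₀ : ℤ) : ZMod p) f (derivative f) =
      ∑ i, ((M * m i : ℕ) : AdjoinRoot (spec ((t₀ : ℤ) : ZMod p) f)) *
        sg ((t₀ : ℤ) : ZMod p) f (jac f (U i) * W i) := by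
  set x : ZMod p := ((t₀ : ℤ) : ZMod p) with hx
  have e1 := J_prod f x U W huw (fun i => M * m i) Finset.univ
  have hXt : sg x f (C (X - C t)) = 0 := by
    rw [map_sub C, map_sub, sg_CX, sg_CC]
    have h1 : ((t : ℤ) : ZMod p) = x := by
      rw [hx, ← sub_eq_zero, ← Int.cast_sub, ZMod.intCast_zmod_eq_zero_iff_dvd]
      exact ht
    rw [← h1, map_intCast, sub_self]
  have hpp : sg x f (C (C ((p : ℤ) ^ 2))) = 0 := by
    rw [sg_CC]
    have : (((p : ℤ) ^ 2 : ℤ) : AdjoinRoot (spec x f)) =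
        AdjoinRoot.of _ ((((p : ℤ) ^ 2 : ℤ)) : ZMod p) := by rw [map_intCast]
    rw [this]
    push_cast
    rw [ZMod.natCast_self]
    simp
  have e2 : sg x f (PP U M m) = 1 := by
    rw [h, map_add, map_add, map_add, map_mul, map_mul, map_mul, hXt, hpp, sg_self, map_one]
    ring
  have e3 : sg x f (jac f (PP U M m)) = sg x f β * sg x f (derivative f) := by
    rw [h, jac_add, jac_add, jac_add, map_add, map_add, map_add, J_mul, J_mul, J_mul, hXt, hpp,
      sg_self, jac_self, map_zero]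
    have h1 : jac f 1 = 0 := by
      have := jac_C_C f 1
      simpa using this
    rw [h1, map_zero, jac_C_C, map_zero, J_C]
    rw [derivative_sub, derivative_X, derivative_C, sub_zero, map_one, map_one]
    ring
  unfold PP at e2 e3
  rw [← e3, e1, e2, one_mul]

/-- the exponent `M` -/
theorem exists_exp' (f0 : (ZMod p)[X]) (hf0 : f0.Monic) (hn : 0 < f0.natDegree) :
    ∃ M b : ℕ, ¬ p ∣ M ∧ ∀ u w : AdjoinRoot f0, u * w = 1 → (u ^ M - 1) ^ (p ^ b) = 0 := by
  classical
  have _ : Module.Finite (ZMod p) (AdjoinRoot f0) := hf0.finite_adjoinRoot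
  have _ : Finite (AdjoinRoot f0) := Module.finite_of_finite (ZMod p)
  have _ : Finite (AdjoinRoot f0)ˣ := inferInstance
  have hnt : Nontrivial (AdjoinRoot f0) := by
    apply AdjoinRoot.nontrivial
    intro h0
    rw [degree_eq_natDegree hf0.ne_zero] at h0
    have h1 : f0.natDegree = 0 := by exact_mod_cast h0
    omega
  have hch : CharP (AdjoinRoot f0) p :=
    charP_of_injective_algebraMap (algebraMap (ZMod p) (AdjoinRoot f0)).injective p
  obtain ⟨b, M, hM, hNM⟩ := Nat.exists_eq_pow_mul_and_not_dvd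
    (n := Nat.card (AdjoinRoot f0)ˣ) Nat.card_pos.ne' p hp.out.ne_one
  refine ⟨M, b, hM, ?_⟩
  intro u w huw
  let V : (AdjoinRoot f0)ˣ := ⟨u, w, huw, by rw [mul_comm]; exact huw⟩
  have hV : V ^ Nat.card (AdjoinRoot f0)ˣ = 1 := pow_card_eq_one'
  have h1 := congrArg Units.val hV
  rw [Units.val_pow_eq_pow_val, Units.val_one, hNM, mul_comm, pow_mul] at h1
  rw [sub_pow_char_pow, one_pow]
  exact sub_eq_zero.2 h1

end Pool.Agent.W5h5.LD
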