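import Mathlib
import Pool.Agent.W5h5.LD.Key

/-!
# The number of classes modulo `p²` which contain exceptional integers
-/

set_option autoImplicit false

namespace Pool.Agent.W5h5.LD

open Polynomial Pool.Agent.H33R4 Pool.Agent.R89.UP

variable {p : ℕ} [hp : Fact p.Prime]

theorem sg_unit {A : Type} [CommRing A] (x : A) (f U W : ℤ[X][X]) (huw : f ∣ U * W - 1) :
    sg x f U * sg x f W = 1 := by
  obtain ⟨g, hg⟩ := huw
  have h2 : U * W = f * g + 1 := by rw [← hg]; ring
  rw [← map_mul, h2, map_add, map_mul, sg_self, zero_mul, zero_add, map_one]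

theorem PP_eq {r : ℕ} (U : Fin r → ℤ[X][X]) (M : ℕ) (m : Fin r → ℕ) :
    PP U M m = (∏ i, U i ^ m i) ^ M := by
  unfold PP
  rw [← Finset.prod_pow]
  refine Finset.prod_congr rfl fun i _ => ?_
  rw [← pow_mul, mul_comm]

theorem nilp (f : ℤ[X][X]) (hf : f.Monic) (t₀ : ℤ) (M b : ℕ)
    (hMb : ∀ u w : AdjoinRoot (spec ((t₀ : ℤ) : ZMod p) f), u * w = 1 → (u ^ M - 1) ^ (p ^ b) = 0)
    (P Q : ℤ[X][X]) (h : sg ((t₀ : ℤ) : ZMod p) f P * sg ((t₀ : ℤ) : ZMod p) f Q = 1) :
    (sg ((t₀ : ℤ) : ZMod p) f P ^ M - 1) ^ f.natDegree = 0 ∧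
    sg ((t₀ : ℤ) : ZMod p) f (derivative f) * (sg ((t₀ : ℤ) : ZMod p) f P ^ M - 1) = 0 := by
  set x : ZMod p := ((t₀ : ℤ) : ZMod p) with hx
  set f0 := spec x f with hf0
  have hm : f0.Monic := spec_monic _ hf
  have hd : f0.natDegree = f.natDegree := hf.natDegree_map _
  have h1 := hMb _ _ h
  have e : sg x f P ^ M - 1 = AdjoinRoot.mk f0 (spec x P ^ M - 1) := by
    rw [sg_apply, map_sub, map_pow, map_one]
  rw [e, ← map_pow, AdjoinRoot.mk_eq_zero] at h1
  obtain ⟨h2, h3⟩ := dvd_of_nilp f0 hm.ne_zero _ _ h1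
  rw [hd] at h3
  rw [e, sg_der, ← map_pow, ← map_mul]
  exact ⟨AdjoinRoot.mk_eq_zero.2 h3, AdjoinRoot.mk_eq_zero.2 h2⟩

section key

variable (f : ℤ[X][X]) (hf : f.Monic) (t₀ : ℤ) {r : ℕ} (U W : Fin r → ℤ[X][X])
  (huw : ∀ i, f ∣ U i * W i - 1) (M b : ℕ) (hMp : ¬ p ∣ M)
  (hMb : ∀ u w : AdjoinRoot (spec ((t₀ : ℤ) : ZMod p) f), u * w = 1 → (u ^ M - 1) ^ (p ^ b) = 0)
  (hgood : ∀ c : Fin r → ZMod p, ∑ i, AdjoinRoot.of (spec ((t₀ : ℤ) : ZMod p) f) (c i) *
    sg ((t₀ : ℤ) : ZMod p) f (jac f (U i) * W i) = 0 → c = 0)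
  (hn2 : 2 * f.natDegree ≤ p)

include hf huw hMp hMb hgood hn2 in
theorem key_lemma {J : Type} (S : Finset J) (m : J → Fin r → ℕ) (s : J → ℤ)
    (hrel : ∀ j, (p : AdjoinRoot (spec (t₀ + p * s j : ℤ) f)) ^ 2 ∣
      AdjoinRoot.mk (spec (t₀ + p * s j : ℤ) f) (spec (t₀ + p * s j : ℤ) (PP U M (m j))) - 1)
    (lam : J → ℕ) (m₀ : Fin r → ℕ) (hlam : ∀ i, ∑ j ∈ S, lam j * m j i = p * m₀ i) (i : Fin r) :
    (p : ℤ) ∣ ∑ j ∈ S, (lam j : ℤ) * s j * m j i := by
  classical
  choose β γ η hP using fun j => rel_lift f (PP U M (m j)) (t₀ + p * s j) 2 (hrel j)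
  set x : ZMod p := ((t₀ : ℤ) : ZMod p) with hx
  -- reduction at `t₀`
  let a : J → AdjoinRoot (spec (t₀ : ℤ) f) := fun j =>
    -((s j : ℤ) : AdjoinRoot (spec (t₀ : ℤ) f)) * sg (t₀ : ℤ) f (β j) + p * sg (t₀ : ℤ) f (γ j)
  have hPa : ∀ j, sg (t₀ : ℤ) f (PP U M (m j)) = 1 + p * a j := by
    intro j
    rw [hP j]
    rw [map_add, map_add, map_add, map_mul, map_mul, map_mul, sg_self, map_one, sg_CC, map_sub C,
      map_sub, sg_CX, sg_CC]
    simp only [a, eq_intCast]
    push_cast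
    ring
  have hprod : ∏ j ∈ S, PP U M (m j) ^ lam j = PP U M m₀ ^ p := by
    unfold PP
    rw [← Finset.prod_pow]
    have e1 : ∀ j ∈ S, (∏ i, U i ^ (M * m j i)) ^ lam j = ∏ i, U i ^ (M * m j i * lam j) := by
      intro j _
      rw [← Finset.prod_pow]
      exact Finset.prod_congr rfl fun i _ => (pow_mul _ _ _).symm
    rw [Finset.prod_congr rfl e1, Finset.prod_comm]
    refine Finset.prod_congr rfl fun i _ => ?_
    rw [Finset.prod_pow_eq_pow_sum, ← pow_mul]
    congr 1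
    have := hlam i
    calc ∑ j ∈ S, M * m j i * lam j = M * ∑ j ∈ S, lam j * m j i := by
          rw [Finset.mul_sum]
          exact Finset.sum_congr rfl fun j _ => by ring
      _ = M * m₀ i * p := by rw [this]; ring
  obtain ⟨c, hc⟩ := prod_one_add (p := p) S a lam
  set w := sg (t₀ : ℤ) f (PP U M m₀) with hw
  have hnil := nilp f hf t₀ M b hMb (∏ i, U i ^ m₀ i) (∏ i, W i ^ m₀ i) (by
    rw [map_prod, map_prod, ← Finset.prod_mul_distrib]
    apply Finset.prod_eq_one
    intro i _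
    rw [map_pow, map_pow, ← mul_pow, sg_unit _ f (U i) (W i) (huw i), one_pow])
  have hredw : rd p t₀ f (w - 1) = sg x f (∏ i, U i ^ m₀ i) ^ M - 1 := by
    rw [map_sub, map_one, hw, rd_sg, PP_eq, map_pow]
  have hν : (p : AdjoinRoot (spec (t₀ : ℤ) f)) ∣ (w - 1) ^ f.natDegree := by
    apply dvd_of_rd
    rw [map_pow, hredw]
    exact hnil.1
  obtain ⟨g, h, hgh⟩ := pow_p_sq hp.out hn2 (w - 1) hν
  rw [add_sub_cancel] at hgh
  have e1 : ∏ j ∈ S, (1 + (p : AdjoinRoot (spec (t₀ : ℤ) f)) * a j) ^ lam j = w ^ p := by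
    rw [hw, ← map_pow, ← hprod, map_prod]
    exact Finset.prod_congr rfl fun j _ => by rw [map_pow, hPa j]
  rw [hc, hgh] at e1
  have e2 : (∑ j ∈ S, (lam j : AdjoinRoot (spec (t₀ : ℤ) f)) * a j) - (w - 1) * g +
      p * (c - h) = 0 := by
    apply adj_tf (p := p) _ (spec_monic _ hf)
    linear_combination e1
  have e3 := congrArg (rd p t₀ f) e2
  rw [map_add, map_sub, map_mul, map_mul, map_zero, hredw, rd_p, zero_mul, add_zero, map_sum] at e3
  have e4 : ∀ j, rd p t₀ f ((lam j : AdjoinRoot (spec (t₀ : ℤ) f)) * a j) =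
      -((((lam j : ℤ) * s j : ℤ)) : AdjoinRoot (spec x f)) * sg x f (β j) := by
    intro j
    simp only [a]
    rw [map_mul, map_add, map_mul, map_mul, rd_p, rd_sg, rd_sg, map_neg, map_intCast, map_natCast]
    push_cast
    ring
  have e5 : ∑ j ∈ S, ((((lam j : ℤ) * s j : ℤ)) : AdjoinRoot (spec x f)) *
      (sg x f (β j) * sg x f (derivative f)) = 0 := by
    have e6 := congrArg (fun y => y * sg x f (derivative f)) e3
    simp only [zero_mul] at e6
    rw [Finset.sum_congr rfl fun j _ => e4 j, sub_mul, Finset.sum_mul] at e6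
    have e7 : (sg x f (∏ i, U i ^ m₀ i) ^ M - 1) * (rd p t₀ f) g * sg x f (derivative f) = 0 := by
      have := hnil.2
      linear_combination ((rd p t₀ f) g) * this
    rw [e7, sub_zero] at e6
    have e8 : ∑ j ∈ S, ((((lam j : ℤ) * s j : ℤ)) : AdjoinRoot (spec x f)) *
      (sg x f (β j) * sg x f (derivative f)) = - ∑ j ∈ S,
        -((((lam j : ℤ) * s j : ℤ)) : AdjoinRoot (spec x f)) * sg x f (β j) *
          sg x f (derivative f) := by
      rw [← Finset.sum_neg_distrib]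
      exact Finset.sum_congr rfl fun j _ => by ring
    rw [e8, e6, neg_zero]
  have hdvd : ∀ j, (p : ℤ) ∣ (t₀ + p * s j) - t₀ := fun j => ⟨s j, by ring⟩
  have e9 : ∀ j, sg x f (β j) * sg x f (derivative f) =
      ∑ i, ((M * m j i : ℕ) : AdjoinRoot (spec x f)) * sg x f (jac f (U i) * W i) := fun j =>
    sg_PP f t₀ U W M (m j) huw (β j) (γ j) (η j) (t₀ + p * s j) (hdvd j) (hP j)
  have e10 := hgood (fun i => ((((M : ℤ) * ∑ j ∈ S, (lam j : ℤ) * s j * m j i : ℤ)) : ZMod p)) (by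
    rw [← e5]
    have e12 : ∀ j ∈ S, ((((lam j : ℤ) * s j : ℤ)) : AdjoinRoot (spec x f)) *
        (sg x f (β j) * sg x f (derivative f)) = ∑ i, ((((lam j : ℤ) * s j : ℤ)) :
          AdjoinRoot (spec x f)) * (((M * m j i : ℕ) : AdjoinRoot (spec x f)) *
            sg x f (jac f (U i) * W i)) := fun j _ => by rw [e9 j, Finset.mul_sum]
    rw [Finset.sum_congr rfl e12, Finset.sum_comm]
    refine Finset.sum_congr rfl fun i _ => ?_
    rw [map_intCast]
    push_cast
    rw [Finset.mul_sum, Finset.sum_mul]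
    exact Finset.sum_congr rfl fun j _ => by ring)
  have e11 := congrFun e10 i
  simp only [Pi.zero_apply] at e11
  rw [ZMod.intCast_zmod_eq_zero_iff_dvd] at e11
  have hpr : Prime (p : ℤ) := Nat.prime_iff_prime_int.1 hp.out
  rcases hpr.dvd_or_dvd e11 with h1 | h1
  · exact absurd (by exact_mod_cast h1) hMp
  · exact h1

include hf huw hMp hMb hgood hn2 in
/-- at most `r` classes modulo `p²` -/
theorem count_classes (Q : ℤ → Prop)
    (hQ : ∀ t, (p : ℤ) ∣ t - t₀ → Q t → ∃ m : Fin r → ℕ, (∃ i, ¬ p ∣ m i) ∧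
      (p : AdjoinRoot (spec (t : ℤ) f)) ^ 2 ∣
        AdjoinRoot.mk (spec (t : ℤ) f) (spec (t : ℤ) (PP U M m)) - 1) :
    ∃ S : Finset ℕ, S.card ≤ r ∧ ∀ t, (p : ℤ) ∣ t - t₀ → Q t →
      ∃ s ∈ S, (p : ℤ) ^ 2 ∣ t - (t₀ + p * (s : ℤ)) := by
  classical
  set S : Finset ℕ := (Finset.range p).filter
    (fun s => ∃ t : ℤ, (p : ℤ) ^ 2 ∣ t - (t₀ + p * (s : ℤ)) ∧ Q t) with hS
  refine ⟨S, ?_, ?_⟩
  · -- relations
    have hrel : ∀ s : {s // s ∈ S}, ∃ (k : ℤ) (m : Fin r → ℕ), (∃ i, ¬ p ∣ m i) ∧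
        (p : AdjoinRoot (spec (t₀ + p * ((s.1 : ℤ) + p * k) : ℤ) f)) ^ 2 ∣
        AdjoinRoot.mk (spec (t₀ + p * ((s.1 : ℤ) + p * k) : ℤ) f)
          (spec (t₀ + p * ((s.1 : ℤ) + p * k) : ℤ) (PP U M m)) - 1 := by
      rintro ⟨s, hs⟩
      rw [hS, Finset.mem_filter] at hs
      obtain ⟨-, t, ⟨k, hk⟩, hQt⟩ := hs
      have ht : t = t₀ + p * ((s : ℤ) + p * k) := by
        rw [pow_two] at hk
        linear_combination hk
      obtain ⟨m, hm1, hm2⟩ := hQ t ⟨(s : ℤ) + p * k, by rw [ht]; ring⟩ hQt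
      subst ht
      exact ⟨k, m, hm1, hm2⟩
    choose k m hm1 hm2 using hrel
    let v : {s // s ∈ S} → (Fin r → ZMod p) := fun s i => (m s i : ZMod p)
    have hv0 : ∀ s, v s ≠ 0 := by
      intro s h0
      obtain ⟨i, hi⟩ := hm1 s
      apply hi
      have := congrFun h0 i
      rwa [Pi.zero_apply, ZMod.natCast_eq_zero_iff] at this
    have hstep : ∀ g : {s // s ∈ S} → ZMod p, (∀ i, ∑ s, g s * v s i = 0) →
        ∀ i, ∑ s, ((s.1 : ZMod p) * g s) * v s i = 0 := by
      intro g hg i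
      have h1 : ∀ i, ∃ m₀ : ℕ, ∑ s, (g s).val * m s i = p * m₀ := by
        intro i
        have h2 : (((∑ s, (g s).val * m s i : ℕ)) : ZMod p) = 0 := by
          push_cast
          rw [← hg i]
          refine Finset.sum_congr rfl fun s _ => ?_
          rw [ZMod.natCast_zmod_val]
        rw [ZMod.natCast_eq_zero_iff] at h2
        obtain ⟨m₀, h3⟩ := h2
        exact ⟨m₀, h3⟩
      choose m₀ hm₀ using h1
      have h4 := key_lemma f hf t₀ U W huw M b hMp hMb hgood hn2 Finset.univ m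
        (fun s => (s.1 : ℤ) + p * k s) hm2 (fun s => (g s).val) m₀ hm₀ i
      rw [← ZMod.intCast_zmod_eq_zero_iff_dvd] at h4
      push_cast at h4
      rw [← h4]
      refine Finset.sum_congr rfl fun s _ => ?_
      rw [ZMod.natCast_zmod_val, ZMod.natCast_self]
      simp only [v]
      ring
    have hli : LinearIndependent (ZMod p) v := by
      rw [Fintype.linearIndependent_iff]
      intro g hg s₀
      have hg' : ∀ i, ∑ s, g s * v s i = 0 := by
        intro i
        have := congrFun hg i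
        simpa [Finset.sum_apply] using this
      have hT : ∀ T : Finset {s // s ∈ S}, ∀ i,
          ∑ s, ((∏ s' ∈ T, ((s.1 : ZMod p) - (s'.1 : ZMod p))) * g s) * v s i = 0 := by
        intro T
        induction T using Finset.induction_on with
        | empty => intro i; simpa using hg' i
        | insert s' T hs' ih =>
          intro i
          have h1 := hstep _ ih i
          have h2 := ih i
          have h3 : ∀ s : {s // s ∈ S}, ((∏ s'' ∈ insert s' T, ((s.1 : ZMod p) - (s''.1 : ZMod p))) *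
              g s) * v s i = ((s.1 : ZMod p) * ((∏ s'' ∈ T, ((s.1 : ZMod p) - (s''.1 : ZMod p))) *
              g s)) * v s i - (s'.1 : ZMod p) * (((∏ s'' ∈ T, ((s.1 : ZMod p) - (s''.1 : ZMod p))) *
              g s) * v s i) := by
            intro s
            rw [Finset.prod_insert hs']
            ring
          rw [Finset.sum_congr rfl fun s _ => h3 s, Finset.sum_sub_distrib, h1, ← Finset.mul_sum,
            h2, mul_zero, sub_zero]
      obtain ⟨i, hi⟩ := Function.ne_iff.1 (hv0 s₀)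
      have h5 := hT (Finset.univ.erase s₀) i
      rw [Finset.sum_eq_single s₀] at h5
      · rcases mul_eq_zero.1 h5 with h6 | h6
        · rcases mul_eq_zero.1 h6 with h7 | h7
          · exfalso
            rw [Finset.prod_eq_zero_iff] at h7
            obtain ⟨s', hs', h8⟩ := h7
            rw [sub_eq_zero, ZMod.natCast_eq_natCast_iff'] at h8
            have h9 := Finset.mem_range.1 (Finset.mem_filter.1 s₀.2).1
            have h10 := Finset.mem_range.1 (Finset.mem_filter.1 s'.2).1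
            rw [Nat.mod_eq_of_lt h9, Nat.mod_eq_of_lt h10] at h8
            exact (Finset.ne_of_mem_erase hs') (Subtype.ext h8.symm)
          · exact h7
        · exact absurd h6 hi
      · intro s _ hs
        rw [Finset.prod_eq_zero (Finset.mem_erase.2 ⟨hs, Finset.mem_univ s⟩) (sub_self _)]
        ring
      · intro h; exact absurd (Finset.mem_univ _) h
    have h6 := hli.fintype_card_le_finrank
    rw [Module.finrank_fin_fun, Fintype.card_coe] at h6
    exact h6
  · intro t ht hB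
    obtain ⟨m, hm⟩ := ht
    have hppos : (0 : ℤ) < p := by exact_mod_cast hp.out.pos
    set s : ℕ := (m % (p : ℤ)).toNat with hs
    have hs1 : (s : ℤ) = m % p := by
      rw [hs, Int.toNat_of_nonneg (Int.emod_nonneg m hppos.ne')]
    have hs2 : s < p := by
      have := Int.emod_lt_of_pos m hppos
      rw [← hs1] at this
      exact_mod_cast this
    have hdvd : (p : ℤ) ^ 2 ∣ t - (t₀ + p * (s : ℤ)) := by
      have h1 : t - (t₀ + p * (s : ℤ)) = p * (m - m % p) := by
        rw [hs1]; linarith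
      rw [h1, pow_two]
      exact mul_dvd_mul_left _ (Int.dvd_self_sub_emod)
    exact ⟨s, Finset.mem_filter.2 ⟨Finset.mem_range.2 hs2, t, hdvd, hB⟩, hdvd⟩

end key

end Pool.Agent.W5h5.LD
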