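import Mathlib
import Pool.Agent.W5h5.LD.Count

/-!
# Expansions of elements of `ℤ[T, Y]` modulo `f` and the square of the ideal `(p, T - t₀)`
-/

set_option autoImplicit false

namespace Pool.Agent.W5h5.LD

open Polynomial Pool.Agent.H33R4 Pool.Agent.R89.UP

/-- the ideal `(f) + (p, T - t₀)²` -/
noncomputable def BI (p : ℕ) (f : ℤ[X][X]) (t₀ : ℤ) : Ideal ℤ[X][X] :=
  Ideal.span {f, C (C ((p : ℤ) ^ 2)), C (C (p : ℤ) * (X - C t₀)), C ((X - C t₀) ^ 2)}

/-- `P = 1 + p E + (T - t₀) B` modulo the ideal -/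
def Ex (p : ℕ) (f : ℤ[X][X]) (t₀ : ℤ) (P : ℤ[X][X]) (E B : ℤ[X]) : Prop :=
  P - (1 + C (C (p : ℤ)) * E.map C + C (X - C t₀) * B.map C) ∈ BI p f t₀

variable {p : ℕ} {f : ℤ[X][X]} {t₀ : ℤ}

section quot

/-- the quotient ring -/
def Q2 (p : ℕ) (f : ℤ[X][X]) (t₀ : ℤ) : Type := ℤ[X][X] ⧸ BI p f t₀

noncomputable instance (p : ℕ) (f : ℤ[X][X]) (t₀ : ℤ) : CommRing (Q2 p f t₀) :=
  inferInstanceAs (CommRing (ℤ[X][X] ⧸ BI p f t₀))

/-- the quotient map -/
noncomputable def q2 (p : ℕ) (f : ℤ[X][X]) (t₀ : ℤ) : ℤ[X][X] →+* Q2 p f t₀ :=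
  Ideal.Quotient.mk (BI p f t₀)

theorem q2_eq_zero (P : ℤ[X][X]) : q2 p f t₀ P = 0 ↔ P ∈ BI p f t₀ :=
  Ideal.Quotient.eq_zero_iff_mem

theorem q2_f : q2 p f t₀ f = 0 :=
  (q2_eq_zero _).2 (Ideal.subset_span (by simp))

theorem q2_pp : q2 p f t₀ (C (C (p : ℤ))) * q2 p f t₀ (C (C (p : ℤ))) = 0 := by
  rw [← map_mul, ← map_mul, ← map_mul, ← pow_two]
  exact (q2_eq_zero _).2 (Ideal.subset_span (by simp))

theorem q2_pt : q2 p f t₀ (C (C (p : ℤ))) * q2 p f t₀ (C (X - C t₀)) = 0 := by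
  rw [← map_mul, ← map_mul]
  exact (q2_eq_zero _).2 (Ideal.subset_span (by simp))

theorem q2_tt : q2 p f t₀ (C (X - C t₀)) * q2 p f t₀ (C (X - C t₀)) = 0 := by
  rw [← map_mul, ← map_mul, ← pow_two]
  exact (q2_eq_zero _).2 (Ideal.subset_span (by simp))

theorem Ex_iff (P : ℤ[X][X]) (E B : ℤ[X]) : Ex p f t₀ P E B ↔
    q2 p f t₀ P = 1 + q2 p f t₀ (C (C (p : ℤ))) * q2 p f t₀ (E.map C) +
      q2 p f t₀ (C (X - C t₀)) * q2 p f t₀ (B.map C) := by
  unfold Ex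
  rw [← q2_eq_zero, map_sub, sub_eq_zero, map_add, map_add, map_one, map_mul, map_mul]

/-- a polynomial and its value at `t₀` -/
theorem exists_sub_spec (P : ℤ[X][X]) : ∃ β : ℤ[X][X], P = (spec (t₀ : ℤ) P).map C + C (X - C t₀) * β := by
  have h1 : spec (t₀ : ℤ) (P - (spec (t₀ : ℤ) P).map C) = 0 := by
    rw [spec_sub, spec_mapC, sub_self]
  obtain ⟨β, hβ⟩ := dvd_of_spec_eq_zero t₀ _ h1
  exact ⟨β, by rw [← hβ]; ring⟩

theorem q2_p_spec (P : ℤ[X][X]) : q2 p f t₀ (C (C (p : ℤ))) * q2 p f t₀ ((spec (t₀ : ℤ) P).map C) =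
    q2 p f t₀ (C (C (p : ℤ))) * q2 p f t₀ P := by
  obtain ⟨β, hβ⟩ := exists_sub_spec (t₀ := t₀) P
  conv_rhs => rw [hβ]
  rw [map_add, map_mul, mul_add, ← mul_assoc, q2_pt, zero_mul, add_zero]

theorem q2_t_spec (P : ℤ[X][X]) : q2 p f t₀ (C (X - C t₀)) * q2 p f t₀ ((spec (t₀ : ℤ) P).map C) =
    q2 p f t₀ (C (X - C t₀)) * q2 p f t₀ P := by
  obtain ⟨β, hβ⟩ := exists_sub_spec (t₀ := t₀) P
  conv_rhs => rw [hβ]
  rw [map_add, map_mul, mul_add, ← mul_assoc, q2_tt, zero_mul, add_zero]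

theorem Ex_mul {P P' : ℤ[X][X]} {E B E' B' : ℤ[X]} (h : Ex p f t₀ P E B) (h' : Ex p f t₀ P' E' B') :
    Ex p f t₀ (P * P') (E + E') (B + B') := by
  rw [Ex_iff] at h h' ⊢
  rw [map_mul, h, h', Polynomial.map_add, Polynomial.map_add, map_add, map_add]
  have h1 := q2_pp (p := p) (f := f) (t₀ := t₀)
  have h2 := q2_pt (p := p) (f := f) (t₀ := t₀)
  have h3 := q2_tt (p := p) (f := f) (t₀ := t₀)
  linear_combination (q2 p f t₀ (E.map C) * q2 p f t₀ (E'.map C)) * h1 +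
    (q2 p f t₀ (E.map C) * q2 p f t₀ (B'.map C) + q2 p f t₀ (B.map C) * q2 p f t₀ (E'.map C)) * h2 +
    (q2 p f t₀ (B.map C) * q2 p f t₀ (B'.map C)) * h3

theorem Ex_one : Ex p f t₀ 1 0 0 := by
  rw [Ex_iff]
  simp

theorem Ex_pow {P : ℤ[X][X]} {E B : ℤ[X]} (h : Ex p f t₀ P E B) (m : ℕ) :
    Ex p f t₀ (P ^ m) ((m : ℤ[X]) * E) ((m : ℤ[X]) * B) := by
  induction m with
  | zero => simpa using Ex_one
  | succ m ih =>
    rw [pow_succ]
    have e1 : ((m + 1 : ℕ) : ℤ[X]) * E = (m : ℤ[X]) * E + E := by push_cast; ring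
    have e2 : ((m + 1 : ℕ) : ℤ[X]) * B = (m : ℤ[X]) * B + B := by push_cast; ring
    rw [e1, e2]
    exact Ex_mul ih h

theorem Ex_prod {ι : Type} (s : Finset ι) (P : ι → ℤ[X][X]) (E B : ι → ℤ[X])
    (h : ∀ i, Ex p f t₀ (P i) (E i) (B i)) (m : ι → ℕ) :
    Ex p f t₀ (∏ i ∈ s, P i ^ m i) (∑ i ∈ s, (m i : ℤ[X]) * E i) (∑ i ∈ s, (m i : ℤ[X]) * B i) := by
  classical
  induction s using Finset.induction_on with
  | empty => simpa using Ex_one
  | insert i s hi ih =>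
    rw [Finset.prod_insert hi, Finset.sum_insert hi, Finset.sum_insert hi]
    exact Ex_mul (Ex_pow (h i) (m i)) ih

/-- reduction of the coefficients modulo `f(t₀, Y)` -/
theorem Ex_mod {P : ℤ[X][X]} {E B : ℤ[X]} (h : Ex p f t₀ P E B) :
    Ex p f t₀ P (E %ₘ spec (t₀ : ℤ) f) (B %ₘ spec (t₀ : ℤ) f) := by
  rw [Ex_iff] at h ⊢
  have h1 : ∀ (E : ℤ[X]), q2 p f t₀ (C (C (p : ℤ))) * q2 p f t₀ (E.map C) =
      q2 p f t₀ (C (C (p : ℤ))) * q2 p f t₀ ((E %ₘ spec (t₀ : ℤ) f).map C) := by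
    intro E
    have e1 : E = (E %ₘ spec (t₀ : ℤ) f) + spec (t₀ : ℤ) f * (E /ₘ spec (t₀ : ℤ) f) :=
      (Polynomial.modByMonic_add_div _ _).symm
    conv_lhs => rw [e1]
    rw [Polynomial.map_add, Polynomial.map_mul, map_add, map_mul, mul_add, ← mul_assoc, q2_p_spec,
      q2_f, mul_zero, zero_mul, add_zero]
  have h2 : ∀ (E : ℤ[X]), q2 p f t₀ (C (X - C t₀)) * q2 p f t₀ (E.map C) =
      q2 p f t₀ (C (X - C t₀)) * q2 p f t₀ ((E %ₘ spec (t₀ : ℤ) f).map C) := by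
    intro E
    have e1 : E = (E %ₘ spec (t₀ : ℤ) f) + spec (t₀ : ℤ) f * (E /ₘ spec (t₀ : ℤ) f) :=
      (Polynomial.modByMonic_add_div _ _).symm
    conv_lhs => rw [e1]
    rw [Polynomial.map_add, Polynomial.map_mul, map_add, map_mul, mul_add, ← mul_assoc, q2_t_spec,
      q2_f, mul_zero, zero_mul, add_zero]
  rw [h, h1 E, h2 B]

end quot

variable [hp : Fact p.Prime]

/-- existence of the expansion -/
theorem exists_Ex (P : ℤ[X][X]) (h : sg ((t₀ : ℤ) : ZMod p) f P = 1) :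
    ∃ E B : ℤ[X], Ex p f t₀ P E B := by
  have h1 : sg ((t₀ : ℤ) : ZMod p) f (P - 1) = 0 := by rw [map_sub, h, map_one, sub_self]
  rw [sg_apply, AdjoinRoot.mk_eq_zero] at h1
  obtain ⟨g, hg⟩ := h1
  obtain ⟨G, rfl⟩ := Polynomial.map_surjective (Int.castRingHom (ZMod p))
    (ZMod.intCast_surjective) g
  have h2 : (spec (t₀ : ℤ) (P - 1 - f * G.map C)).map (Int.castRingHom (ZMod p)) = 0 := by
    rw [spec_sub, spec_mul, spec_mapC, Polynomial.map_sub, Polynomial.map_mul, spec_map, spec_map]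
    have : (Int.castRingHom (ZMod p)) t₀ = ((t₀ : ℤ) : ZMod p) := rfl
    rw [this, hg, sub_self]
  have h3 : C (p : ℤ) ∣ spec (t₀ : ℤ) (P - 1 - f * G.map C) := by
    rw [Polynomial.C_dvd_iff_dvd_coeff]
    intro i
    have h3 := congrArg (fun q => q.coeff i) h2
    simp only [coeff_map, coeff_zero] at h3
    rw [← ZMod.intCast_zmod_eq_zero_iff_dvd]
    exact h3
  obtain ⟨E, hE⟩ := h3
  obtain ⟨β, hβ⟩ := exists_sub_spec (t₀ := t₀) (P - 1 - f * G.map C)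
  refine ⟨E, spec (t₀ : ℤ) β, ?_⟩
  rw [Ex_iff, q2_t_spec]
  have h4 : P = 1 + f * G.map C + (C (p : ℤ) * E).map C + C (X - C t₀) * β := by
    rw [← hE]
    linear_combination hβ
  conv_lhs => rw [h4]
  rw [map_add, map_add, map_add, map_one, map_mul, q2_f, zero_mul, add_zero, Polynomial.map_mul,
    map_mul, map_mul, Polynomial.map_C]

omit hp in
theorem BI_map {R : Type} [CommRing R] (φ : ℤ[X][X] →+* R) (hf : φ f = 0)
    (z : R) (hz : φ (C (X - C t₀)) = p * z) {P : ℤ[X][X]} (h : P ∈ BI p f t₀) : (p : R) ^ 2 ∣ φ P := by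
  have h1 : φ (C (C (p : ℤ))) = (p : R) := by
    have : (C (C (p : ℤ)) : ℤ[X][X]) = ((p : ℕ) : ℤ[X][X]) := by simp
    rw [this, map_natCast]
  have h2 : BI p f t₀ ≤ Ideal.comap φ (Ideal.span {(p : R) ^ 2}) := by
    unfold BI
    rw [Ideal.span_le]
    intro x hx
    simp only [Set.mem_insert_iff, Set.mem_singleton_iff] at hx
    simp only [SetLike.mem_coe, Ideal.mem_comap, Ideal.mem_span_singleton]
    rcases hx with rfl | rfl | rfl | rfl
    · rw [hf]; exact dvd_zero _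
    · rw [C_pow, C_pow, map_pow, h1]
    · rw [C_mul, map_mul, h1, hz]
      exact ⟨z, by ring⟩
    · rw [C_pow, map_pow, hz]
      exact ⟨z ^ 2, by ring⟩
  have h3 := h2 h
  rwa [Ideal.mem_comap, Ideal.mem_span_singleton] at h3

/-- uniqueness of the coefficient `E` -/
theorem Ex_unique (hfm : f.Monic) {P : ℤ[X][X]} {E B E' B' : ℤ[X]} (h : Ex p f t₀ P E B)
    (h' : Ex p f t₀ P E' B') :
    sg ((t₀ : ℤ) : ZMod p) f (E.map C) = sg ((t₀ : ℤ) : ZMod p) f (E'.map C) := by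
  unfold Ex at h h'
  have h1 := (BI p f t₀).sub_mem h h'
  have hz : sg (t₀ : ℤ) f (C (X - C t₀)) = (p : AdjoinRoot (spec (t₀ : ℤ) f)) * 0 := by
    rw [map_sub C, map_sub, sg_CX, sg_CC, mul_zero]
    simp
  obtain ⟨w, hw⟩ := BI_map (sg (t₀ : ℤ) f) (sg_self _ _) 0 hz h1
  have h2 : (p : AdjoinRoot (spec (t₀ : ℤ) f)) * (sg (t₀ : ℤ) f (E'.map C) - sg (t₀ : ℤ) f (E.map C) -
      p * w) = 0 := by
    have h3 : sg (t₀ : ℤ) f (C (C (p : ℤ))) = (p : AdjoinRoot (spec (t₀ : ℤ) f)) := by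
      rw [sg_CC]; simp
    have h6 : P - (1 + C (C (p : ℤ)) * E.map C + C (X - C t₀) * B.map C) -
        (P - (1 + C (C (p : ℤ)) * E'.map C + C (X - C t₀) * B'.map C)) =
        C (C (p : ℤ)) * (E'.map C - E.map C) + C (X - C t₀) * (B'.map C - B.map C) := by ring
    rw [h6, map_add, map_mul, map_mul, h3, hz, map_sub] at hw
    linear_combination hw
  have h4 := adj_tf (p := p) _ (spec_monic _ hfm) _ h2
  have h5 := congrArg (rd p t₀ f) h4
  rw [map_sub, map_sub, map_mul, rd_p, zero_mul, sub_zero, map_zero, rd_sg, rd_sg, sub_eq_zero] at h5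
  exact h5.symm

/-- the derivative of the expansion -/
theorem Ex_jac {P : ℤ[X][X]} {E B : ℤ[X]} (h : Ex p f t₀ P E B) :
    sg ((t₀ : ℤ) : ZMod p) f (jac f P) =
      sg ((t₀ : ℤ) : ZMod p) f (B.map C) * sg ((t₀ : ℤ) : ZMod p) f (derivative f) := by
  set x : ZMod p := ((t₀ : ℤ) : ZMod p) with hx
  have hp1 : sg x f (C (C (p : ℤ))) = 0 := by
    rw [sg_CC]
    have : (((p : ℤ)) : AdjoinRoot (spec x f)) = AdjoinRoot.of _ (((p : ℤ)) : ZMod p) := by
      rw [map_intCast]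
    rw [this]
    simp
  have ht1 : sg x f (C (X - C t₀)) = 0 := by
    rw [map_sub C, map_sub, sg_CX, sg_CC, hx, map_intCast, sub_self]
  have hmem : ∀ Q ∈ BI p f t₀, sg x f Q = 0 ∧ sg x f (jac f Q) = 0 := by
    intro Q hQ
    unfold BI at hQ
    induction hQ using Submodule.span_induction with
    | mem y hy =>
      simp only [Set.mem_insert_iff, Set.mem_singleton_iff] at hy
      rcases hy with rfl | rfl | rfl | rfl
      · rw [jac_self, map_zero]; exact ⟨sg_self _ _, rfl⟩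
      · rw [jac_C_C, map_zero, C_pow, C_pow, map_pow, hp1]
        exact ⟨by simp, rfl⟩
      · rw [C_mul, J_mul, map_mul, hp1, jac_C_C, map_zero, ht1]
        simp
      · rw [C_pow, pow_two, J_mul, map_mul, ht1]
        simp
    | zero =>
      have : jac f 0 = 0 := by
        have := jac_C_C f 0
        simpa using this
      rw [this, map_zero]
      exact ⟨rfl, rfl⟩
    | add y z _ _ ihy ihz =>
      rw [jac_add, map_add, map_add, ihy.1, ihz.1, ihy.2, ihz.2]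
      simp
    | smul a y _ ih =>
      rw [smul_eq_mul, J_mul, map_mul, ih.1, ih.2]
      simp
  have h1 := (hmem _ h).2
  have e1 : P = (P - (1 + C (C (p : ℤ)) * E.map C + C (X - C t₀) * B.map C)) +
      (1 + C (C (p : ℤ)) * E.map C + C (X - C t₀) * B.map C) := by ring
  rw [e1, jac_add, map_add, h1, zero_add, jac_add, jac_add, map_add, map_add, J_mul, J_mul, hp1, ht1,
    jac_C_C, map_zero, J_C]
  have h2 : jac f 1 = 0 := by
    have := jac_C_C f 1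
    simpa using this
  rw [h2, map_zero, derivative_sub, derivative_X, derivative_C, sub_zero, map_one, map_one]
  ring

/-- the `p`-th power of an element which is one modulo nilpotent elements -/
theorem Ex_pth {V : ℤ[X][X]} {n : ℕ} (hn2 : 2 * n ≤ p)
    (hV : (sg ((t₀ : ℤ) : ZMod p) f V - 1) ^ n = 0) :
    ∃ (E : ℤ[X]) (g : AdjoinRoot (spec ((t₀ : ℤ) : ZMod p) f)), Ex p f t₀ (V ^ p) E 0 ∧
      sg ((t₀ : ℤ) : ZMod p) f (E.map C) = (sg ((t₀ : ℤ) : ZMod p) f V - 1) *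
        (1 + (sg ((t₀ : ℤ) : ZMod p) f V - 1) * g) := by
  set x : ZMod p := ((t₀ : ℤ) : ZMod p) with hx
  set N : ℤ[X][X] := V - 1 with hN
  have hVN : V = 1 + N := by rw [hN]; ring
  have h1 : sg x f (1 + N ^ n) = 1 := by
    rw [map_add, map_pow, hN, map_sub, map_one, hV, add_zero]
  obtain ⟨E₀, B₀, h0⟩ := exists_Ex (p := p) (f := f) (t₀ := t₀) (1 + N ^ n) h1
  rw [Ex_iff, map_add, map_one, add_assoc] at h0
  have h2 := add_left_cancel h0
  have h3 : q2 p f t₀ N ^ (2 * n) = 0 := by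
    rw [mul_comm, pow_mul, ← map_pow, h2]
    have e1 := q2_pp (p := p) (f := f) (t₀ := t₀)
    have e2 := q2_pt (p := p) (f := f) (t₀ := t₀)
    have e3 := q2_tt (p := p) (f := f) (t₀ := t₀)
    linear_combination (q2 p f t₀ (E₀.map C) ^ 2) * e1 +
      (2 * q2 p f t₀ (E₀.map C) * q2 p f t₀ (B₀.map C)) * e2 + (q2 p f t₀ (B₀.map C) ^ 2) * e3
  obtain ⟨g, hg⟩ := one_add_pow hp.out N
  refine ⟨spec (t₀ : ℤ) (N * (1 + N * g)), sg x f g, ?_, ?_⟩
  · rw [Ex_iff, q2_p_spec, Polynomial.map_zero, map_zero, mul_zero, add_zero, hVN, hg]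
    have e1 : q2 p f t₀ (N ^ p) = 0 := by
      have e0 : q2 p f t₀ N ^ p = q2 p f t₀ N ^ (2 * n) * q2 p f t₀ N ^ (p - 2 * n) := by
        rw [← pow_add]
        congr 1
        omega
      rw [map_pow, e0, h3, zero_mul]
    have e5 : (p : ℤ[X][X]) * N * (1 + N * g) = C (C (p : ℤ)) * (N * (1 + N * g)) := by
      simp only [map_natCast]
      ring
    rw [map_add, e1, add_zero, map_add, map_one, e5, map_mul]
  · obtain ⟨β, hβ⟩ := exists_sub_spec (t₀ := t₀) (N * (1 + N * g))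
    have ht1 : sg x f (C (X - C t₀)) = 0 := by
      rw [map_sub C, map_sub, sg_CX, sg_CC, hx, map_intCast, sub_self]
    have e2 := congrArg (sg x f) hβ
    rw [map_add, map_mul (sg x f) (C (X - C t₀)), ht1, zero_mul, add_zero] at e2
    rw [← e2, map_mul, map_add, map_mul, map_one, hN, map_sub, map_one]

end Pool.Agent.W5h5.LD
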