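import Mathlib
import Pool.Agent.W5h5.LD.Exp
import Pool.Agent.R89.UP.Count

/-!
# The power series of a residue class modulo `p²`
-/

set_option autoImplicit false

namespace Pool.Agent.W5h5.LD

open Polynomial NumberField Pool.Agent.H33R4 Pool.Agent.R89.UP
open Pool.Agent.H637R2.Leo (Leopoldt)

variable {p : ℕ} [hp : Fact p.Prime]

theorem spec_mapC' {A : Type} [CommRing A] (x : A) (Q : ℤ[X]) :
    spec x (Q.map (C : ℤ →+* ℤ[X])) = Q.map (Int.castRingHom A) := by
  unfold spec
  rw [Polynomial.map_map]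
  congr 1
  exact RingHom.ext_int _ _

theorem series (hodd : p ≠ 2) (f : ℤ[X][X]) (hf : f.Monic) (t₀ s : ℤ) {r : ℕ}
    (U W : Fin r → ℤ[X][X]) (huw : ∀ i, f ∣ U i * W i - 1) {M : ℕ} (hM : 0 < M)
    (E B : Fin r → ℤ[X]) (hEd : ∀ i j, f.natDegree ≤ j → (E i).coeff j = 0)
    (hBd : ∀ i j, f.natDegree ≤ j → (B i).coeff j = 0)
    (hEx : ∀ i, Ex p f t₀ (U i ^ M) (E i) (B i))
    (D : Fin f.natDegree → Fin r → ZMod p) :
    ∃ G : PowerSeries ℤ_[p], rho p G =
      ((((X + C ((s : ℤ) : ZMod p)) • (Matrix.of fun i k => ∑ j : Fin f.natDegree,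
        (((B i).coeff j : ℤ) : ZMod p) * D j k).map C +
        (Matrix.of fun i k => ∑ j : Fin f.natDegree, (((E i).coeff j : ℤ) : ZMod p) * D j k).map C).det :
          (ZMod p)[X]) : PowerSeries (ZMod p)) ∧
      ∀ t : ℤ, (p : ℤ) ^ 2 ∣ t - (t₀ + p * s) → Bad p f.natDegree r f t →
        ∃ φ, IsEval p ((((t - (t₀ + p * s)) / p : ℤ)) : ℤ_[p]) φ ∧ φ G = 0 := by
  classical
  set t₁ : ℤ := t₀ + p * s with ht₁
  set T₁ := par p t₁ with hT₁
  set F := spec T₁ f with hFdef
  have hF : F.Monic := spec_monic _ hf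
  have hFn : F.natDegree = f.natDegree := hf.natDegree_map _
  set S : PowerSeries ℤ_[p] := ((s : ℤ) : PowerSeries ℤ_[p]) + PowerSeries.X with hS
  have hTS : T₁ - ((t₀ : ℤ) : PowerSeries ℤ_[p]) = p * S := by
    rw [hT₁, hS, ht₁]
    unfold par
    push_cast
    ring
  have hz1 : sg T₁ f (C (X - C t₀)) = (p : AdjoinRoot F) * AdjoinRoot.of F S := by
    rw [map_sub C, map_sub, sg_CX, sg_CC, ← map_intCast (AdjoinRoot.of (spec T₁ f)), ← map_sub, hTS,
      map_mul, map_natCast]
  have hwit : ∀ i, ∃ Wp : (PowerSeries ℤ_[p])[X], (AdjoinRoot.mk F (spec T₁ (U i))) ^ M =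
      1 + (p : AdjoinRoot F) * AdjoinRoot.mk F ((E i).map (Int.castRingHom _) +
        C S * (B i).map (Int.castRingHom _) + C (p : PowerSeries ℤ_[p]) * (Wp %ₘ F)) := by
    intro i
    obtain ⟨w, hw⟩ := BI_map (sg T₁ f) (sg_self _ _) _ hz1 (hEx i)
    obtain ⟨Wp, rfl⟩ := AdjoinRoot.mk_surjective w
    have e2 : AdjoinRoot.mk F (Wp %ₘ F) = AdjoinRoot.mk F Wp := by
      have e1 : Wp = (Wp %ₘ F) + F * (Wp /ₘ F) := (Polynomial.modByMonic_add_div _ F).symm
      conv_rhs => rw [e1]
      rw [map_add, map_mul, AdjoinRoot.mk_self, zero_mul, add_zero]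
    refine ⟨Wp, ?_⟩
    have h3 : sg T₁ f (C (C (p : ℤ))) = (p : AdjoinRoot F) := by
      rw [sg_CC]; simp [hFdef]
    have h4 : ∀ Q : ℤ[X], sg T₁ f (Q.map C) = AdjoinRoot.mk F (Q.map (Int.castRingHom _)) := by
      intro Q
      rw [sg_apply, spec_mapC']
    rw [map_sub, map_add, map_add, map_one, map_mul, map_mul, h3, hz1, h4, h4, map_pow, sg_apply] at hw
    rw [map_add, map_add, map_mul, map_mul, e2, AdjoinRoot.mk_C, AdjoinRoot.mk_C, map_natCast]
    linear_combination hw
  choose Wp hWp using hwit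
  let Et : Fin r → (PowerSeries ℤ_[p])[X] := fun i => (E i).map (Int.castRingHom _) +
        C S * (B i).map (Int.castRingHom _) + C (p : PowerSeries ℤ_[p]) * (Wp i %ₘ F)
  have hx : ∀ i, (AdjoinRoot.mk F (spec T₁ (U i))) ^ M =
      1 + (p : AdjoinRoot F) * AdjoinRoot.mk F (Et i) := hWp
  have hWd : ∀ i j, f.natDegree ≤ j → (Wp i %ₘ F).coeff j = 0 := by
    intro i j hj
    apply coeff_eq_zero_of_degree_lt
    refine (degree_modByMonic_lt _ hF).trans_le ?_
    rw [degree_eq_natDegree hF.ne_zero, hFn]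
    exact_mod_cast hj
  have hgood : PGood p (PowerSeries ℤ_[p]) := good1_proof.2 p _ (good1_proof.1 p)
  have hgoodB : PGood p (AdjoinRoot F) := good2_proof p _ _ hF hgood
  choose L hL using fun i => logEx_proof p hp.out _ hgoodB
    (1 + (p : AdjoinRoot F) * AdjoinRoot.mk F (Et i)) (by
      rw [add_sub_cancel_left]; exact dvd_mul_right _ _)
  choose z hz using fun i => log_one hp.out hodd hgoodB.tf _ _ (hL i)
  let Z : Fin r → (PowerSeries ℤ_[p])[X] := fun i => AdjoinRoot.modByMonicHom hF (z i)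
  have hZ : ∀ i, AdjoinRoot.mk F (Z i) = z i := fun i => AdjoinRoot.mk_leftInverse hF (z i)
  have hZd : ∀ i j, f.natDegree ≤ j → (Z i).coeff j = 0 := by
    intro i j hj
    apply coeff_eq_zero_of_degree_lt
    obtain ⟨Q, hQ⟩ := AdjoinRoot.mk_surjective (z i)
    simp only [Z]
    rw [← hQ, AdjoinRoot.modByMonicHom_mk]
    refine (degree_modByMonic_lt Q hF).trans_le ?_
    rw [degree_eq_natDegree hF.ne_zero, hFn]
    exact_mod_cast hj
  let Lam : Fin r → (PowerSeries ℤ_[p])[X] := fun i => Et i + C (p : PowerSeries ℤ_[p]) * Z i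
  have hLam : ∀ i, L i = (p : AdjoinRoot F) * AdjoinRoot.mk F (Lam i) := by
    intro i
    rw [hz i]
    simp only [Lam, map_add, map_mul, AdjoinRoot.mk_C, map_natCast, hZ]
  have hLamd : ∀ i j, F.natDegree ≤ j → (Lam i).coeff j = 0 := by
    intro i j hj
    rw [hFn] at hj
    simp only [Lam, Et, coeff_add, coeff_C_mul, coeff_map, hEd i j hj, hBd i j hj, hZd i j hj,
      hWd i j hj, mul_zero, add_zero, map_zero]
  let Dl : Fin f.natDegree → Fin r → PowerSeries ℤ_[p] :=
    fun j k => (((D j k).val : ℕ) : PowerSeries ℤ_[p])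
  set G : PowerSeries ℤ_[p] := (Matrix.of fun i k => ∑ j : Fin f.natDegree, (Lam i).coeff j * Dl j k).det
    with hG
  have hrX : rho p PowerSeries.X = PowerSeries.X := by
    unfold rho
    exact PowerSeries.map_X _
  have hrho : rho p G = ((((X + C ((s : ℤ) : ZMod p)) • (Matrix.of fun i k => ∑ j : Fin f.natDegree,
        (((B i).coeff j : ℤ) : ZMod p) * D j k).map C +
        (Matrix.of fun i k => ∑ j : Fin f.natDegree, (((E i).coeff j : ℤ) : ZMod p) * D j k).map C).det :
          (ZMod p)[X]) : PowerSeries (ZMod p)) := by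
    rw [hG, RingHom.map_det]
    have h1 : ∀ Q : (ZMod p)[X], (Q : PowerSeries (ZMod p)) =
      Polynomial.coeToPowerSeries.ringHom Q := fun _ => rfl
    rw [h1, RingHom.map_det]
    congr 1
    ext1 i k
    simp only [RingHom.mapMatrix_apply, Matrix.map_apply, Matrix.of_apply, Matrix.add_apply,
      Matrix.smul_apply, smul_eq_mul, map_sum, map_mul, map_add,
      Polynomial.coeToPowerSeries.ringHom_apply, Polynomial.coe_X, Polynomial.coe_C]
    have h2 : ∀ j : Fin f.natDegree, rho p ((Lam i).coeff j) * rho p (Dl j k) =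
        (PowerSeries.X + PowerSeries.C ((s : ℤ) : ZMod p)) *
          (PowerSeries.C (((B i).coeff j : ℤ) : ZMod p) * PowerSeries.C (D j k)) +
        PowerSeries.C (((E i).coeff j : ℤ) : ZMod p) * PowerSeries.C (D j k) := by
      intro j
      have h3 : rho p ((Lam i).coeff j) = PowerSeries.C (((E i).coeff j : ℤ) : ZMod p) +
          (PowerSeries.C ((s : ℤ) : ZMod p) + PowerSeries.X) *
            PowerSeries.C (((B i).coeff j : ℤ) : ZMod p) := by
        simp only [Lam, Et, coeff_add, coeff_C_mul, coeff_map, hS]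
        rw [map_add, map_add, map_add, map_mul, map_mul, map_mul, rho_p, zero_mul, zero_mul, add_zero,
          add_zero, map_add, hrX]
        simp
      have h4 : rho p (Dl j k) = PowerSeries.C (D j k) := by
        simp only [Dl]
        rw [map_natCast]
        have : (((D j k).val : ℕ) : PowerSeries (ZMod p)) =
            PowerSeries.C (((D j k).val : ℕ) : ZMod p) := (map_natCast PowerSeries.C _).symm
        rw [this, ZMod.natCast_zmod_val]
      rw [h3, h4]
      ring
    rw [Finset.sum_congr rfl fun j _ => h2 j, Finset.sum_add_distrib, ← Finset.mul_sum]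
  refine ⟨G, hrho, ?_⟩
  rintro t ⟨m, hm⟩ ⟨K, _, _, θ, hθ, hKn, hgen, hKr, hL0⟩
  have hp0 : (p : ℤ) ≠ 0 := by exact_mod_cast hp.out.ne_zero
  have hs : (t - t₁) / p = p * m := by
    rw [hm, pow_two, mul_assoc, Int.mul_ediv_cancel_left _ hp0]
  have hdvd : (p : ℤ_[p]) ∣ ((((t - t₁) / p : ℤ)) : ℤ_[p]) := by
    rw [hs]
    push_cast
    exact dvd_mul_right _ _
  obtain ⟨φ, hφ⟩ := (evZ_proof p).1 _ hdvd
  refine ⟨φ, hφ, ?_⟩
  have hφT : φ T₁ = ((t : ℤ) : ℤ_[p]) := by
    rw [hT₁, par_map, hφ.1, hs]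
    have : t = t₁ + p * (p * m) := by
      have := hm
      rw [pow_two] at this
      linarith
    rw [this]
    push_cast
    ring
  have hmap : ∀ P : ℤ[X][X], (spec T₁ P).map φ = (spec t P).map (Int.castRingHom ℤ_[p]) := by
    intro P
    rw [spec_map, spec_map, hφT]
    rfl
  obtain ⟨wv, hw0, hw⟩ := partB' (partB_of logB_proof good1_proof good2_proof) p (spec t f)
    (spec_monic _ hf) r (fun i => spec t (U i))
    (fun i => spec t (W i)) (fun i => by
      have := Polynomial.map_dvd (Polynomial.eval₂RingHom (Int.castRingHom ℤ) t) (huw i)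
      simpa [spec] using this) K θ hθ
    (by rw [hKn]; exact (hf.natDegree_map _).symm) hgen hKr hL0 M hM
    (F.map φ) (hmap f)
    (fun i => AdjoinRoot.map φ _ _ dvd_rfl (L i)) (fun i => by
      have h3 := (logB_proof p hp.out _).2.2.2.1 _ (AdjoinRoot.map φ F (F.map φ) dvd_rfl)
        _ _ (hL i)
      rw [← hx i, map_pow, adj_map_mk, hmap (U i)] at h3
      exact h3)
  have hFφ : (F.map φ).Monic := hF.map φ
  have hG2 : PGood p (AdjoinRoot (F.map φ)) :=
    good2_proof p ℤ_[p] _ hFφ (good1_proof.1 p)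
  have h5 : ∑ i, AdjoinRoot.of (F.map φ) (wv i) *
      AdjoinRoot.mk (F.map φ) ((Lam i).map φ) = 0 := by
    apply hG2.tf
    rw [Finset.mul_sum, ← hw]
    refine Finset.sum_congr rfl fun i _ => ?_
    rw [hLam i, map_mul, map_natCast, adj_map_mk]
    ring
  have h6 := coord_rel hF Lam hLamd φ wv h5
  have h7 := det_zero_of_rel (fun i (j : Fin f.natDegree) => φ ((Lam i).coeff j))
    (fun j k => φ (Dl j k)) wv hw0 (fun j => h6 j)
  rw [hG, RingHom.map_det]
  rw [← h7]
  congr 1
  ext1 i k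
  simp only [RingHom.mapMatrix_apply, Matrix.map_apply, Matrix.of_apply, map_sum, map_mul]

end Pool.Agent.W5h5.LD
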