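import Mathlib
import Pool.Agent.W5h5.LD.Ser

/-!
# The number of exceptional integers in a class modulo `p`
-/

set_option autoImplicit false

namespace Pool.Agent.W5h5.LD

open Polynomial NumberField Pool.Agent.H33R4 Pool.Agent.R89.UP

variable {p : ℕ} [hp : Fact p.Prime]

theorem class_all (hodd : p ≠ 2) (f : ℤ[X][X]) (hf : f.Monic) (t₀ : ℤ) {r : ℕ}
    (U W : Fin r → ℤ[X][X]) (huw : ∀ i, f ∣ U i * W i - 1) {M : ℕ} (hM : 0 < M)
    (E B : Fin r → ℤ[X]) (hEd : ∀ i j, f.natDegree ≤ j → (E i).coeff j = 0)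
    (hBd : ∀ i j, f.natDegree ≤ j → (B i).coeff j = 0)
    (hEx : ∀ i, Ex p f t₀ (U i ^ M) (E i) (B i))
    (D : Fin f.natDegree → Fin r → ZMod p)
    (hQ : ((X : (ZMod p)[X]) • (Matrix.of fun i k => ∑ j : Fin f.natDegree,
        (((B i).coeff j : ℤ) : ZMod p) * D j k).map C +
        (Matrix.of fun i k => ∑ j : Fin f.natDegree,
          (((E i).coeff j : ℤ) : ZMod p) * D j k).map C).det ≠ 0) :
    ∃ S : Finset ℤ, S.card ≤ r ∧ ∀ t : ℤ, (p : ℤ) ∣ t - t₀ → Bad p f.natDegree r f t → t ∈ S := by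
  classical
  set Bm : Matrix (Fin r) (Fin r) (ZMod p) := Matrix.of fun i k => ∑ j : Fin f.natDegree,
        (((B i).coeff j : ℤ) : ZMod p) * D j k with hBm
  set Em : Matrix (Fin r) (Fin r) (ZMod p) := Matrix.of fun i k => ∑ j : Fin f.natDegree,
        (((E i).coeff j : ℤ) : ZMod p) * D j k with hEm
  set Q : (ZMod p)[X] := ((X : (ZMod p)[X]) • Bm.map C + Em.map C).det with hQdef
  have hQd : Q.natDegree ≤ r := by
    have h1 := Polynomial.natDegree_det_X_add_C_le Bm Em
    rw [Fintype.card_fin] at h1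
    exact h1
  have hcomp : ∀ x : ZMod p, ((X + C x) • Bm.map C + Em.map C).det = Q.comp (X + C x) := by
    intro x
    have h1 : Q.comp (X + C x) = Polynomial.compRingHom (X + C x) Q := by
      rw [coe_compRingHom_apply]
    rw [h1, hQdef, RingHom.map_det]
    congr 1
    ext1 i k
    simp only [RingHom.mapMatrix_apply, Matrix.map_apply, Matrix.add_apply, Matrix.smul_apply,
      smul_eq_mul, coe_compRingHom_apply, add_comp, mul_comp, X_comp, C_comp]
  -- one class modulo `p ^ 2`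
  have key : ∀ x : ZMod p, ∃ S : Finset ℤ, S.card ≤ Q.rootMultiplicity x ∧
      ∀ t : ℤ, (p : ℤ) ^ 2 ∣ t - (t₀ + p * ((x.val : ℕ) : ℤ)) → Bad p f.natDegree r f t → t ∈ S := by
    intro x
    obtain ⟨G, hG1, hG2⟩ := series hodd f hf t₀ ((x.val : ℕ) : ℤ) U W huw hM E B hEd hBd hEx D
    have hx : ((((x.val : ℕ) : ℤ)) : ZMod p) = x := by
      rw [Int.cast_natCast, ZMod.natCast_zmod_val]
    rw [hx] at hG1
    rw [hcomp x] at hG1
    have hne : Q.comp (X + C x) ≠ 0 := by
      rw [Ne, Polynomial.comp_X_add_C_eq_zero_iff]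
      exact hQ
    have hco : (Q.comp (X + C x)).coeff (Q.rootMultiplicity x) ≠ 0 := by
      rw [Polynomial.rootMultiplicity_eq_natTrailingDegree]
      exact Polynomial.trailingCoeff_nonzero_iff_nonzero.2 hne
    have hnd : ¬ (p : ℤ_[p]) ∣ PowerSeries.coeff (Q.rootMultiplicity x) G := by
      apply not_dvd_of_toZMod
      have h1 := congrArg (PowerSeries.coeff (Q.rootMultiplicity x)) hG1
      unfold rho at h1
      rw [PowerSeries.coeff_map, Polynomial.coeff_coe] at h1
      rw [h1]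
      exact hco
    exact class_sq G _ hnd _ _ hG2
  choose S hS1 hS2 using key
  refine ⟨Finset.univ.biUnion S, ?_, ?_⟩
  · refine Finset.card_biUnion_le.trans ?_
    refine (Finset.sum_le_sum fun x _ => hS1 x).trans ?_
    have h1 : ∑ x : ZMod p, Q.rootMultiplicity x = Multiset.card Q.roots := by
      rw [← Multiset.sum_count_eq_card (s := Finset.univ) (fun a _ => Finset.mem_univ a)]
      exact Finset.sum_congr rfl fun x _ => by rw [Polynomial.count_roots]
    rw [h1]
    exact (Polynomial.card_roots' Q).trans hQd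
  · intro t ht hB
    obtain ⟨m, hm⟩ := ht
    rw [Finset.mem_biUnion]
    refine ⟨(m : ZMod p), Finset.mem_univ _, hS2 _ t ?_ hB⟩
    have h1 : (p : ℤ) ∣ m - (((m : ZMod p).val : ℕ) : ℤ) := by
      rw [← ZMod.intCast_zmod_eq_zero_iff_dvd, Int.cast_sub, Int.cast_natCast,
        ZMod.natCast_zmod_val, sub_self]
    have h2 : t - (t₀ + p * ((((m : ZMod p)).val : ℕ) : ℤ)) = p * (m - (((m : ZMod p).val : ℕ) : ℤ)) := by
      linear_combination hm
    rw [h2, pow_two]
    exact mul_dvd_mul_left _ h1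

end Pool.Agent.W5h5.LD
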