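import Mathlib
import Pool.Agent.W5h5.LD.Zeros
import Pool.Agent.W5h5.LD.LinAlg2

/-!
# All residue classes at which the logarithmic derivatives are independent
-/

set_option autoImplicit false

namespace Pool.Agent.W5h5.LD

open Polynomial NumberField Pool.Agent.H33R4 Pool.Agent.R89.UP

variable {p : ℕ} [hp : Fact p.Prime]

/-- products of units are units -/
theorem prod_units {f : ℤ[X][X]} {r : ℕ} (U W : Fin r → ℤ[X][X]) (huw : ∀ i, f ∣ U i * W i - 1)
    (m : Fin r → ℕ) : f ∣ (∏ i, U i ^ m i) * (∏ i, W i ^ m i) - 1 := by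
  rw [← AdjoinRoot.mk_eq_zero, map_sub, map_mul, map_prod, map_prod, ← Finset.prod_mul_distrib,
    map_one, sub_eq_zero]
  apply Finset.prod_eq_one
  intro i _
  have h1 : AdjoinRoot.mk f (U i) * AdjoinRoot.mk f (W i) = 1 := by
    have := AdjoinRoot.mk_eq_zero.2 (huw i)
    rw [map_sub, map_mul, map_one, sub_eq_zero] at this
    exact this
  rw [map_pow, map_pow, ← mul_pow, h1, one_pow]

/-- the image of a polynomial in `Y` in coordinates -/
theorem sg_sum (f : ℤ[X][X]) (x : ZMod p) (P : ℤ[X]) (n : ℕ) (hn : 0 < n)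
    (hP : ∀ j, n ≤ j → P.coeff j = 0) :
    sg x f (P.map C) = ∑ j : Fin n, AdjoinRoot.of (spec x f) ((P.coeff j : ℤ) : ZMod p) *
      (AdjoinRoot.mk (spec x f) X) ^ (j : ℕ) := by
  have hd : P.natDegree < n := by
    by_contra h0
    have h1 := hP P.natDegree (not_lt.1 h0)
    have h2 : P = 0 := leadingCoeff_eq_zero.1 h1
    rw [h2, natDegree_zero] at h0
    exact h0 hn
  have h1 := P.as_sum_range' n hd
  rw [sg_apply, spec_mapC']
  conv_lhs => rw [h1]
  rw [Polynomial.map_sum, map_sum, Fin.sum_univ_eq_sum_range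
    (fun j => AdjoinRoot.of (spec x f) ((P.coeff j : ℤ) : ZMod p) *
      (AdjoinRoot.mk (spec x f) X) ^ j) n]
  refine Finset.sum_congr rfl fun j _ => ?_
  rw [Polynomial.map_monomial, ← C_mul_X_pow_eq_monomial, map_mul, map_pow, AdjoinRoot.mk_C]
  rfl

theorem of_val (f0 : (ZMod p)[X]) (c : ZMod p) :
    AdjoinRoot.of f0 c = ((c.val : ℕ) : AdjoinRoot f0) := by
  conv_lhs => rw [← ZMod.natCast_zmod_val c]
  rw [map_natCast]

section main

variable (f : ℤ[X][X]) (hf : f.Monic) (hn0 : 0 < f.natDegree) (t₀ : ℤ) {r : ℕ}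
  (U W : Fin r → ℤ[X][X]) (huw : ∀ i, f ∣ U i * W i - 1)
  (hgood : ∀ c : Fin r → ZMod p, ∑ i, AdjoinRoot.of (spec ((t₀ : ℤ) : ZMod p) f) (c i) *
    sg ((t₀ : ℤ) : ZMod p) f (jac f (U i) * W i) = 0 → c = 0)
  (hn2 : 2 * f.natDegree ≤ p)

theorem sg_natsum {r : ℕ} (x : ZMod p) (K : Fin r → ℤ[X]) (m : Fin r → ℕ) :
    sg x f ((∑ i, (m i : ℤ[X]) * K i).map C) = ∑ i, ((m i : ℕ) : AdjoinRoot (spec x f)) *
      sg x f ((K i).map C) := by
  rw [Polynomial.map_sum, map_sum]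
  refine Finset.sum_congr rfl fun i _ => ?_
  rw [Polynomial.map_mul, map_mul, Polynomial.map_natCast, map_natCast]

include hf huw hn2 in
/-- the expansions of the `p`-th powers -/
theorem step1 (M b : ℕ)
    (hMb : ∀ u w : AdjoinRoot (spec ((t₀ : ℤ) : ZMod p) f), u * w = 1 → (u ^ M - 1) ^ (p ^ b) = 0) :
    ∃ K : Fin r → ℤ[X], (∀ i, Ex p f t₀ ((U i ^ M) ^ p) (K i) 0) ∧
      (∀ i, sg ((t₀ : ℤ) : ZMod p) f (derivative f) * sg ((t₀ : ℤ) : ZMod p) f ((K i).map C) = 0) ∧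
      ∀ m : Fin r → ℕ, ∑ i, ((m i : ℕ) : AdjoinRoot (spec ((t₀ : ℤ) : ZMod p) f)) *
        sg ((t₀ : ℤ) : ZMod p) f ((K i).map C) = 0 →
        sg ((t₀ : ℤ) : ZMod p) f (∏ i, U i ^ m i) ^ M = 1 := by
  set x : ZMod p := ((t₀ : ℤ) : ZMod p) with hx
  have h1 : ∀ i, ∃ K : ℤ[X], Ex p f t₀ ((U i ^ M) ^ p) K 0 ∧
      sg x f (derivative f) * sg x f (K.map C) = 0 := by
    intro i
    obtain ⟨n1, n2⟩ := nilp f hf t₀ M b hMb (U i) (W i) (sg_unit _ f _ _ (huw i))
    rw [← map_pow] at n1 n2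
    obtain ⟨K, g, hK1, hK2⟩ := Ex_pth (f := f) (t₀ := t₀) hn2 n1
    refine ⟨K, hK1, ?_⟩
    rw [hK2]
    linear_combination (1 + (sg x f (U i ^ M) - 1) * g) * n2
  choose K hK1 hK2 using h1
  refine ⟨K, hK1, hK2, ?_⟩
  intro m hm
  obtain ⟨n1, n2⟩ := nilp f hf t₀ M b hMb (∏ i, U i ^ m i) (∏ i, W i ^ m i)
    (sg_unit _ f _ _ (prod_units U W huw m))
  rw [← map_pow] at n1 n2
  obtain ⟨E, g, hE1, hE2⟩ := Ex_pth (f := f) (t₀ := t₀) hn2 n1
  have h3 := Ex_prod (p := p) (f := f) (t₀ := t₀) Finset.univ (fun i => (U i ^ M) ^ p) K (fun _ => 0) hK1 m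
  have h4 : ∏ i, ((U i ^ M) ^ p) ^ m i = ((∏ i, U i ^ m i) ^ M) ^ p := by
    rw [← Finset.prod_pow, ← Finset.prod_pow]
    refine Finset.prod_congr rfl fun i _ => ?_
    rw [← pow_mul, ← pow_mul, ← pow_mul, ← pow_mul]
    congr 1
    ring
  rw [h4] at h3
  have h5 := Ex_unique hf h3 hE1
  rw [sg_natsum, hm, hE2] at h5
  have hnil : IsNilpotent ((sg x f ((∏ i, U i ^ m i) ^ M) - 1) * g) := by
    refine ⟨f.natDegree, ?_⟩
    rw [mul_pow, n1, zero_mul]
  have hunit : IsUnit (1 + (sg x f ((∏ i, U i ^ m i) ^ M) - 1) * g) := hnil.isUnit_one_add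
  have h7 := (hunit.mul_left_eq_zero).1 h5.symm
  rw [sub_eq_zero, map_pow] at h7
  exact h7

include hf huw hn2 in
/-- the adapted units -/
theorem step2 (M b0 : ℕ)
    (hMb : ∀ u w : AdjoinRoot (spec ((t₀ : ℤ) : ZMod p) f), u * w = 1 → (u ^ M - 1) ^ (p ^ b0) = 0) :
    ∃ (kap : Fin r → AdjoinRoot (spec ((t₀ : ℤ) : ZMod p) f)) (b : Fin r → (Fin r → ZMod p))
      (I : Fin r → Prop) (U' W' : Fin r → ℤ[X][X]) (E B : Fin r → ℤ[X]),
      (∀ c : Fin r → ZMod p, ∑ a, c a • b a = 0 → c = 0) ∧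
      (∀ c : Fin r → ZMod p, (∀ a, I a → c a = 0) →
        ∑ a, AdjoinRoot.of (spec ((t₀ : ℤ) : ZMod p) f) (c a) *
          ∑ i, AdjoinRoot.of (spec ((t₀ : ℤ) : ZMod p) f) (b a i) * kap i = 0 → c = 0) ∧
      (∀ a, f ∣ U' a * W' a - 1) ∧ (∀ a, Ex p f t₀ (U' a ^ M) (E a) (B a)) ∧
      (∀ a, I a → sg ((t₀ : ℤ) : ZMod p) f ((B a).map C) * sg ((t₀ : ℤ) : ZMod p) f (derivative f) =
        ∑ i, AdjoinRoot.of (spec ((t₀ : ℤ) : ZMod p) f) ((M : ZMod p) * b a i) *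
          sg ((t₀ : ℤ) : ZMod p) f (jac f (U i) * W i)) ∧
      (∀ a, ¬ I a → sg ((t₀ : ℤ) : ZMod p) f ((B a).map C) = 0 ∧
        sg ((t₀ : ℤ) : ZMod p) f ((E a).map C) =
          ∑ i, AdjoinRoot.of (spec ((t₀ : ℤ) : ZMod p) f) (b a i) * kap i ∧
        sg ((t₀ : ℤ) : ZMod p) f (derivative f) * sg ((t₀ : ℤ) : ZMod p) f ((E a).map C) = 0) := by
  classical
  set x : ZMod p := ((t₀ : ℤ) : ZMod p) with hx
  obtain ⟨K, hK1, hK2, hK3⟩ := step1 f hf t₀ U W huw hn2 M b0 hMb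
  obtain ⟨b, I, hb1, hb2, hb3⟩ := adapted_ring (AdjoinRoot.of (spec x f))
    (fun i => sg x f ((K i).map C))
  have hfam : ∀ a, ∃ (U' W' : ℤ[X][X]) (E B : ℤ[X]), f ∣ U' * W' - 1 ∧
      Ex p f t₀ (U' ^ M) E B ∧
      (I a → sg x f (B.map C) * sg x f (derivative f) = ∑ i, AdjoinRoot.of (spec x f)
        ((M : ZMod p) * b a i) * sg x f (jac f (U i) * W i)) ∧
      (¬ I a → sg x f (B.map C) = 0 ∧ sg x f (E.map C) =
        ∑ i, AdjoinRoot.of (spec x f) (b a i) * sg x f ((K i).map C) ∧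
        sg x f (derivative f) * sg x f (E.map C) = 0) := by
    intro a
    by_cases ha : I a
    · refine ⟨∏ i, U i ^ (b a i).val, ∏ i, W i ^ (b a i).val, ?_⟩
      have h1 : sg x f ((∏ i, U i ^ (b a i).val) ^ M) = 1 := by
        rw [map_pow]
        apply hK3
        have h2 := hb1 a ha
        rw [← h2]
        exact Finset.sum_congr rfl fun i _ => by rw [of_val]
      obtain ⟨E, B, hEB⟩ := exists_Ex (p := p) (f := f) (t₀ := t₀) _ h1
      refine ⟨E, B, prod_units U W huw _, hEB, ?_, fun h => absurd ha h⟩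
      intro _
      have h2 := Ex_jac hEB
      rw [← h2]
      have h3 : (∏ i, U i ^ (b a i).val) ^ M = ∏ i, U i ^ (M * (b a i).val) := by
        rw [← Finset.prod_pow]
        exact Finset.prod_congr rfl fun i _ => by rw [← pow_mul, mul_comm]
      rw [h3, J_prod f x U W huw (fun i => M * (b a i).val) Finset.univ, ← h3, h1, one_mul]
      refine Finset.sum_congr rfl fun i _ => ?_
      rw [map_mul (AdjoinRoot.of (spec x f)), map_natCast, of_val]
      push_cast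
      rfl
    · refine ⟨∏ i, U i ^ (p * (b a i).val), ∏ i, W i ^ (p * (b a i).val),
        ∑ i, (((b a i).val : ℕ) : ℤ[X]) * K i, 0, prod_units U W huw _, ?_, fun h => absurd h ha, ?_⟩
      · have h3 := Ex_prod (p := p) (f := f) (t₀ := t₀) Finset.univ (fun i => (U i ^ M) ^ p) K
          (fun _ => 0) hK1 (fun i => (b a i).val)
        have h4 : ∏ i, ((U i ^ M) ^ p) ^ (b a i).val = (∏ i, U i ^ (p * (b a i).val)) ^ M := by
          rw [← Finset.prod_pow]
          refine Finset.prod_congr rfl fun i _ => ?_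
          rw [← pow_mul, ← pow_mul, ← pow_mul]
          congr 1
          ring
        rw [h4] at h3
        simpa only [mul_zero, Finset.sum_const_zero] using h3
      · intro _
        refine ⟨by rw [Polynomial.map_zero, map_zero], ?_, ?_⟩
        · rw [sg_natsum]
          exact Finset.sum_congr rfl fun i _ => by rw [of_val]
        · rw [sg_natsum, Finset.mul_sum]
          refine Finset.sum_eq_zero fun i _ => ?_
          linear_combination (((b a i).val : ℕ) : AdjoinRoot (spec x f)) * hK2 i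
  choose U' W' E B h1 h2 h3 h4 using hfam
  exact ⟨_, b, I, U', W', E, B, hb2, hb3, h1, h2, h3, h4⟩

include hf hn0 huw hgood hn2 in
theorem class_final (hodd : p ≠ 2) :
    ∃ S : Finset ℤ, S.card ≤ r ∧ ∀ t : ℤ, (p : ℤ) ∣ t - t₀ → Bad p f.natDegree r f t → t ∈ S := by
  classical
  set x : ZMod p := ((t₀ : ℤ) : ZMod p) with hx
  obtain ⟨M, b0, hMp, hMb⟩ := exists_exp' (spec x f) (spec_monic _ hf)
    (by rw [show (spec x f).natDegree = f.natDegree from hf.natDegree_map _]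
        exact hn0)
  have hM0 : 0 < M := by
    rcases Nat.eq_zero_or_pos M with h | h
    · exact absurd (h ▸ dvd_zero p) hMp
    · exact h
  have hMz : (M : ZMod p) ≠ 0 := by
    rw [Ne, ZMod.natCast_eq_zero_iff]; exact hMp
  obtain ⟨kap, b, I, U', W', E0, B0, hb2, hb3, hUW', hEx0, hI0, hJ0⟩ :=
    step2 f hf t₀ U W huw hn2 M b0 hMb
  -- reduction of the degrees
  have hft : (spec (t₀ : ℤ) f).Monic := spec_monic _ hf
  have hftn : (spec (t₀ : ℤ) f).natDegree = f.natDegree := hf.natDegree_map _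
  have hmodd : ∀ (P : ℤ[X]) (j : ℕ), f.natDegree ≤ j → (P %ₘ spec (t₀ : ℤ) f).coeff j = 0 := by
    intro P j hj
    apply coeff_eq_zero_of_degree_lt
    refine (degree_modByMonic_lt _ hft).trans_le ?_
    rw [degree_eq_natDegree hft.ne_zero, hftn]
    exact_mod_cast hj
  have hmods : ∀ P : ℤ[X], sg x f ((P %ₘ spec (t₀ : ℤ) f).map C) = sg x f (P.map C) := by
    intro P
    have e1 : P = (P %ₘ spec (t₀ : ℤ) f) + spec (t₀ : ℤ) f * (P /ₘ spec (t₀ : ℤ) f) :=
      (Polynomial.modByMonic_add_div _ _).symm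
    conv_rhs => rw [e1]
    rw [Polynomial.map_add, Polynomial.map_mul, map_add, map_mul]
    have e2 : sg x f ((spec (t₀ : ℤ) f).map C) = 0 := by
      rw [sg_apply, spec_mapC', spec_map]
      exact AdjoinRoot.mk_self
    rw [e2, zero_mul, add_zero]
  obtain ⟨D, hD⟩ := exists_D (AdjoinRoot.of (spec x f)) (n := f.natDegree)
    (AdjoinRoot.mk (spec x f) X) (sg x f (derivative f)) (fun i => sg x f (jac f (U i) * W i)) kap
    hgood (M : ZMod p) hMz b I hb2 hb3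
    (fun a => sg x f ((E0 a %ₘ spec (t₀ : ℤ) f).map C))
    (fun a => sg x f ((B0 a %ₘ spec (t₀ : ℤ) f).map C))
    (fun a j => (((E0 a %ₘ spec (t₀ : ℤ) f).coeff j : ℤ) : ZMod p))
    (fun a j => (((B0 a %ₘ spec (t₀ : ℤ) f).coeff j : ℤ) : ZMod p))
    (fun a => sg_sum f x _ f.natDegree hn0 (hmodd _))
    (fun a => sg_sum f x _ f.natDegree hn0 (hmodd _))
    (fun a ha => by rw [hmods]; exact hI0 a ha)
    (fun a ha => by rw [hmods, hmods]; exact hJ0 a ha)
  exact class_all hodd f hf t₀ U' W' hUW' hM0 (fun a => E0 a %ₘ spec (t₀ : ℤ) f)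
    (fun a => B0 a %ₘ spec (t₀ : ℤ) f) (fun a j hj => hmodd _ j hj) (fun a j hj => hmodd _ j hj)
    (fun a => Ex_mod (hEx0 a)) D hD

end main

end Pool.Agent.W5h5.LD
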