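import Mathlib
import Pool.Agent.W5h5.LD.Ring
import Pool.Agent.W5h5.LD.Poly
import Pool.Agent.H33R4.PartB

/-!
# From the failure of Leopoldt's conjecture to relations modulo powers of `p`
-/

set_option autoImplicit false

namespace Pool.Agent.W5h5.LD

open Polynomial NumberField Pool.Agent.H33R4 Filter Topology
open Pool.Agent.H637R2.Leo (Leopoldt)

variable {p : ℕ} [hp : Fact p.Prime]

/-- an element of `ℤ[θ]` which is close to one in the ring of integers is close to one in `ℤ[θ]` -/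
theorem exists_c1 {g : ℤ[X]} {K : Type} [Field K] [NumberField K] {θ : K} (hg : g.Monic)
    (h : aeval θ g = 0) (hd : Module.finrank ℚ K = g.natDegree)
    (ht : IntermediateField.adjoin ℚ {θ} = ⊤) :
    ∃ c0 : ℕ, ∀ (N : ℕ) (ρ : AdjoinRoot g), ((p : ℕ) : 𝓞 K) ^ (N + c0) ∣ PB.ps hg h ρ - 1 →
      (p : AdjoinRoot g) ^ N ∣ ρ - 1 := by
  obtain ⟨m, hm0, hm⟩ := PB.exists_m hg h ht
  obtain ⟨c0, m', hm', hmm⟩ : ∃ (c0 : ℕ) (m' : ℤ), ¬ (p : ℤ) ∣ m' ∧ m = (p : ℤ) ^ c0 * m' := by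
    have hfin : FiniteMultiplicity (p : ℤ) m := by
      rw [Int.finiteMultiplicity_iff]
      exact ⟨by simpa using hp.out.ne_one, hm0⟩
    obtain ⟨m', h1, h2⟩ := hfin.exists_eq_pow_mul_and_not_dvd
    exact ⟨_, m', h2, h1⟩
  refine ⟨c0, fun N ρ hρ => ?_⟩
  obtain ⟨x, hx⟩ := hρ
  obtain ⟨y, hy⟩ := hm x
  have h1 : (m : AdjoinRoot g) * (ρ - 1) = (p : AdjoinRoot g) ^ (N + c0) * y := by
    apply PB.ps_inj hg h hd ht
    rw [map_mul, map_mul, map_sub, map_one, map_intCast, map_pow, map_natCast, hx, hy]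
    ring
  have h2 : (p : AdjoinRoot g) ^ c0 * ((m' : AdjoinRoot g) * (ρ - 1) - (p : AdjoinRoot g) ^ N * y) = 0 := by
    rw [hmm] at h1
    push_cast at h1
    rw [pow_add] at h1
    linear_combination h1
  have h3 := sub_eq_zero.1 (adj_tf_pow g hg c0 _ h2)
  have hco : IsCoprime ((p : ℤ) ^ N) m' := by
    apply IsCoprime.pow_left
    rw [Int.isCoprime_iff_gcd_eq_one]
    have hpr : Prime (p : ℤ) := Nat.prime_iff_prime_int.1 hp.out
    exact (Int.isCoprime_iff_gcd_eq_one).1 ((Prime.coprime_iff_not_dvd hpr).2 hm')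
  obtain ⟨a, b, hab⟩ := hco
  refine ⟨a * (ρ - 1) + b * y, ?_⟩
  have h4 := congrArg (fun z : ℤ => (z : AdjoinRoot g)) hab
  simp only [Int.cast_add, Int.cast_mul, Int.cast_pow, Int.cast_natCast, Int.cast_one] at h4
  linear_combination (-(ρ - 1)) * h4 + (b : AdjoinRoot g) * h3

/-- a nonzero `p`-adic vector as a power of `p` times a primitive vector -/
theorem exists_prim {r : ℕ} (w : Fin r → ℤ_[p]) (hw : w ≠ 0) :
    ∃ (a : ℕ) (i : Fin r), (∀ j, (p : ℤ_[p]) ^ a ∣ w j) ∧ ¬ (p : ℤ_[p]) ^ (a + 1) ∣ w i := by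
  classical
  obtain ⟨i0, hi0⟩ := Function.ne_iff.1 hw
  have hex : ∃ a : ℕ, ∃ i, ¬ (p : ℤ_[p]) ^ (a + 1) ∣ w i := by
    refine ⟨(w i0).valuation, i0, ?_⟩
    intro hd
    have h1 : w i0 ∈ Ideal.span {(p : ℤ_[p]) ^ ((w i0).valuation + 1)} :=
      Ideal.mem_span_singleton.2 hd
    rw [PadicInt.mem_span_pow_iff_le_valuation _ hi0] at h1
    omega
  obtain ⟨i, hi⟩ := Nat.find_spec hex
  refine ⟨Nat.find hex, i, ?_, hi⟩
  intro j
  rcases Nat.eq_zero_or_pos (Nat.find hex) with h0 | h0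
  · rw [h0, pow_zero]; exact one_dvd _
  · have h1 := Nat.find_min hex (m := Nat.find hex - 1) (by omega)
    push Not at h1
    have h2 := h1 j
    rwa [Nat.sub_add_cancel h0] at h2

theorem int_dvd_of_padic {z : ℤ} {a : ℕ} (h : (p : ℤ_[p]) ^ a ∣ (z : ℤ_[p])) : (p : ℤ) ^ a ∣ z := by
  have := (PadicInt.pow_p_dvd_int_iff a z).1 h
  exact_mod_cast this

/-- **The relations.** If Leopoldt's conjecture fails at `p` for `K = ℚ(θ)`, then for every `N`
there is an exponent vector which is not divisible by `p` such that the `M`-th power of the product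
of the units is one modulo `p ^ N`. -/
theorem exists_rel_int {g : ℤ[X]} {K : Type} [Field K] [NumberField K] {θ : K} (hg : g.Monic)
    (h : aeval θ g = 0) (hd : Module.finrank ℚ K = g.natDegree)
    (ht : IntermediateField.adjoin ℚ {θ} = ⊤) {r : ℕ} (hr : Units.rank K = r)
    (u : Fin r → (AdjoinRoot g)ˣ) {n : ℕ} (hn : n + 2 ≤ p) (M : ℕ)
    (hnil : ∀ x : (AdjoinRoot g)ˣ, (p : AdjoinRoot g) ∣ ((x : AdjoinRoot g) ^ M - 1) ^ n)
    (hL : ¬ Leopoldt K p) (N : ℕ) :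
    ∃ m : Fin r → ℤ, (∃ i, ¬ (p : ℤ) ∣ m i) ∧
      (p : AdjoinRoot g) ^ N ∣ (((∏ i, u i ^ m i) ^ M : (AdjoinRoot g)ˣ) : AdjoinRoot g) - 1 := by
  classical
  by_contra hcon
  push Not at hcon
  apply hL
  obtain ⟨c0, hc0⟩ := exists_c1 (p := p) hg h hd ht
  refine PB.leopoldt_of hr p (fun i => Units.map (PB.ps hg h : AdjoinRoot g →* 𝓞 K) (u i)) ?_
  intro c w hlim hdiv
  by_contra hne
  obtain ⟨a, i, ha, hi⟩ := exists_prim w hne
  have hev : ∀ᶠ k in atTop, ∀ j, (p : ℤ_[p]) ^ (a + 1) ∣ ((c k j : ℤ) : ℤ_[p]) - w j :=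
    Filter.eventually_all.2 fun j => PB.ev_dvd (hlim j) (a + 1)
  obtain ⟨k, hk1, hk2⟩ := (hev.and (hdiv ((N + a) + c0))).exists
  -- the integers
  have hdvd : ∀ j, (p : ℤ) ^ a ∣ c k j := by
    intro j
    apply int_dvd_of_padic
    have h1 := (pow_dvd_pow (p : ℤ_[p]) (Nat.le_succ a)).trans (hk1 j)
    have := dvd_add h1 (ha j)
    simpa using this
  choose m hm using hdvd
  have hmi : ¬ (p : ℤ) ∣ m i := by
    rintro ⟨q, hq⟩
    apply hi
    have h1 := hk1 i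
    have h2 : (p : ℤ_[p]) ^ (a + 1) ∣ ((c k i : ℤ) : ℤ_[p]) := by
      rw [hm i, hq]
      push_cast
      rw [pow_succ]
      exact mul_dvd_mul_left _ (dvd_mul_right _ _)
    have := dvd_sub h2 h1
    simpa using this
  apply hcon m ⟨i, hmi⟩
  set ρ : (AdjoinRoot g)ˣ := ∏ j, u j ^ m j with hρ
  have h1 : (∏ j, (Units.map (PB.ps hg h : AdjoinRoot g →* 𝓞 K) (u j)) ^ c k j : (𝓞 K)ˣ) =
      Units.map (PB.ps hg h : AdjoinRoot g →* 𝓞 K) (ρ ^ (p ^ a)) := by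
    rw [hρ, ← Finset.prod_pow, map_prod]
    refine Finset.prod_congr rfl fun j _ => ?_
    rw [map_pow, map_zpow, hm j, mul_comm, zpow_mul]
    norm_cast
  rw [h1] at hk2
  have h2 : (p : AdjoinRoot g) ^ (N + a) ∣ ((ρ ^ (p ^ a) : (AdjoinRoot g)ˣ) : AdjoinRoot g) - 1 :=
    hc0 (N + a) ((ρ ^ (p ^ a) : (AdjoinRoot g)ˣ) : AdjoinRoot g) hk2
  have h3 : (p : AdjoinRoot g) ^ (N + a) ∣ ((ρ : AdjoinRoot g) ^ M) ^ (p ^ a) - 1 := by
    refine h2.trans ?_
    rw [Units.val_pow_eq_pow_val, ← pow_mul, mul_comm, pow_mul]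
    exact sub_one_dvd_pow_sub_one _ M
  have h4 := pow_p_inj' hp.out (fun b hb => adj_tf g hg b hb) hn a ((ρ : AdjoinRoot g) ^ M)
    (hnil ρ) N h3
  rw [Units.val_pow_eq_pow_val]
  exact h4

/-- the same with natural numbers as exponents -/
theorem exists_rel_nat {g : ℤ[X]} {K : Type} [Field K] [NumberField K] {θ : K} (hg : g.Monic)
    (h : aeval θ g = 0) (hd : Module.finrank ℚ K = g.natDegree)
    (ht : IntermediateField.adjoin ℚ {θ} = ⊤) {r : ℕ} (hr : Units.rank K = r)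
    (u : Fin r → (AdjoinRoot g)ˣ) {n : ℕ} (hn : n + 2 ≤ p) (M : ℕ)
    (hnil : ∀ x : (AdjoinRoot g)ˣ, (p : AdjoinRoot g) ∣ ((x : AdjoinRoot g) ^ M - 1) ^ n)
    (hL : ¬ Leopoldt K p) (N : ℕ) :
    ∃ m : Fin r → ℕ, (∃ i, ¬ p ∣ m i) ∧
      (p : AdjoinRoot g) ^ N ∣ (∏ i, (u i : AdjoinRoot g) ^ (M * m i)) - 1 := by
  classical
  obtain ⟨m, ⟨i, hi⟩, hm⟩ := exists_rel_int hg h hd ht hr u hn M hnil hL N
  have hp0 : (0 : ℤ) < p := by exact_mod_cast hp.out.pos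
  -- the shift
  have hk : ∀ j, ∃ k : ℕ, 0 ≤ m j + (p : ℤ) ^ (N + 1) * k := by
    intro j
    refine ⟨(m j).natAbs, ?_⟩
    have h1 : (1 : ℤ) ≤ (p : ℤ) ^ (N + 1) := by exact_mod_cast Nat.one_le_pow _ _ hp.out.pos
    have h2 : -(m j) ≤ ((m j).natAbs : ℤ) := by
      rw [Int.natCast_natAbs]; exact neg_le_abs _
    nlinarith [Int.natCast_nonneg (m j).natAbs]
  choose k hk using hk
  set m' : Fin r → ℕ := fun j => (m j + (p : ℤ) ^ (N + 1) * k j).toNat with hm'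
  have hm'' : ∀ j, ((m' j : ℕ) : ℤ) = m j + (p : ℤ) ^ (N + 1) * k j := fun j =>
    Int.toNat_of_nonneg (hk j)
  refine ⟨m', ⟨i, ?_⟩, ?_⟩
  · intro hd
    apply hi
    have h1 : (p : ℤ) ∣ ((m' i : ℕ) : ℤ) := by exact_mod_cast hd
    rw [hm''] at h1
    have h2 : (p : ℤ) ∣ (p : ℤ) ^ (N + 1) * k i := Dvd.dvd.mul_right (dvd_pow_self _ (by omega)) _
    have := dvd_sub h1 h2
    simpa using this
  · -- the powers of the units
    have hunit : (∏ j, u j ^ (M * m' j) : (AdjoinRoot g)ˣ) =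
        (∏ j, u j ^ m j) ^ M * (((∏ j, u j ^ k j) ^ M) ^ p) ^ (p ^ N) := by
      rw [← pow_mul, ← pow_mul, ← Finset.prod_pow, ← Finset.prod_pow, ← Finset.prod_mul_distrib]
      refine Finset.prod_congr rfl fun j _ => ?_
      rw [← pow_mul, ← zpow_natCast, ← zpow_natCast (u j ^ m j), ← zpow_natCast (u j) (k j * _),
        ← zpow_mul, ← zpow_add]
      congr 1
      push_cast
      rw [hm'']
      ring
    have hval : (∏ j, (u j : AdjoinRoot g) ^ (M * m' j)) =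
        ((∏ j, u j ^ (M * m' j) : (AdjoinRoot g)ˣ) : AdjoinRoot g) := by
      push_cast
      rfl
    rw [hval, hunit, Units.val_mul]
    set X1 : AdjoinRoot g := (((∏ j, u j ^ m j) ^ M : (AdjoinRoot g)ˣ) : AdjoinRoot g) with hX1
    set y : (AdjoinRoot g)ˣ := ∏ j, u j ^ k j with hy
    have h5 : (p : AdjoinRoot g) ∣ ((y : AdjoinRoot g) ^ M) ^ p - 1 := by
      obtain ⟨q, hq⟩ := one_add_pow' hp.out hn _ (hnil y)
      rw [add_sub_cancel] at hq
      rw [hq]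
      refine ⟨((y : AdjoinRoot g) ^ M - 1) * (1 + ((y : AdjoinRoot g) ^ M - 1) * q), by ring⟩
    have h6 : (p : AdjoinRoot g) ^ N ∣ (((y : AdjoinRoot g) ^ M) ^ p) ^ (p ^ N) - 1 := by
      have h7 := dvd_sub_pow_of_dvd_sub (p := p) h5 N
      rw [one_pow] at h7
      exact (pow_dvd_pow _ (Nat.le_succ N)).trans h7
    have h8 : ((((y ^ M) ^ p) ^ (p ^ N) : (AdjoinRoot g)ˣ) : AdjoinRoot g) =
        (((y : AdjoinRoot g) ^ M) ^ p) ^ (p ^ N) := by
      push_cast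
      rfl
    rw [h8]
    have h9 : X1 * (((y : AdjoinRoot g) ^ M) ^ p) ^ (p ^ N) - 1 =
        (X1 - 1) * (((y : AdjoinRoot g) ^ M) ^ p) ^ (p ^ N) +
          ((((y : AdjoinRoot g) ^ M) ^ p) ^ (p ^ N) - 1) := by ring
    rw [h9]
    exact dvd_add (Dvd.dvd.mul_right hm _) h6

end Pool.Agent.W5h5.LD
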