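import Mathlib
import Pool.Agent.W5h5.LD.Count
import Pool.Agent.W5h5.LD.Rel
import Pool.Agent.R89.UP.Count

/-!
# Exceptional integers give relations
-/

set_option autoImplicit false

namespace Pool.Agent.W5h5.LD

open Polynomial NumberField Pool.Agent.H33R4 Pool.Agent.R89.UP

variable {p : ℕ} [hp : Fact p.Prime]

theorem bad_rel (f : ℤ[X][X]) (hf : f.Monic) (t₀ t : ℤ) (ht : (p : ℤ) ∣ t - t₀) {r : ℕ}
    (U W : Fin r → ℤ[X][X]) (huw : ∀ i, f ∣ U i * W i - 1) (M b : ℕ)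
    (hMb : ∀ u w : AdjoinRoot (spec ((t₀ : ℤ) : ZMod p) f), u * w = 1 → (u ^ M - 1) ^ (p ^ b) = 0)
    (hn : f.natDegree + 2 ≤ p) (hB : Bad p f.natDegree r f t) (N : ℕ) :
    ∃ m : Fin r → ℕ, (∃ i, ¬ p ∣ m i) ∧ (p : AdjoinRoot (spec (t : ℤ) f)) ^ N ∣
        AdjoinRoot.mk (spec (t : ℤ) f) (spec (t : ℤ) (PP U M m)) - 1 := by
  obtain ⟨K, _, _, θ, hθ, hd, hgen, hr, hL⟩ := hB
  have hcast : ((t₀ : ℤ) : ZMod p) = ((t : ℤ) : ZMod p) := by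
    symm
    rw [← sub_eq_zero, ← Int.cast_sub, ZMod.intCast_zmod_eq_zero_iff_dvd]
    exact ht
  rw [hcast] at hMb
  have hu : ∀ i, sg (t : ℤ) f (U i) * sg (t : ℤ) f (W i) = 1 := fun i => sg_unit _ f _ _ (huw i)
  let u : Fin r → (AdjoinRoot (spec (t : ℤ) f))ˣ := fun i =>
    ⟨sg (t : ℤ) f (U i), sg (t : ℤ) f (W i), hu i, by rw [mul_comm]; exact hu i⟩
  have hnil : ∀ x : (AdjoinRoot (spec (t : ℤ) f))ˣ,
      (p : AdjoinRoot (spec (t : ℤ) f)) ∣ ((x : AdjoinRoot (spec (t : ℤ) f)) ^ M - 1) ^ f.natDegree := by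
    intro x
    obtain ⟨P, hP⟩ := sg_surj t f (x : AdjoinRoot (spec (t : ℤ) f))
    obtain ⟨Q, hQ⟩ := sg_surj t f ((x⁻¹ : (AdjoinRoot (spec (t : ℤ) f))ˣ) : AdjoinRoot (spec (t : ℤ) f))
    have h1 := (nilp f hf t M b hMb P Q (by
      rw [← rd_sg, ← rd_sg, hP, hQ, ← map_mul, Units.mul_inv, map_one])).1
    apply dvd_of_rd
    rw [map_pow, map_sub, map_pow, map_one, ← hP, rd_sg]
    exact h1
  have hfn : (spec (t : ℤ) f).natDegree = f.natDegree := hf.natDegree_map _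
  obtain ⟨m, hm1, hm2⟩ := exists_rel_nat (spec_monic _ hf) hθ (by rw [hd, hfn]) hgen hr u hn M hnil hL N
  refine ⟨m, hm1, ?_⟩
  have h3 : AdjoinRoot.mk (spec (t : ℤ) f) (spec (t : ℤ) (PP U M m)) =
      ∏ i, (u i : AdjoinRoot (spec (t : ℤ) f)) ^ (M * m i) := by
    rw [← sg_apply]
    unfold PP
    rw [map_prod]
    exact Finset.prod_congr rfl fun i _ => by rw [map_pow]
  rw [h3]
  exact hm2

/-- the classes modulo `p²` which contain exceptional integers -/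
theorem bad_classes (f : ℤ[X][X]) (hf : f.Monic) (hn0 : 0 < f.natDegree) (t₀ : ℤ) {r : ℕ}
    (U W : Fin r → ℤ[X][X]) (huw : ∀ i, f ∣ U i * W i - 1)
    (hgood : ∀ c : Fin r → ZMod p, ∑ i, AdjoinRoot.of (spec ((t₀ : ℤ) : ZMod p) f) (c i) *
      sg ((t₀ : ℤ) : ZMod p) f (jac f (U i) * W i) = 0 → c = 0)
    (hn : f.natDegree + 2 ≤ p) (hn2 : 2 * f.natDegree ≤ p) :
    ∃ S : Finset ℕ, S.card ≤ r ∧ ∀ t, (p : ℤ) ∣ t - t₀ → Bad p f.natDegree r f t →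
      ∃ s ∈ S, (p : ℤ) ^ 2 ∣ t - (t₀ + p * (s : ℤ)) := by
  obtain ⟨M, b, hMp, hMb⟩ := exists_exp' (spec ((t₀ : ℤ) : ZMod p) f) (spec_monic _ hf)
    (by rw [show (spec ((t₀ : ℤ) : ZMod p) f).natDegree = f.natDegree from hf.natDegree_map _]
        exact hn0)
  exact count_classes f hf t₀ U W huw M b hMp hMb hgood hn2 (Bad p f.natDegree r f)
    (fun t ht hB => bad_rel f hf t₀ t ht U W huw M b hMb hn hB 2)

end Pool.Agent.W5h5.LD
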