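import Mathlib
import Pool.Agent.W5h5.LD.Key
import Pool.Agent.R89.UP.Main

/-!
# The logarithmic derivatives of the units of the product families modulo `p`
-/

set_option autoImplicit false

namespace Pool.Agent.W5h5.LD

open Polynomial Pool.Agent.H33R4 Pool.Agent.R89.UP

section Z

variable {r₁ r₂ : ℕ} (a : Fin r₁ → ℤ) (b c : Fin r₂ → ℤ)

/-- the degree -/
def nn (r₁ r₂ : ℕ) : ℕ := ∑ i : Fin r₁ ⊕ Fin r₂, dg i

/-- `T` times the logarithmic derivative -/
noncomputable def ZZ (i : Fin r₁ ⊕ Fin r₂) : ℤ[X][X] :=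
  (dg i : ℤ[X][X]) * derivative (∏ l, fac a b c l) -
    (nn r₁ r₂ : ℤ[X][X]) * (derivative (fac a b c i) * ∏ l ∈ Finset.univ.erase i, fac a b c l)

theorem ZZ_id (i : Fin r₁ ⊕ Fin r₂) :
    C X * (jac (fam a b c) (fac a b c i) * ∏ l ∈ Finset.univ.erase i, fac a b c l) =
      (∏ l, fac a b c l) * ZZ a b c i := by
  have hder : derivative (fam a b c) = derivative (∏ l, fac a b c l) := by
    unfold fam
    rw [derivative_sub, derivative_one, sub_zero]
  have hdT : dT (fam a b c) = dT (∏ l, fac a b c l) := by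
    unfold fam
    rw [dT_sub, dT_one, sub_zero]
  have e1 := fac_euler a b c i
  have e2 := prod_euler a b c Finset.univ
  have e3 : fac a b c i * ∏ l ∈ Finset.univ.erase i, fac a b c l = ∏ l, fac a b c l :=
    Finset.mul_prod_erase _ _ (Finset.mem_univ i)
  unfold jac ZZ nn
  rw [hder, hdT]
  linear_combination (derivative (∏ l, fac a b c l) * ∏ l ∈ Finset.univ.erase i, fac a b c l) * e1 -
    (derivative (fac a b c i) * ∏ l ∈ Finset.univ.erase i, fac a b c l) * e2 +
      (dg i : ℤ[X][X]) * derivative (∏ l, fac a b c l) * e3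

theorem natDegree_prod_fac :
    (∏ l, fac a b c l).natDegree = (fam a b c).natDegree := (fam_natDegree a b c).symm

theorem spec_prod {A : Type} [CommRing A] (x : A) {ι : Type} (s : Finset ι) (g : ι → ℤ[X][X]) :
    spec x (∏ i ∈ s, g i) = ∏ i ∈ s, spec x (g i) := by
  unfold spec
  rw [Polynomial.map_prod]

theorem spec_natCast {A : Type} [CommRing A] (x : A) (m : ℕ) : spec x (m : ℤ[X][X]) = m := by
  unfold spec
  rw [Polynomial.map_natCast]

theorem spec_C {A : Type} [CommRing A] (x : A) (h : ℤ[X]) :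
    spec x (C h) = C (h.eval₂ (Int.castRingHom A) x) := by
  unfold spec
  rw [Polynomial.map_C]
  rfl

/-- the degree of `Z` is less than the degree of the family -/
theorem ZZ_degree {A : Type} [CommRing A] (x : A) (i : Fin r₁ ⊕ Fin r₂) :
    (spec x (ZZ a b c i)).natDegree < (fam a b c).natDegree := by
  set F := ∏ l, fac a b c l with hF
  have hFn : F.natDegree = (fam a b c).natDegree := natDegree_prod_fac a b c
  have hmW : (∏ l ∈ Finset.univ.erase i, fac a b c l).Monic :=
    Polynomial.monic_prod_of_monic _ _ (fun i _ => (fac_monic a b c i).1)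
  have h1 : F.natDegree = (fac a b c i).natDegree + (∏ l ∈ Finset.univ.erase i, fac a b c l).natDegree := by
    rw [hF, ← Finset.mul_prod_erase _ _ (Finset.mem_univ i), (fac_monic a b c i).1.natDegree_mul hmW]
  have h2 := Polynomial.natDegree_pos_iff_degree_pos.2 (fac_monic a b c i).2
  have h4 : (ZZ a b c i).natDegree ≤ F.natDegree - 1 := by
    unfold ZZ
    refine (natDegree_sub_le _ _).trans (max_le ?_ ?_)
    · refine natDegree_mul_le.trans ?_
      rw [natDegree_natCast, zero_add]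
      exact natDegree_derivative_le F
    · refine natDegree_mul_le.trans ?_
      rw [natDegree_natCast, zero_add]
      refine natDegree_mul_le.trans ?_
      have h3 := natDegree_derivative_le (fac a b c i)
      omega
  have h5 : (spec x (ZZ a b c i)).natDegree ≤ (ZZ a b c i).natDegree := natDegree_map_le
  omega

/-- evaluation at `T = 1`, `Y = α` -/
noncomputable def Ev (α : ℂ) : ℤ[X] →+* ℂ := Polynomial.eval₂RingHom (Int.castRingHom ℂ) α

theorem Ev_spec (α : ℂ) (P : ℤ[X][X]) : Ev α (spec (1 : ℤ) P) = (Ph α P).eval 1 := by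
  have : (Ev α).comp (Polynomial.mapRingHom (eval₂RingHom (Int.castRingHom ℤ) 1)) =
      (Polynomial.evalRingHom 1).comp (Ph α) := by
    apply Polynomial.ringHom_ext'
    · apply Polynomial.ringHom_ext'
      · exact RingHom.ext_int _ _
      · simp [Ev, Ph]
    · simp [Ev, Ph]
  exact congrArg (fun φ => φ P) this

theorem Ev_self (hc : ∀ k, 0 < c k) (m : Fin r₁ ⊕ Fin r₂) :
    Ev (aa a b c (jm m)) (spec (1 : ℤ) (fac a b c m)) = 0 := by
  rw [Ev_spec, Ph_self a b c hc m, eval_zero]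

theorem Ev_ne (ha : Function.Injective a) (hbc : Function.Injective (fun k => (b k, c k)))
    (hc : ∀ k, 0 < c k) (m l : Fin r₁ ⊕ Fin r₂) (hl : l ≠ m) :
    Ev (aa a b c (jm m)) (spec (1 : ℤ) (fac a b c l)) ≠ 0 := by
  have h1 := Ph_ne a b c ha hbc hc m l hl
  rw [Ev_spec]
  rcases l with i | k
  · rw [Ph_fac_inl] at h1 ⊢
    intro h2
    apply h1
    simp only [eval_mul, eval_C, eval_X, mul_one] at h2
    rw [h2, map_zero, zero_mul]
  · rw [Ph_fac_inr] at h1 ⊢
    intro h2
    apply h1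
    simp only [eval_mul, eval_C, eval_X, mul_one, eval_pow, one_pow] at h2
    rw [h2, map_zero, zero_mul]

theorem Ev_der (ha : Function.Injective a) (hbc : Function.Injective (fun k => (b k, c k)))
    (hc : ∀ k, 0 < c k) (m : Fin r₁ ⊕ Fin r₂) :
    Ev (aa a b c (jm m)) (spec (1 : ℤ) (derivative (fac a b c m))) ≠ 0 := by
  have h1 := Ph_der a b c ha hbc hc m
  rw [Ev_spec]
  rcases m with i | k
  · have h2 : derivative (fac a b c (Sum.inl i)) = 1 := by
      simp only [fac, derivative_sub, derivative_X, derivative_C, sub_zero]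
    rw [h2, map_one, eval_one]
    exact one_ne_zero
  · have h0 : derivative (fac a b c (Sum.inr k)) = 2 * (X - C (C (b k) * X)) := by
      simp only [fac, derivative_add, derivative_C, add_zero, pow_two, derivative_mul,
        derivative_sub, derivative_X, sub_zero]
      ring
    rw [h0, map_mul, Ph_lin, map_ofNat] at h1 ⊢
    intro h2
    apply h1
    simp only [eval_mul, eval_C, eval_X, mul_one, eval_ofNat] at h2
    have h3 := (mul_eq_zero.1 h2).resolve_left two_ne_zero
    rw [h3, map_zero, zero_mul, mul_zero]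

/-- independence over `ℤ` -/
theorem ZZ_indep (ha : Function.Injective a) (hbc : Function.Injective (fun k => (b k, c k)))
    (hc : ∀ k, 0 < c k) (i₀ : Fin r₁ ⊕ Fin r₂) {r : ℕ}
    (σ : Fin r → Fin r₁ ⊕ Fin r₂) (hσ : Function.Injective σ) (hσ0 : ∀ i, σ i ≠ i₀)
    (g : Fin r → ℤ) (hg : ∑ i, C (g i) * spec (1 : ℤ) (ZZ a b c (σ i)) = 0) : g = 0 := by
  classical
  set n : ℕ := nn r₁ r₂ with hn
  have hev : ∀ m : Fin r₁ ⊕ Fin r₂, ∃ ε : ℂ, ε ≠ 0 ∧
      ∑ i, (g i : ℂ) * ((dg (σ i) : ℂ) * ε - (n : ℂ) * (if σ i = m then ε else 0)) = 0 := by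
    intro m
    set φ := (Ev (aa a b c (jm m))) with hφ
    let W : Fin r₁ ⊕ Fin r₂ → ℤ[X][X] := fun m => ∏ l ∈ Finset.univ.erase m, fac a b c l
    have hFW : ∀ m, fac a b c m * W m = ∏ l, fac a b c l :=
      fun m => Finset.mul_prod_erase _ _ (Finset.mem_univ m)
    have h0 : φ (spec 1 (fac a b c m)) = 0 := Ev_self a b c hc m
    refine ⟨φ (spec 1 (derivative (fac a b c m))) * φ (spec 1 (W m)), ?_, ?_⟩
    · refine mul_ne_zero (Ev_der a b c ha hbc hc m) ?_
      rw [spec_prod, map_prod]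
      exact Finset.prod_ne_zero_iff.2 fun l hl =>
        Ev_ne a b c ha hbc hc m l (Finset.ne_of_mem_erase hl)
    · have h1 := congrArg φ hg
      rw [map_sum, map_zero] at h1
      refine Eq.trans (Finset.sum_congr rfl fun i _ => ?_) h1
      have h2 : φ (spec 1 (derivative (∏ l, fac a b c l))) =
          φ (spec 1 (derivative (fac a b c m))) * φ (spec 1 (W m)) := by
        rw [← hFW m, derivative_mul, spec_add, map_add, spec_mul, spec_mul, map_mul, map_mul, h0,
          zero_mul, add_zero]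
      have h3 : φ (spec 1 (derivative (fac a b c (σ i)) * W (σ i))) =
          if σ i = m then φ (spec 1 (derivative (fac a b c m))) * φ (spec 1 (W m)) else 0 := by
        split_ifs with h4
        · rw [h4, spec_mul, map_mul]
        · rw [spec_mul, map_mul]
          have h5 : φ (spec 1 (W (σ i))) = 0 := by
            rw [spec_prod, map_prod]
            exact Finset.prod_eq_zero (Finset.mem_erase.2 ⟨fun h => h4 h.symm, Finset.mem_univ m⟩) h0
          rw [h5, mul_zero]
      have h6 : φ (C (g i)) = (g i : ℂ) := by simp [hφ, Ev]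
      unfold ZZ
      rw [map_mul, spec_sub, spec_mul, spec_mul, map_sub, map_mul φ (spec 1 (dg (σ i) : ℤ[X][X])),
        map_mul φ (spec 1 ((nn r₁ r₂ : ℕ) : ℤ[X][X])), h2, h3, spec_natCast, spec_natCast,
        map_natCast, map_natCast, h6]
  obtain ⟨ε0, hε0, h0⟩ := hev i₀
  have hs : ∑ i, (g i : ℂ) * (dg (σ i) : ℂ) = 0 := by
    have h1 : ∑ i, (g i : ℂ) * ((dg (σ i) : ℂ) * ε0 -
        (n : ℂ) * (if σ i = i₀ then ε0 else 0)) =
        (∑ i, (g i : ℂ) * (dg (σ i) : ℂ)) * ε0 := by
      rw [Finset.sum_mul]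
      refine Finset.sum_congr rfl fun i _ => ?_
      rw [if_neg (hσ0 i)]
      ring
    rw [h1] at h0
    exact (mul_eq_zero.1 h0).resolve_right hε0
  have hnpos : n ≠ 0 := by
    rw [hn]
    have : dg i₀ ≤ ∑ i : Fin r₁ ⊕ Fin r₂, dg i :=
      Finset.single_le_sum (fun _ _ => Nat.zero_le _) (Finset.mem_univ i₀)
    have h2 : 1 ≤ dg i₀ := by rcases i₀ with i | k <;> simp [dg]
    unfold nn
    omega
  funext k
  obtain ⟨ε, hε, h1⟩ := hev (σ k)
  have h2 : ∑ i, (g i : ℂ) * ((dg (σ i) : ℂ) * ε -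
      (n : ℂ) * (if σ i = σ k then ε else 0)) =
      (∑ i, (g i : ℂ) * (dg (σ i) : ℂ)) * ε - (n : ℂ) * ((g k : ℂ) * ε) := by
    have h3 : ∀ i, (g i : ℂ) * ((dg (σ i) : ℂ) * ε -
        (n : ℂ) * (if σ i = σ k then ε else 0)) =
        ((g i : ℂ) * (dg (σ i) : ℂ)) * ε -
          (if i = k then (n : ℂ) * ((g k : ℂ) * ε) else 0) := by
      intro i
      by_cases hik : i = k
      · rw [if_pos hik, hik, if_pos rfl]
        ring
      · rw [if_neg hik, if_neg (fun h => hik (hσ h))]
        ring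
    rw [Finset.sum_congr rfl fun i _ => h3 i, Finset.sum_sub_distrib, ← Finset.sum_mul]
    simp
  rw [h2, hs, zero_mul, zero_sub, neg_eq_zero] at h1
  have h3 : (n : ℂ) ≠ 0 := by exact_mod_cast hnpos
  have h4 := (mul_eq_zero.1 ((mul_eq_zero.1 h1).resolve_left h3)).resolve_right hε
  exact_mod_cast h4

/-- independence modulo all but finitely many primes -/
theorem exists_h0 (h : 1 ≤ r₁ + r₂) (ha : Function.Injective a)
    (hbc : Function.Injective (fun k => (b k, c k)))
    (hc : ∀ k, 0 < c k) (i₀ : Fin r₁ ⊕ Fin r₂) {r : ℕ}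
    (σ : Fin r → Fin r₁ ⊕ Fin r₂) (hσ : Function.Injective σ) (hσ0 : ∀ i, σ i ≠ i₀) :
    ∃ h₀ : ℤ, h₀ ≠ 0 ∧ ∀ (p : ℕ) [Fact p.Prime], ¬ (p : ℤ) ∣ h₀ → ∀ g : Fin r → ZMod p,
      ∑ i, C (g i) * spec (1 : ZMod p) (ZZ a b c (σ i)) = 0 → g = 0 := by
  have hfm : (spec (1 : ℤ) (fam a b c)).Monic := spec_monic _ (fam_monic a b c h)
  have hfn : (spec (1 : ℤ) (fam a b c)).natDegree = (fam a b c).natDegree :=
    (fam_monic a b c h).natDegree_map _
  have hdeg : ∀ g : Fin r → ℤ, (∑ i, C (g i) * spec (1 : ℤ) (ZZ a b c (σ i))).natDegree <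
      (fam a b c).natDegree := by
    intro g
    have hpos : 0 < (fam a b c).natDegree := by
      have := ZZ_degree a b c (1 : ℤ) i₀
      omega
    have h1 : (∑ i, C (g i) * spec (1 : ℤ) (ZZ a b c (σ i))).natDegree ≤ (fam a b c).natDegree - 1 := by
      apply natDegree_sum_le_of_forall_le
      intro i _
      refine natDegree_mul_le.trans ?_
      rw [natDegree_C, zero_add]
      have := ZZ_degree a b c (1 : ℤ) (σ i)
      omega
    omega
  obtain ⟨h₀, hh0, hh⟩ := dual_proof ℤ (spec (1 : ℤ) (fam a b c)) hfm r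
    (fun i => AdjoinRoot.mk _ (spec (1 : ℤ) (ZZ a b c (σ i)))) (by
      intro g hg
      apply ZZ_indep a b c ha hbc hc i₀ σ hσ hσ0 g
      have h1 : AdjoinRoot.mk (spec (1 : ℤ) (fam a b c))
          (∑ i, C (g i) * spec (1 : ℤ) (ZZ a b c (σ i))) = 0 := by
        rw [map_sum, ← hg]
        exact Finset.sum_congr rfl fun i _ => by rw [map_mul, AdjoinRoot.mk_C]
      by_contra hne
      rw [AdjoinRoot.mk_eq_zero] at h1
      refine hfm.not_dvd_of_natDegree_lt hne ?_ h1
      rw [hfn]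
      exact hdeg g)
  refine ⟨h₀, hh0, ?_⟩
  intro p _ hp g hg
  funext i
  have h1 := hh (ZMod p) (Int.castRingHom (ZMod p)) g (by
    have h2 : ∀ i, AdjoinRoot.map (Int.castRingHom (ZMod p)) (spec (1 : ℤ) (fam a b c))
        ((spec (1 : ℤ) (fam a b c)).map (Int.castRingHom (ZMod p))) dvd_rfl
        (AdjoinRoot.mk _ (spec (1 : ℤ) (ZZ a b c (σ i)))) =
        AdjoinRoot.mk _ (spec (1 : ZMod p) (ZZ a b c (σ i))) := by
      intro i
      have e : (spec (1 : ℤ) (ZZ a b c (σ i))).map (Int.castRingHom (ZMod p)) =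
          spec (1 : ZMod p) (ZZ a b c (σ i)) := by rw [spec_map, map_one]
      rw [adj_map_mk, e]
    have h3 := congrArg (AdjoinRoot.mk ((spec (1 : ℤ) (fam a b c)).map (Int.castRingHom (ZMod p)))) hg
    rw [map_sum, map_zero] at h3
    rw [← h3]
    exact Finset.sum_congr rfl fun i _ => by rw [map_mul, AdjoinRoot.mk_C, h2]) i
  have h4 : (Int.castRingHom (ZMod p)) h₀ ≠ 0 := by
    intro h5
    apply hp
    rw [← ZMod.intCast_zmod_eq_zero_iff_dvd]
    exact h5
  exact (mul_eq_zero.1 h1).resolve_left h4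

end Z

end Pool.Agent.W5h5.LD
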