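import Mathlib
import Pool.Agent.W5h5.LD.Const

/-!
# Independence of the logarithmic derivatives at all residue classes different from zero
-/

set_option autoImplicit false

namespace Pool.Agent.W5h5.LD

open Polynomial Pool.Agent.H33R4 Pool.Agent.R89.UP

section G

variable {r₁ r₂ : ℕ} (a : Fin r₁ → ℤ) (b c : Fin r₂ → ℤ)

theorem spec_fac_inl {A : Type} [CommRing A] (x : A) (i : Fin r₁) :
    spec x (fac a b c (Sum.inl i)) = X - C ((a i : A) * x) := by
  simp [spec, fac]

theorem spec_fac_inr {A : Type} [CommRing A] (x : A) (k : Fin r₂) :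
    spec x (fac a b c (Sum.inr k)) = (X - C ((b k : A) * x)) ^ 2 + C ((c k : A) * x ^ 2) := by
  simp [spec, fac]

/-- substitution of `x Y` for `Y` -/
noncomputable def th' {A : Type} [CommRing A] (x : A) : A[X] →+* A[X] :=
  Polynomial.compRingHom (C x * X)

theorem th'_C {A : Type} [CommRing A] (x y : A) : th' x (C y) = C y := by
  simp [th']

theorem th'_X {A : Type} [CommRing A] (x : A) : th' x X = C x * X := by
  simp [th']

theorem th'_derivative {A : Type} [CommRing A] (x : A) (P : A[X]) :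
    C x * th' x (derivative P) = derivative (th' x P) := by
  unfold th'
  rw [coe_compRingHom_apply, coe_compRingHom_apply, derivative_comp]
  simp

theorem th'_fac {A : Type} [CommRing A] (x : A) (i : Fin r₁ ⊕ Fin r₂) :
    th' x (spec x (fac a b c i)) = C (x ^ dg i) * spec 1 (fac a b c i) := by
  rcases i with i | k
  · rw [spec_fac_inl, spec_fac_inl, map_sub, th'_X, th'_C]
    simp only [dg, mul_one, pow_one, map_mul]
    ring
  · rw [spec_fac_inr, spec_fac_inr, map_add, map_pow, map_sub, th'_X, th'_C, th'_C]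
    simp only [dg, mul_one, one_pow, map_mul, map_pow]
    ring

theorem th'_prod {A : Type} [CommRing A] (x : A) (s : Finset (Fin r₁ ⊕ Fin r₂)) :
    th' x (spec x (∏ i ∈ s, fac a b c i)) = C (x ^ (∑ i ∈ s, dg i)) *
      spec 1 (∏ i ∈ s, fac a b c i) := by
  rw [spec_prod, spec_prod, map_prod, Finset.prod_congr rfl fun i _ => th'_fac a b c x i,
    Finset.prod_mul_distrib, ← map_prod, Finset.prod_pow_eq_pow_sum]

theorem th'_Z {A : Type} [CommRing A] (x : A) (i : Fin r₁ ⊕ Fin r₂) :
    C x * th' x (spec x (ZZ a b c i)) = C (x ^ nn r₁ r₂) * spec 1 (ZZ a b c i) := by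
  unfold ZZ
  rw [spec_sub, spec_mul, spec_mul, spec_mul, spec_natCast, spec_natCast, spec_derivative,
    spec_derivative]
  rw [spec_sub, spec_mul, spec_mul, spec_mul, spec_natCast, spec_natCast, spec_derivative,
    spec_derivative]
  rw [map_sub, map_mul, map_mul, map_mul, map_natCast, map_natCast, mul_sub]
  have h1 : C x * ((dg i : A[X]) * th' x (derivative (spec x (∏ l, fac a b c l)))) =
      (dg i : A[X]) * (C (x ^ nn r₁ r₂) * derivative (spec 1 (∏ l, fac a b c l))) := by
    have h2 := th'_derivative x (spec x (∏ l, fac a b c l))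
    rw [th'_prod, derivative_C_mul] at h2
    unfold nn
    linear_combination (dg i : A[X]) * h2
  have h3 : C x * ((nn r₁ r₂ : A[X]) * (th' x (derivative (spec x (fac a b c i))) *
      th' x (spec x (∏ l ∈ Finset.univ.erase i, fac a b c l)))) =
      (nn r₁ r₂ : A[X]) * (C (x ^ nn r₁ r₂) * (derivative (spec 1 (fac a b c i)) *
        spec 1 (∏ l ∈ Finset.univ.erase i, fac a b c l))) := by
    have h4 := th'_derivative x (spec x (fac a b c i))
    rw [th'_fac, derivative_C_mul] at h4
    have h5 := th'_prod a b c x (Finset.univ.erase i)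
    have h6 : (C (x ^ nn r₁ r₂) : A[X]) = C (x ^ dg i) * C (x ^ (∑ l ∈ Finset.univ.erase i, dg l)) := by
      rw [← map_mul, ← pow_add]
      congr 2
      unfold nn
      exact (Finset.add_sum_erase _ _ (Finset.mem_univ i)).symm
    rw [h5, h6]
    linear_combination ((nn r₁ r₂ : A[X]) * (C (x ^ (∑ l ∈ Finset.univ.erase i, dg l)) *
      spec 1 (∏ l ∈ Finset.univ.erase i, fac a b c l))) * h4
  rw [h1, h3]
  ring

variable {p : ℕ} [hp : Fact p.Prime]

/-- the logarithmic derivatives are independent at `t₀ ≠ 0` modulo `p` -/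
theorem hgood_of (h : 1 ≤ r₁ + r₂) {r : ℕ} (σ : Fin r → Fin r₁ ⊕ Fin r₂)
    (h0 : ∀ g : Fin r → ZMod p, ∑ i, C (g i) * spec (1 : ZMod p) (ZZ a b c (σ i)) = 0 → g = 0)
    (t₀ : ℤ) (ht₀ : ¬ (p : ℤ) ∣ t₀) (g : Fin r → ZMod p)
    (hg : ∑ i, AdjoinRoot.of (spec ((t₀ : ℤ) : ZMod p) (fam a b c)) (g i) *
      sg ((t₀ : ℤ) : ZMod p) (fam a b c) (jac (fam a b c) (fac a b c (σ i)) *
        ∏ l ∈ Finset.univ.erase (σ i), fac a b c l) = 0) : g = 0 := by
  set x : ZMod p := ((t₀ : ℤ) : ZMod p) with hx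
  have hx0 : x ≠ 0 := by
    rw [hx, Ne, ZMod.intCast_zmod_eq_zero_iff_dvd]; exact ht₀
  set f := fam a b c with hf
  have hfm : (spec x f).Monic := spec_monic _ (fam_monic a b c h)
  have hfn : (spec x f).natDegree = f.natDegree := (fam_monic a b c h).natDegree_map _
  have hF1 : sg x f (∏ l, fac a b c l) = 1 := by
    have h1 : (∏ l, fac a b c l) = f + 1 := by rw [hf]; unfold fam; ring
    rw [h1, map_add, sg_self, map_one, zero_add]
  have h1 : AdjoinRoot.mk (spec x f) (∑ i, C (g i) * spec x (ZZ a b c (σ i))) = 0 := by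
    rw [map_sum]
    have h2 := congrArg (fun y => AdjoinRoot.of (spec x f) x * y) hg
    simp only [mul_zero, Finset.mul_sum] at h2
    rw [← h2]
    refine Finset.sum_congr rfl fun i _ => ?_
    have h3 := congrArg (sg x f) (ZZ_id a b c (σ i))
    rw [← hf] at h3
    rw [map_mul (sg x f) (C X), map_mul (sg x f) (∏ l, fac a b c l), hF1, one_mul, sg_CX] at h3
    rw [map_mul, AdjoinRoot.mk_C, ← sg_apply, ← h3]
    ring
  have hpos : ∀ i : Fin r, (spec x (ZZ a b c (σ i))).natDegree ≤ f.natDegree - 1 := by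
    intro i
    have := ZZ_degree a b c x (σ i)
    rw [← hf] at this
    omega
  have h2 : ∑ i, C (g i) * spec x (ZZ a b c (σ i)) = 0 := by
    by_contra hne
    rw [AdjoinRoot.mk_eq_zero] at h1
    refine hfm.not_dvd_of_natDegree_lt hne ?_ h1
    rw [hfn]
    have h4 : (∑ i, C (g i) * spec x (ZZ a b c (σ i))).natDegree ≤ f.natDegree - 1 := by
      apply natDegree_sum_le_of_forall_le
      intro i _
      refine natDegree_mul_le.trans ?_
      rw [natDegree_C, zero_add]
      exact hpos i
    have h5 : 0 < f.natDegree := by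
      rw [hf, fam_natDegree, Polynomial.natDegree_prod_of_monic _ _ (fun i _ => (fac_monic a b c i).1)]
      have hne : Nonempty (Fin r₁ ⊕ Fin r₂) := by
        rcases Nat.eq_zero_or_pos r₁ with h0 | h0
        · exact ⟨Sum.inr ⟨0, by omega⟩⟩
        · exact ⟨Sum.inl ⟨0, h0⟩⟩
      obtain ⟨i⟩ := hne
      apply Finset.sum_pos'
      · intro i _
        exact Nat.zero_le _
      · exact ⟨i, Finset.mem_univ _, Polynomial.natDegree_pos_iff_degree_pos.2 (fac_monic a b c i).2⟩
    omega
  apply h0 g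
  have h3 := congrArg (fun y => C x * th' x y) h2
  simp only [map_zero, mul_zero, map_sum, Finset.mul_sum] at h3
  have h4 : C (x ^ nn r₁ r₂) * ∑ i, C (g i) * spec (1 : ZMod p) (ZZ a b c (σ i)) = 0 := by
    rw [Finset.mul_sum, ← h3]
    refine Finset.sum_congr rfl fun i _ => ?_
    rw [map_mul, th'_C]
    have := th'_Z a b c x (σ i)
    linear_combination (-C (g i)) * this
  have h5 : (C (x ^ nn r₁ r₂) : (ZMod p)[X]) ≠ 0 := by
    rw [Ne, C_eq_zero]
    exact pow_ne_zero _ hx0
  exact (mul_eq_zero.1 h4).resolve_left h5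

end G

end Pool.Agent.W5h5.LD
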