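import Mathlib
import Pool.Agent.W5h5.LD.Good

/-!
# The residue class of zero
-/

set_option autoImplicit false

namespace Pool.Agent.W5h5.LD

open Polynomial Pool.Agent.H33R4 Pool.Agent.R89.UP

section ring

theorem dvd_of_unit_mod {B : Type} [CommRing B] {p : ℕ} (x y z : B) (h : (p : B) ∣ x * y - 1) (N : ℕ)
    (hz : (p : B) ^ N ∣ x * z) : (p : B) ^ N ∣ z := by
  obtain ⟨q, hq⟩ := h
  have h1 : ∀ k ≤ N, (p : B) ^ k ∣ z := by
    intro k
    induction k with
    | zero => intro _; rw [pow_zero]; exact one_dvd _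
    | succ k ih =>
      intro hk
      obtain ⟨w, hw⟩ := ih (by omega)
      obtain ⟨v, hv⟩ := (pow_dvd_pow (p : B) hk).trans hz
      refine ⟨y * v - q * w, ?_⟩
      have : z = y * (x * z) - (p * q) * z := by rw [← hq]; ring
      rw [this, hv]
      conv_lhs => rw [hw]
      ring
  exact h1 N le_rfl

theorem deriv_prod {A : Type} [CommRing A] {r : ℕ} (F : A[X]) (U W : Fin r → A[X])
    (hUW : ∀ i, U i * W i = F) (k : Fin r → ℕ) (s : Finset (Fin r)) :
    derivative (∏ i ∈ s, U i ^ k i) * F =
      (∏ i ∈ s, U i ^ k i) * ∑ i ∈ s, (k i : A[X]) * (derivative (U i) * W i) := by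
  classical
  induction s using Finset.induction_on with
  | empty => simp
  | insert i s hi ih =>
    rw [Finset.prod_insert hi, Finset.sum_insert hi, derivative_mul]
    have h1 : derivative (U i ^ k i) * F = U i ^ k i * ((k i : A[X]) * (derivative (U i) * W i)) := by
      rcases Nat.eq_zero_or_pos (k i) with h0 | h0
      · rw [h0]; simp
      · obtain ⟨m, hm⟩ : ∃ m, k i = m + 1 := ⟨k i - 1, by omega⟩
        rw [hm, derivative_pow_succ, ← hUW i, pow_succ]
        push_cast
        simp only [map_add, map_natCast, map_one]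
        ring
    linear_combination (∏ i ∈ s, U i ^ k i) * h1 + (U i ^ k i) * ih

/-- two monic products which agree to high order at infinity -/
theorem final_poly {F₀ : Type} [Field F₀] {r : ℕ} (F : F₀[X]) (hF : F.Monic) (U W : Fin r → F₀[X])
    (hU : ∀ i, (U i).Monic) (hUW : ∀ i, U i * W i = F) (e dgi : Fin r → ℕ) (n s d : ℕ)
    (hn : F.natDegree = n) (hs : s = ∑ i, dgi i * e i) (hd : d = n * s)
    (hdeg : (∏ i, U i ^ (n * e i)).natDegree = d) (hnd : n ≤ d)
    (hC : ∀ k, d - n < k → (∏ i, U i ^ (n * e i) - F ^ s).coeff k = 0) :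
    ∑ i, C ((e i : F₀)) * ((dgi i : F₀[X]) * derivative F - (n : F₀[X]) * (derivative (U i) * W i)) = 0 := by
  classical
  set A := ∏ i, U i ^ (n * e i) with hA
  set B := F ^ s with hB
  have hAm : A.Monic := monic_prod_of_monic _ _ fun i _ => (hU i).pow _
  have hBm : B.Monic := hF.pow _
  have hBd : B.natDegree = d := by rw [hB, hF.natDegree_pow, hn, hd, mul_comm]
  set Z := ∑ i, C ((e i : F₀)) * ((dgi i : F₀[X]) * derivative F -
    (n : F₀[X]) * (derivative (U i) * W i)) with hZ
  have h1 := deriv_prod F U W hUW (fun i => n * e i) Finset.univ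
  rw [← hA] at h1
  have h2 : derivative B * F = B * ((s : F₀[X]) * derivative F) := by
    rw [hB]
    rcases Nat.eq_zero_or_pos s with h0 | h0
    · rw [h0]; simp
    · obtain ⟨m, hm⟩ : ∃ m, s = m + 1 := ⟨s - 1, by omega⟩
      rw [hm, derivative_pow_succ, pow_succ]
      push_cast
      simp only [map_add, map_natCast, map_one]
      ring
  have hid : (derivative A * B - A * derivative B) * F = -(A * B * Z) := by
    have h3 : Z = (s : F₀[X]) * derivative F - ∑ i, ((n * e i : ℕ) : F₀[X]) * (derivative (U i) * W i) := by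
      rw [hZ, hs]
      push_cast
      rw [Finset.sum_mul, ← Finset.sum_sub_distrib]
      refine Finset.sum_congr rfl fun i _ => ?_
      rw [map_natCast]
      ring
    rw [h3]
    linear_combination B * h1 - A * h2
  have hid2 : derivative A * B - A * derivative B = derivative (A - B) * B - (A - B) * derivative B := by
    rw [derivative_sub]; ring
  by_contra hne
  have hCne : A - B ≠ 0 := by
    intro h0
    rw [hid2, h0] at hid
    simp only [derivative_zero, zero_mul, sub_zero] at hid
    have h4 : A * B * Z = 0 := by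
      have := hid.symm
      rwa [neg_eq_zero] at this
    rcases mul_eq_zero.1 h4 with h5 | h5
    · rcases mul_eq_zero.1 h5 with h6 | h6
      · exact hAm.ne_zero h6
      · exact hBm.ne_zero h6
    · exact hne h5
  have hCd : (A - B).natDegree ≤ d - n := by
    rw [natDegree_le_iff_coeff_eq_zero]
    intro k hk
    exact hC k hk
  -- degrees
  have hdC : (A - B).degree ≤ ((d - n : ℕ) : WithBot ℕ) := natDegree_le_iff_degree_le.1 hCd
  have h5 : (derivative A * B - A * derivative B).degree < (A - B).degree + B.degree := by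
    rw [hid2]
    refine lt_of_le_of_lt (degree_sub_le _ _) (max_lt ?_ ?_)
    · rw [degree_mul]
      have h6 := degree_derivative_lt hCne
      have h7 : B.degree ≠ ⊥ := by rw [Ne, degree_eq_bot]; exact hBm.ne_zero
      exact WithBot.add_lt_add_right h7 h6
    · rw [degree_mul]
      have h6 := degree_derivative_lt hBm.ne_zero
      have h7 : (A - B).degree ≠ ⊥ := by rw [Ne, degree_eq_bot]; exact hCne
      exact WithBot.add_lt_add_left h7 h6
  have h8 := congrArg degree hid
  rw [degree_mul, degree_neg, degree_mul, degree_mul] at h8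
  have hFd : F.degree = (n : WithBot ℕ) := by rw [degree_eq_natDegree hF.ne_zero, hn]
  have hAd' : A.degree = (d : WithBot ℕ) := by rw [degree_eq_natDegree hAm.ne_zero, hdeg]
  have hBd' : B.degree = (d : WithBot ℕ) := by rw [degree_eq_natDegree hBm.ne_zero, hBd]
  rw [hBd'] at h5
  rw [hFd, hAd', hBd', degree_eq_natDegree hne] at h8
  rw [degree_eq_natDegree hCne] at h5 hdC
  have h9 : derivative A * B - A * derivative B ≠ 0 := by
    intro h0
    rw [h0, degree_zero] at h8
    have : (⊥ : WithBot ℕ) + (n : WithBot ℕ) = ⊥ := WithBot.bot_add _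
    rw [this] at h8
    exact absurd h8.symm (by
      rw [← Nat.cast_add, ← Nat.cast_add]
      exact WithBot.natCast_ne_bot _)
  rw [degree_eq_natDegree h9] at h8 h5
  have h10 : (derivative A * B - A * derivative B).natDegree + n = d + d + Z.natDegree := by
    exact_mod_cast h8
  have h11 : (derivative A * B - A * derivative B).natDegree < (A - B).natDegree + d := by
    exact_mod_cast h5
  omega

theorem coeff_of_dvd_mk {p : ℕ} (g H : ℤ[X]) (hg : g.Monic) (hH : H.natDegree < g.natDegree) (N : ℕ)
    (h : (p : AdjoinRoot g) ^ N ∣ AdjoinRoot.mk g H) (j : ℕ) : (p : ℤ) ^ N ∣ H.coeff j := by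
  obtain ⟨x, hx⟩ := h
  obtain ⟨Q, rfl⟩ := AdjoinRoot.mk_surjective x
  have e : Q = (Q %ₘ g) + g * (Q /ₘ g) := (Polynomial.modByMonic_add_div Q g).symm
  have h1 : AdjoinRoot.mk g (H - C ((p : ℤ) ^ N) * (Q %ₘ g)) = 0 := by
    rw [map_sub, hx, map_mul]
    conv_lhs => rw [e]
    rw [map_add, map_mul (AdjoinRoot.mk g) g, AdjoinRoot.mk_self, zero_mul, add_zero]
    have : AdjoinRoot.mk g (C ((p : ℤ) ^ N)) = (p : AdjoinRoot g) ^ N := by
      rw [map_pow, map_pow]
      congr 1
    rw [this, ← e, sub_self]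
  have h2 : H - C ((p : ℤ) ^ N) * (Q %ₘ g) = 0 := by
    by_contra hne
    rw [AdjoinRoot.mk_eq_zero] at h1
    refine hg.not_dvd_of_natDegree_lt hne ?_ h1
    have h3 : (Q %ₘ g).natDegree < g.natDegree := natDegree_modByMonic_lt Q hg (by
      rintro rfl
      simp at hH)
    have h4 : (C ((p : ℤ) ^ N) * (Q %ₘ g)).natDegree ≤ (Q %ₘ g).natDegree := natDegree_C_mul_le _ _
    have h5 := natDegree_sub_le H (C ((p : ℤ) ^ N) * (Q %ₘ g))
    have h6 := max_lt hH (lt_of_le_of_lt h4 h3)
    omega
  rw [sub_eq_zero.1 h2, coeff_C_mul]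
  exact dvd_mul_right _ _

end ring

end Pool.Agent.W5h5.LD
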