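import Mathlib
import Pool.Agent.W5h5.LD.Zero
import Pool.Agent.W5h5.LD.BadRel

/-!
# There are no exceptional integers except `0` in the residue class of zero
-/

set_option autoImplicit false

namespace Pool.Agent.W5h5.LD

open Polynomial Pool.Agent.H33R4 Pool.Agent.R89.UP

section Z

variable {r₁ r₂ : ℕ} (a : Fin r₁ → ℤ) (b c : Fin r₂ → ℤ)

theorem fac_natDegree (i : Fin r₁ ⊕ Fin r₂) : (fac a b c i).natDegree = dg i := by
  rcases i with i | k
  · exact natDegree_X_sub_C _
  · show ((X - C (C (b k) * X)) ^ 2 + C (C (c k) * X ^ 2) : ℤ[X][X]).natDegree = 2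
    rw [natDegree_add_C, natDegree_pow, natDegree_X_sub_C]

theorem fam_nn : (fam a b c).natDegree = nn r₁ r₂ := by
  rw [fam_natDegree, natDegree_prod_of_monic _ _ (fun i _ => (fac_monic a b c i).1)]
  unfold nn
  exact Finset.sum_congr rfl fun i _ => fac_natDegree a b c i

theorem dg_pos (i : Fin r₁ ⊕ Fin r₂) : 1 ≤ dg i := by rcases i with i | k <;> simp [dg]

theorem nn_pos (h : 1 ≤ r₁ + r₂) : 1 ≤ nn r₁ r₂ := by
  have hne : Nonempty (Fin r₁ ⊕ Fin r₂) := by
    rcases Nat.eq_zero_or_pos r₁ with h0 | h0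
    · exact ⟨Sum.inr ⟨0, by omega⟩⟩
    · exact ⟨Sum.inl ⟨0, h0⟩⟩
  obtain ⟨i⟩ := hne
  unfold nn
  exact (dg_pos i).trans (Finset.single_le_sum (fun _ _ => Nat.zero_le _) (Finset.mem_univ i))

variable {p : ℕ} [hp : Fact p.Prime]

theorem zero_class (h : 1 ≤ r₁ + r₂) {r : ℕ} (σ : Fin r → Fin r₁ ⊕ Fin r₂)
    (h0 : ∀ g : Fin r → ZMod p, ∑ i, C (g i) * spec (1 : ZMod p) (ZZ a b c (σ i)) = 0 → g = 0)
    (t t' : ℤ) (v : ℕ) (hv : 1 ≤ v) (htv : t = (p : ℤ) ^ v * t') (ht' : ¬ (p : ℤ) ∣ t')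
    (e : Fin r → ℕ) (hrel : (p : AdjoinRoot (spec (t : ℤ) (fam a b c))) ^ (nn r₁ r₂ * v) ∣
      AdjoinRoot.mk (spec (t : ℤ) (fam a b c)) (spec (t : ℤ) (∏ i, fac a b c (σ i) ^ e i)) - 1)
    (i : Fin r) : p ∣ e i := by
  classical
  have hpr : Prime (p : ℤ) := Nat.prime_iff_prime_int.1 hp.out
  have hp0 : (p : ℤ) ≠ 0 := hpr.ne_zero
  have ht'0 : t' ≠ 0 := by rintro rfl; exact ht' (dvd_zero _)
  have ht0 : t ≠ 0 := by rw [htv]; exact mul_ne_zero (pow_ne_zero _ hp0) ht'0
  set f := fam a b c with hf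
  have hfm : f.Monic := fam_monic a b c h
  have hft : (spec (t : ℤ) f).Monic := spec_monic _ hfm
  set n := nn r₁ r₂ with hn
  have hn1 : 1 ≤ n := nn_pos h
  have hfn : f.natDegree = n := fam_nn a b c
  have hftn : (spec (t : ℤ) f).natDegree = n := by rw [← hfn]; exact hfm.natDegree_map _
  set s := ∑ i, dg (σ i) * e i with hs
  rcases Nat.eq_zero_or_pos s with hs0 | hs0
  · have h1 := Finset.sum_eq_zero_iff.1 hs0 i (Finset.mem_univ i)
    have h2 := dg_pos (σ i)
    rcases Nat.mul_eq_zero.1 h1 with h3 | h3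
    · omega
    · rw [h3]; exact dvd_zero _
  set d := n * s with hd
  have hnd : n ≤ d := by rw [hd]; exact Nat.le_mul_of_pos_right _ hs0
  set F : ℤ[X][X] := ∏ l, fac a b c l with hF
  set AZ : ℤ[X][X] := ∏ i, fac a b c (σ i) ^ (n * e i) with hAZ
  set G : ℤ[X][X] := AZ - F ^ s with hG
  have hFm : F.Monic := monic_prod_of_monic _ _ (fun i _ => (fac_monic a b c i).1)
  have hFn : F.natDegree = n := by rw [hF, natDegree_prod_fac, ← hf, hfn]
  have hAm : AZ.Monic := monic_prod_of_monic _ _ (fun i _ => (fac_monic a b c (σ i)).1.pow _)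
  have hAn : AZ.natDegree = d := by
    rw [hAZ, natDegree_prod_of_monic _ _ (fun i _ => (fac_monic a b c (σ i)).1.pow _), hd, hs,
      Finset.mul_sum]
    refine Finset.sum_congr rfl fun i _ => ?_
    rw [(fac_monic a b c (σ i)).1.natDegree_pow, fac_natDegree]
    ring
  have hBm : (F ^ s).Monic := hFm.pow _
  have hBn : (F ^ s).natDegree = d := by rw [hFm.natDegree_pow, hFn, hd, mul_comm]
  -- the degree of the difference
  have hGd : ∀ {A : Type} [CommRing A] [Nontrivial A] (x : A), (spec x G).degree < d := by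
    intro A _ _ x
    have e1 : spec x G = spec x AZ - spec x (F ^ s) := by rw [hG, spec_sub]
    have e2 : (spec x AZ).Monic := spec_monic _ hAm
    have e3 : (spec x (F ^ s)).Monic := spec_monic _ hBm
    have e4 : (spec x AZ).degree = d := by
      rw [degree_eq_natDegree e2.ne_zero]
      exact_mod_cast (hAm.natDegree_map _).trans hAn
    have e5 : (spec x (F ^ s)).degree = d := by
      rw [degree_eq_natDegree e3.ne_zero]
      exact_mod_cast (hBm.natDegree_map _).trans hBn
    rw [e1, ← e4]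
    exact degree_sub_lt_left (e4.trans e5.symm) e2.ne_zero (by rw [e2.leadingCoeff, e3.leadingCoeff])
  -- homogeneity
  have hhom : ∀ k ≤ d, (spec (t : ℤ) G).coeff k = t ^ (d - k) * (spec (1 : ℤ) G).coeff k := by
    intro k hk
    have e1 : th' t (spec t G) = C (t ^ d) * spec 1 G := by
      rw [hG, spec_sub, spec_sub, map_sub, mul_sub]
      congr 1
      · rw [hAZ, spec_prod, spec_prod, map_prod]
        have e2 : ∀ i ∈ (Finset.univ : Finset (Fin r)), th' t (spec t (fac a b c (σ i) ^ (n * e i))) =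
            C (t ^ (dg (σ i) * (n * e i))) * spec 1 (fac a b c (σ i) ^ (n * e i)) := by
          intro i _
          rw [spec_pow, spec_pow, map_pow, th'_fac, mul_pow, ← map_pow, ← pow_mul]
        rw [Finset.prod_congr rfl e2, Finset.prod_mul_distrib, ← map_prod, Finset.prod_pow_eq_pow_sum]
        congr 3
        rw [hd, hs, Finset.mul_sum]
        exact Finset.sum_congr rfl fun i _ => by ring
      · rw [spec_pow, spec_pow, map_pow, hF, th'_prod, mul_pow, ← map_pow, ← pow_mul]
        have e6 : (∑ i : Fin r₁ ⊕ Fin r₂, dg i) * s = d := by rw [hd, hn]; rfl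
        rw [e6]
    have e3 := congrArg (fun P => P.coeff k) e1
    simp only [coeff_C_mul] at e3
    unfold th' at e3
    rw [coe_compRingHom_apply, comp_C_mul_X_coeff] at e3
    have e4 : t ^ d = t ^ k * t ^ (d - k) := by rw [← pow_add]; congr 1; omega
    have e5 : t ^ k * ((spec t G).coeff k - t ^ (d - k) * (spec 1 G).coeff k) = 0 := by
      rw [e4] at e3
      linear_combination e3
    exact sub_eq_zero.1 ((mul_eq_zero.1 e5).resolve_left (pow_ne_zero _ ht0))
  -- the relation
  set g := spec (t : ℤ) f with hg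
  have hF1 : AdjoinRoot.mk g (spec (t : ℤ) F) = 1 := by
    have h1 : F = f + 1 := by rw [hf]; unfold fam; ring
    rw [h1, spec_add, spec_one, map_add, ← hg, AdjoinRoot.mk_self, map_one, zero_add]
  have hGrel : (p : AdjoinRoot g) ^ (n * v) ∣ AdjoinRoot.mk g (spec (t : ℤ) G) := by
    have e1 : AdjoinRoot.mk g (spec (t : ℤ) G) =
        AdjoinRoot.mk g (spec (t : ℤ) (∏ i, fac a b c (σ i) ^ e i)) ^ n - 1 := by
      rw [hG, spec_sub, spec_pow, map_sub, map_pow, hF1, one_pow]
      congr 1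
      rw [← map_pow, ← spec_pow, hAZ, ← Finset.prod_pow]
      congr 2
      exact Finset.prod_congr rfl fun i _ => by rw [← pow_mul, mul_comm]
    rw [e1]
    exact hrel.trans (sub_one_dvd_pow_sub_one _ n)
  set q := d - n + 1 with hq
  have hdq : d = q + (n - 1) := by omega
  set H : ℤ[X] := ∑ j ∈ Finset.range (n - 1), monomial j ((spec (t : ℤ) G).coeff (q + j)) with hH
  have hnt : n ≠ 0 := by omega
  have hdne : d ≠ 0 := by omega
  have hsplit : ∃ L : ℤ[X], spec (t : ℤ) G = C ((p : ℤ) ^ (n * v)) * L + X ^ q * H := by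
    have e1 : spec (t : ℤ) G = ∑ k ∈ Finset.range (q + (n - 1)), monomial k ((spec (t : ℤ) G).coeff k) := by
      apply Polynomial.as_sum_range'
      rw [← hdq]
      by_cases hz : spec (t : ℤ) G = 0
      · rw [hz, natDegree_zero]; omega
      · exact (natDegree_lt_iff_degree_lt hz).2 (hGd t)
    rw [Finset.sum_range_add] at e1
    have e2 : C ((p : ℤ) ^ (n * v)) ∣ ∑ k ∈ Finset.range q, monomial k ((spec (t : ℤ) G).coeff k) := by
      refine Finset.dvd_sum fun k hk => ?_
      rw [Finset.mem_range] at hk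
      rw [hhom k (by omega), ← C_mul_X_pow_eq_monomial]
      refine Dvd.dvd.mul_right ?_ _
      apply _root_.map_dvd
      refine Dvd.dvd.mul_right ?_ _
      have e3 : (p : ℤ) ^ (n * v) ∣ t ^ n := by
        rw [htv, mul_pow, ← pow_mul, mul_comm v n]
        exact dvd_mul_right _ _
      exact e3.trans (pow_dvd_pow _ (by omega))
    obtain ⟨L, hL⟩ := e2
    refine ⟨L, ?_⟩
    rw [← hL]
    conv_lhs => rw [e1]
    congr 1
    rw [hH, Finset.mul_sum]
    refine Finset.sum_congr rfl fun j _ => ?_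
    rw [← C_mul_X_pow_eq_monomial, ← C_mul_X_pow_eq_monomial, pow_add]
    ring
  obtain ⟨L, hL⟩ := hsplit
  have hHrel : (p : AdjoinRoot g) ^ (n * v) ∣ AdjoinRoot.mk g X ^ q * AdjoinRoot.mk g H := by
    have e1 : AdjoinRoot.mk g X ^ q * AdjoinRoot.mk g H =
        AdjoinRoot.mk g (spec (t : ℤ) G) - (p : AdjoinRoot g) ^ (n * v) * AdjoinRoot.mk g L := by
      have : AdjoinRoot.mk g (C ((p : ℤ) ^ (n * v))) = (p : AdjoinRoot g) ^ (n * v) := by
        rw [map_pow, map_pow]
        congr 1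
      rw [hL, map_add, map_mul, map_mul, map_pow (AdjoinRoot.mk g) X q, this]
      ring
    rw [e1]
    exact dvd_sub hGrel (dvd_mul_right _ _)
  have hXn : (p : AdjoinRoot g) ∣ AdjoinRoot.mk g X ^ n - 1 := by
    have e1 : AdjoinRoot.mk g X ^ n - 1 = sg (t : ℤ) f (X ^ n - 1) := by
      rw [map_sub, map_pow, map_one, sg_apply]
      unfold spec
      rw [Polynomial.map_X]
      rfl
    rw [e1]
    apply dvd_of_rd
    rw [rd_sg]
    have ht00 : ((t : ℤ) : ZMod p) = 0 := by
      rw [ZMod.intCast_zmod_eq_zero_iff_dvd, htv]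
      exact Dvd.dvd.mul_right (dvd_pow_self _ (by omega)) _
    have e2 : (X ^ n - 1 : ℤ[X][X]) = f + (X ^ n - F) := by rw [hf]; unfold fam; ring
    rw [e2, map_add, sg_self, zero_add, sg_apply, ht00]
    have e3 : spec (0 : ZMod p) (X ^ n - F) = 0 := by
      rw [spec_sub, spec_pow, hF, spec_prod]
      have e4 : ∀ l ∈ (Finset.univ : Finset (Fin r₁ ⊕ Fin r₂)),
          spec (0 : ZMod p) (fac a b c l) = X ^ dg l := by
        intro l _
        rcases l with l | l
        · rw [spec_fac_inl]; simp [dg]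
        · rw [spec_fac_inr]; simp [dg]
      rw [Finset.prod_congr rfl e4, Finset.prod_pow_eq_pow_sum]
      unfold spec
      rw [Polynomial.map_X]
      exact sub_self _
    rw [e3, map_zero]
  have hH2 : (p : AdjoinRoot g) ^ (n * v) ∣ AdjoinRoot.mk g H := by
    apply dvd_of_unit_mod (AdjoinRoot.mk g X ^ q) (AdjoinRoot.mk g X ^ ((n - 1) * q)) _ _ _ hHrel
    have e1 : AdjoinRoot.mk g X ^ q * AdjoinRoot.mk g X ^ ((n - 1) * q) = (AdjoinRoot.mk g X ^ n) ^ q := by
      rw [← pow_add, ← pow_mul]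
      congr 1
      obtain ⟨n', hn'⟩ : ∃ n', n = n' + 1 := ⟨n - 1, by omega⟩
      rw [hn', Nat.add_sub_cancel]
      ring
    rw [e1]
    exact hXn.trans (sub_one_dvd_pow_sub_one _ q)
  have hHd : H.natDegree < g.natDegree := by
    rw [hftn]
    have : H.natDegree ≤ n - 1 := by
      rw [hH]
      apply natDegree_sum_le_of_forall_le
      intro j hj
      rw [Finset.mem_range] at hj
      exact (natDegree_monomial_le _).trans (by omega)
    omega
  have hcoef : ∀ j < n - 1, (p : ℤ) ∣ (spec (1 : ℤ) G).coeff (q + j) := by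
    intro j hj
    have e1 := coeff_of_dvd_mk g H hft hHd (n * v) hH2 j
    have e2 : H.coeff j = (spec (t : ℤ) G).coeff (q + j) := by
      rw [hH, finsetSum_coeff]
      simp only [coeff_monomial]
      rw [Finset.sum_ite_eq' (Finset.range (n - 1)) j, if_pos (Finset.mem_range.2 hj)]
    rw [e2, hhom (q + j) (by omega), htv, mul_pow, ← pow_mul] at e1
    have e3 : n * v = v * (d - (q + j)) + v * (n - (d - (q + j))) := by
      rw [← mul_add, mul_comm]
      congr 1
      omega
    rw [e3, pow_add, mul_assoc] at e1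
    have e4 := Int.dvd_of_mul_dvd_mul_left (pow_ne_zero _ hp0) e1
    have e5 : 1 ≤ v * (n - (d - (q + j))) := Nat.mul_pos hv (by omega)
    have e6 : (p : ℤ) ∣ t' ^ (d - (q + j)) * (spec (1 : ℤ) G).coeff (q + j) :=
      (dvd_pow_self _ (by omega)).trans e4
    rcases hpr.dvd_or_dvd e6 with h1 | h1
    · exact absurd (hpr.dvd_of_dvd_pow h1) ht'
    · exact h1
  -- modulo `p`
  have hfin := final_poly (spec (1 : ZMod p) F) (spec_monic _ hFm)
    (fun i => spec (1 : ZMod p) (fac a b c (σ i)))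
    (fun i => spec (1 : ZMod p) (∏ l ∈ Finset.univ.erase (σ i), fac a b c l))
    (fun i => spec_monic _ (fac_monic a b c (σ i)).1)
    (fun i => by rw [← spec_mul, Finset.mul_prod_erase _ _ (Finset.mem_univ _)])
    e (fun i => dg (σ i)) n s d ((hFm.natDegree_map _).trans hFn) hs hd
    (by
      have e1 : ∏ i, spec (1 : ZMod p) (fac a b c (σ i)) ^ (n * e i) = spec (1 : ZMod p) AZ := by
        rw [hAZ, spec_prod]
        exact Finset.prod_congr rfl fun i _ => by rw [spec_pow]
      rw [e1]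
      exact (hAm.natDegree_map _).trans hAn) hnd
    (by
      intro k hk
      have e1 : ∏ i, spec (1 : ZMod p) (fac a b c (σ i)) ^ (n * e i) - spec (1 : ZMod p) F ^ s =
          spec (1 : ZMod p) G := by
        have e0 : ∏ i, spec (1 : ZMod p) (fac a b c (σ i)) ^ (n * e i) = spec (1 : ZMod p) AZ := by
          rw [hAZ, spec_prod]
          exact Finset.prod_congr rfl fun i _ => by rw [spec_pow]
        rw [e0, hG, spec_sub, spec_pow]
      rw [e1]
      rcases Nat.lt_or_ge k d with h1 | h1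
      · have e2 : spec (1 : ZMod p) G = (spec (1 : ℤ) G).map (Int.castRingHom (ZMod p)) := by
          rw [spec_map, map_one]
        obtain ⟨j, hj⟩ : ∃ j, k = q + j := ⟨k - q, by omega⟩
        rw [e2, coeff_map, hj]
        have e3 := hcoef j (by omega)
        rw [← ZMod.intCast_zmod_eq_zero_iff_dvd] at e3
        exact e3
      · exact coeff_eq_zero_of_degree_lt (lt_of_lt_of_le (hGd 1) (by exact_mod_cast h1)))
  have h1 := h0 (fun i => (e i : ZMod p)) (by
    rw [← hfin]
    refine Finset.sum_congr rfl fun i _ => ?_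
    unfold ZZ
    rw [spec_sub, spec_mul, spec_mul, spec_mul, spec_natCast, spec_natCast, spec_derivative,
      spec_derivative])
  have h2 := congrFun h1 i
  simp only [Pi.zero_apply] at h2
  rwa [ZMod.natCast_eq_zero_iff] at h2

/-- no exceptional integers except `0` in the class of zero -/
theorem zero_not_bad (h : 1 ≤ r₁ + r₂) {r : ℕ} (σ : Fin r → Fin r₁ ⊕ Fin r₂)
    (h0 : ∀ g : Fin r → ZMod p, ∑ i, C (g i) * spec (1 : ZMod p) (ZZ a b c (σ i)) = 0 → g = 0)
    (hn : nn r₁ r₂ + 2 ≤ p) (t : ℤ) (ht0 : t ≠ 0) (htp : (p : ℤ) ∣ t) :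
    ¬ Bad p (fam a b c).natDegree r (fam a b c) t := by
  intro hB
  have hfm : (fam a b c).Monic := fam_monic a b c h
  obtain ⟨v, t', ht', htt⟩ : ∃ (v : ℕ) (t' : ℤ), ¬ (p : ℤ) ∣ t' ∧ t = (p : ℤ) ^ v * t' := by
    have hfin : FiniteMultiplicity (p : ℤ) t := by
      rw [Int.finiteMultiplicity_iff]
      exact ⟨by simpa using hp.out.ne_one, ht0⟩
    obtain ⟨m', h1, h2⟩ := hfin.exists_eq_pow_mul_and_not_dvd
    exact ⟨_, m', h2, h1⟩
  have hv : 1 ≤ v := by
    rcases Nat.eq_zero_or_pos v with h1 | h1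
    · exfalso
      rw [h1, pow_zero, one_mul] at htt
      rw [htt] at htp
      exact ht' htp
    · exact h1
  obtain ⟨M, e, hMp, hMb⟩ := exists_exp' (spec ((t : ℤ) : ZMod p) (fam a b c)) (spec_monic _ hfm)
    (by rw [show (spec ((t : ℤ) : ZMod p) (fam a b c)).natDegree = (fam a b c).natDegree from
          hfm.natDegree_map _, fam_nn]
        exact nn_pos h)
  obtain ⟨m, ⟨i, hi⟩, hm⟩ := bad_rel (fam a b c) hfm t t (by simp)
    (fun i => fac a b c (σ i)) (fun i => ∏ l ∈ Finset.univ.erase (σ i), fac a b c l)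
    (fun i => by
      rw [Finset.mul_prod_erase _ _ (Finset.mem_univ _)]
      exact dvd_rfl) M e hMb (by rw [fam_nn]; exact hn) hB (nn r₁ r₂ * v)
  have h1 := zero_class a b c h σ h0 t t' v hv htt ht' (fun i => M * m i) hm i
  rcases (Nat.Prime.dvd_mul hp.out).1 h1 with h2 | h2
  · exact hMp h2
  · exact hi h2

end Z

end Pool.Agent.W5h5.LD
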