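import Mathlib
import Pool.Agent.W5h5.LD.Adapt
import Pool.Agent.W5h5.LD.ZeroMain

/-!
# Leopoldt's conjecture for all primes up to a bound at once, in the families of every signature
-/

set_option autoImplicit false

namespace Pool.Agent.W5h5.LD

open Polynomial NumberField Pool.Agent.H33R4 Pool.Agent.R89.UP
open Pool.Agent.H637R2.Leo (Leopoldt)

/-- `f_t` is irreducible, its root fields have the signature `(r₁, r₂)` and satisfy Leopoldt's
conjecture at all primes `p` with `p ≤ P` or `p ∣ t` -/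
def GoodUpTo {r₁ r₂ : ℕ} (a : Fin r₁ → ℤ) (b c : Fin r₂ → ℤ) (t : ℤ) (P : ℕ) : Prop :=
  Irreducible (spec t (fam a b c)) ∧
    ∀ (K : Type) [Field K] [NumberField K] (θ : K), aeval θ (spec t (fam a b c)) = 0 →
      IntermediateField.adjoin ℚ {θ} = ⊤ →
      InfinitePlace.nrRealPlaces K = r₁ ∧ InfinitePlace.nrComplexPlaces K = r₂ ∧
        ∀ (p : ℕ) [Fact p.Prime], p ≤ P ∨ (p : ℤ) ∣ t → Leopoldt K p

/-- one large prime -/
theorem large_prime {r₁ r₂ : ℕ} (a : Fin r₁ → ℤ) (b c : Fin r₂ → ℤ) (h : 1 ≤ r₁ + r₂) {r : ℕ}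
    (σ : Fin r → Fin r₁ ⊕ Fin r₂) (p : ℕ) [hp : Fact p.Prime]
    (h0 : ∀ g : Fin r → ZMod p, ∑ i, C (g i) * spec (1 : ZMod p) (ZZ a b c (σ i)) = 0 → g = 0)
    (hn : nn r₁ r₂ + 2 ≤ p) (hn2 : 2 * nn r₁ r₂ ≤ p) (hodd : p ≠ 2) :
    ∃ S : Finset ℤ, S.card ≤ r * p ∧ ∀ t, (p : ℤ) ∣ t ∨ t ∉ S → t ≠ 0 →
      ¬ Bad p (fam a b c).natDegree r (fam a b c) t := by
  classical
  have hfm : (fam a b c).Monic := fam_monic a b c h
  have hfn : (fam a b c).natDegree = nn r₁ r₂ := fam_nn a b c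
  have hpos : 0 < (fam a b c).natDegree := by rw [hfn]; exact nn_pos h
  have key : ∀ x : ZMod p, ∃ S : Finset ℤ, S.card ≤ r ∧ (x ≠ 0 → ∀ t : ℤ, ((t : ℤ) : ZMod p) = x →
      Bad p (fam a b c).natDegree r (fam a b c) t → t ∈ S) := by
    intro x
    by_cases hx : x = 0
    · exact ⟨∅, Nat.zero_le _, fun h' => absurd hx h'⟩
    · have hx' : ((((x.val : ℕ) : ℤ)) : ZMod p) = x := by
        rw [Int.cast_natCast, ZMod.natCast_zmod_val]
      have hnd : ¬ (p : ℤ) ∣ ((x.val : ℕ) : ℤ) := by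
        intro hd
        rw [← ZMod.intCast_zmod_eq_zero_iff_dvd, hx'] at hd
        exact hx hd
      obtain ⟨S, hS1, hS2⟩ := class_final (fam a b c) hfm hpos ((x.val : ℕ) : ℤ)
        (fun i => fac a b c (σ i)) (fun i => ∏ l ∈ Finset.univ.erase (σ i), fac a b c l)
        (fun i => by
          rw [Finset.mul_prod_erase _ _ (Finset.mem_univ _)]
          exact dvd_rfl)
        (fun g hg => hgood_of a b c h σ h0 _ hnd g hg) (by rw [hfn]; exact hn2) hodd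
      refine ⟨S, hS1, fun _ t ht hB => hS2 t ?_ hB⟩
      rw [← ZMod.intCast_zmod_eq_zero_iff_dvd, Int.cast_sub, hx', ht, sub_self]
  choose S hS1 hS2 using key
  refine ⟨Finset.univ.biUnion S, ?_, ?_⟩
  · refine (Finset.card_biUnion_le_card_mul _ S r fun x _ => hS1 x).trans ?_
    rw [Finset.card_univ, ZMod.card, mul_comm]
  · intro t ht ht0 hB
    by_cases hpt : (p : ℤ) ∣ t
    · exact zero_not_bad a b c h σ h0 hn t ht0 hpt hB
    · rcases ht with ht | ht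
      · exact hpt ht
      · apply ht
        rw [Finset.mem_biUnion]
        refine ⟨((t : ℤ) : ZMod p), Finset.mem_univ _, hS2 _ ?_ t rfl hB⟩
        rw [Ne, ZMod.intCast_zmod_eq_zero_iff_dvd]
        exact hpt

/-- **Main theorem.** -/
theorem main_all (r₁ r₂ : ℕ) (h : 1 ≤ r₁ + r₂) (a : Fin r₁ → ℤ)
    (b c : Fin r₂ → ℤ) (ha : Function.Injective a)
    (hbc : Function.Injective (fun k => (b k, c k))) (hc : ∀ k, 0 < c k) :
    ∃ C₀ : ℕ, ∀ P : ℕ, ∃ S : Finset ℤ,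
      S.card ≤ C₀ + (r₁ + r₂ - 1) * ∑ p ∈ (Finset.Icc 1 P).filter Nat.Prime, p ∧
      ∀ t ∉ S, GoodUpTo a b c t P := by
  classical
  have hfm := fam_monic a b c h
  have hne : Nonempty (Fin r₁ ⊕ Fin r₂) := by
    rcases Nat.eq_zero_or_pos r₁ with h0 | h0
    · exact ⟨Sum.inr ⟨0, by omega⟩⟩
    · exact ⟨Sum.inl ⟨0, h0⟩⟩
  obtain ⟨i₀⟩ := hne
  have hcard : Fintype.card {i : Fin r₁ ⊕ Fin r₂ // i ≠ i₀} = r₁ + r₂ - 1 := by
    rw [Fintype.card_subtype_compl]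
    simp
  let eq : {i : Fin r₁ ⊕ Fin r₂ // i ≠ i₀} ≃ Fin (r₁ + r₂ - 1) := Fintype.equivFinOfCardEq hcard
  let σ : Fin (r₁ + r₂ - 1) → Fin r₁ ⊕ Fin r₂ := fun k => (eq.symm k).1
  obtain ⟨h₀, hh0, hh⟩ := exists_h0 a b c h ha hbc hc i₀ σ
    (fun x y hxy => eq.symm.injective (Subtype.ext hxy)) (fun k => (eq.symm k).2)
  set N₀ : ℕ := 2 * nn r₁ r₂ + 2 + h₀.natAbs with hN₀
  -- the small primes
  have hsmall : ∀ q : ℕ, ∃ S : Finset ℤ, ∀ t ∉ S, ∀ (hq : q.Prime), Irreducible (spec t (fam a b c)) ∧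
      ∀ (K : Type) [Field K] [NumberField K] (θ : K), aeval θ (spec t (fam a b c)) = 0 →
        IntermediateField.adjoin ℚ {θ} = ⊤ →
        InfinitePlace.nrRealPlaces K = r₁ ∧ InfinitePlace.nrComplexPlaces K = r₂ ∧
          @Leopoldt K _ _ q ⟨hq⟩ := by
    intro q
    by_cases hq : q.Prime
    · have _ : Fact q.Prime := ⟨hq⟩
      obtain ⟨S, hS⟩ := explicit q r₁ r₂ h a b c ha hbc hc
      refine ⟨S, fun t ht hq' => ⟨(hS t ht).1, fun K _ _ θ hθ hgen => ?_⟩⟩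
      obtain ⟨h1, h2, h3⟩ := (hS t ht).2 K θ hθ hgen
      refine ⟨h1, h2, ?_⟩
      convert h3
    · exact ⟨∅, fun t _ hq' => absurd hq' hq⟩
  choose S₁ hS₁ using hsmall
  -- the large primes
  have hlarge : ∀ q : ℕ, ∃ S : Finset ℤ, S.card ≤ (r₁ + r₂ - 1) * q ∧
      ∀ t, (q : ℤ) ∣ t ∨ t ∉ S → t ≠ 0 →
      ∀ (hq : q.Prime), N₀ < q → ¬ @Bad q ⟨hq⟩ (fam a b c).natDegree (r₁ + r₂ - 1) (fam a b c) t := by
    intro q
    by_cases hq : q.Prime ∧ N₀ < q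
    · obtain ⟨hq1, hq2⟩ := hq
      have _ : Fact q.Prime := ⟨hq1⟩
      have hqh : ¬ (q : ℤ) ∣ h₀ := by
        intro hd
        have h1 := Int.le_of_dvd (by
          have := Int.natAbs_pos.2 hh0
          exact_mod_cast this) (Int.dvd_natAbs.2 hd)
        have h2 : q ≤ h₀.natAbs := by exact_mod_cast h1
        omega
      obtain ⟨S, hS1, hS2⟩ := large_prime a b c h σ q (hh q hqh) (by omega) (by omega) (by omega)
      exact ⟨S, hS1, fun t ht ht0 hq' _ => hS2 t ht ht0⟩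
    · refine ⟨∅, Nat.zero_le _, fun t _ _ hq' hN => absurd ⟨hq', hN⟩ hq⟩
  choose S₂ hS₂c hS₂ using hlarge
  set S₀ : Finset ℤ := {0} ∪ (Finset.range (N₀ + 1)).biUnion S₁ with hS₀
  refine ⟨S₀.card, fun P => ⟨S₀ ∪ ((Finset.Icc 1 P).filter Nat.Prime).biUnion S₂, ?_, ?_⟩⟩
  · refine (Finset.card_union_le _ _).trans (Nat.add_le_add_left ?_ _)
    refine Finset.card_biUnion_le.trans ?_
    rw [Finset.mul_sum]
    exact Finset.sum_le_sum fun q _ => hS₂c q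
  · intro t ht
    rw [Finset.mem_union, not_or, hS₀, Finset.mem_union, not_or, Finset.mem_singleton] at ht
    obtain ⟨⟨ht0, ht1⟩, ht2⟩ := ht
    have ht1' : ∀ q ≤ N₀, t ∉ S₁ q := fun q hq hmem =>
      ht1 (Finset.mem_biUnion.2 ⟨q, Finset.mem_range.2 (by omega), hmem⟩)
    obtain ⟨hirr, hK⟩ := hS₁ 2 t (ht1' 2 (by omega)) Nat.prime_two
    refine ⟨hirr, ?_⟩
    intro K _ _ θ hθ hgen
    obtain ⟨hre, hco, -⟩ := hK K θ hθ hgen
    refine ⟨hre, hco, ?_⟩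
    intro p hp hpP
    by_cases hpN : p ≤ N₀
    · have h1 := (hS₁ p t (ht1' p hpN) hp.out).2 K θ hθ hgen
      convert h1.2.2
    · by_contra hL
      have ht3 : (p : ℤ) ∣ t ∨ t ∉ S₂ p := by
        rcases hpP with hpP | hpt
        · exact Or.inr fun hmem => ht2 (Finset.mem_biUnion.2 ⟨p, Finset.mem_filter.2
            ⟨Finset.mem_Icc.2 ⟨hp.out.one_lt.le, hpP⟩, hp.out⟩, hmem⟩)
        · exact Or.inl hpt
      apply hS₂ p t ht3 ht0 hp.out (by omega)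
      obtain ⟨hd, -⟩ := places_proof _ (spec_monic t hfm) hirr K θ hθ hgen
      refine ⟨K, inferInstance, inferInstance, θ, hθ, ?_, hgen, ?_, hL⟩
      · rw [hd]
        exact hfm.natDegree_map _
      · unfold Units.rank
        rw [InfinitePlace.card_eq_nrRealPlaces_add_nrComplexPlaces, hre, hco]

end Pool.Agent.W5h5.LD
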